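import Pool.Agent.W602.GT.Defs

/-!
The logarithmic Kodaira dimension of a function field with respect to a set of places.
-/

set_option autoImplicit false

open FF

namespace Pool.Agent.W602.GT

variable (k K : Type) [Field k] [Field K] [Algebra k K]

/-- `ω` is a section of `N (K_X + D)`: an `N`-canonical form with at most logarithmic poles at all
prime divisors, and regular at those which are not in `Bd`. -/
def LogSec (w N : ℕ) (Bd : Place k K → Prop) (ω : (Fin w → Derivation k K K) → K) : Prop :=
  IsPluri N ω ∧ (∀ P : Place k K, Divisorial w P → LogAt P ω) ∧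
    ∀ P : Place k K, Divisorial w P → ¬ Bd P → RegAt P ω

/-- The logarithmic Kodaira dimension is at least `h`: for some `N > 0` there are sections of
`N (K_X + D)` whose ratios contain `h` algebraically independent functions. -/
def KodGe (w : ℕ) (Bd : Place k K → Prop) (h : ℕ) : Prop :=
  ∃ N : ℕ, 0 < N ∧ ∃ ω : Fin (h + 1) → (Fin w → Derivation k K K) → K,
    (∀ j, LogSec k K w N Bd (ω j)) ∧
    ∃ D, ω 0 D ≠ 0 ∧ AlgebraicIndependent k (fun i : Fin h => ω i.succ D / ω 0 D)

end Pool.Agent.W602.GT
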