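import Pool.Agent.W602.GT.SpDefs

/-!
Rational points over finitely generated fields.
-/

set_option autoImplicit false

open LinearAlgebra.Projectivization

namespace Pool.Agent.W602.GT

variable {k : Type} [Field k] {n : ℕ} {ι : Type}

/-- The points of the closed subvariety with generic point `y` (as a cone). -/
def VarPts (k : Type) [Field k] {K : Type} [Field K] [Algebra k K] (y : Fin (n + 1) → K) :
    Set (Fin (n + 1) → k) :=
  {x | x ≠ 0 ∧ ∀ G : MvPolynomial (Fin (n + 1)) k, IsForm G → val y G = 0 → val x G = 0}

/-- The closed subvariety with generic point `y` is an irreducible component of `X = {F = 0}`: it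
contains the part of `X` where some form, nonzero at `y`, does not vanish. -/
def IsComponent (F : ι → MvPolynomial (Fin (n + 1)) k) {K : Type} [Field K] [Algebra k K]
    (y : Fin (n + 1) → K) : Prop :=
  ∃ H : MvPolynomial (Fin (n + 1)) k, IsForm H ∧ val y H ≠ 0 ∧
    ∀ x ∈ Cone F, val x H ≠ 0 → x ∈ VarPts k y

/-- The points of projective space, represented by vectors in `V` with coordinates in the subfield
generated by `T`. -/
def RatPts (V : Set (Fin (n + 1) → k)) (T : Finset k) : Set (ℙ k (Fin (n + 1) → k)) :=
  {p | ∃ x ∈ V, (∀ i, x i ∈ Subfield.closure (T : Set k)) ∧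
    ∃ hx : x ≠ 0, p = Projectivization.mk k x hx}

/-- The closed subvariety with generic point `y` is pseudo-Mordellic: for some form `H`, nonzero at
`y`, it has only finitely many points with `H ≠ 0` over each finitely generated field (containing
a fixed one, over which it is defined). -/
def PseudoMordellic (k : Type) [Field k] {K : Type} [Field K] [Algebra k K]
    (y : Fin (n + 1) → K) : Prop :=
  ∃ (H : MvPolynomial (Fin (n + 1)) k) (s0 : Finset k), IsForm H ∧ val y H ≠ 0 ∧
    ∀ T : Finset k, s0 ⊆ T → (RatPts (VarPts k y ∩ {x | val x H ≠ 0}) T).Finite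

/-- `X = {F = 0}` is Mordellic: it has only finitely many points over each finitely generated field
(containing a fixed one, over which it is defined). -/
def Mordellic (F : ι → MvPolynomial (Fin (n + 1)) k) : Prop :=
  ∃ s0 : Finset k, ∀ T : Finset k, s0 ⊆ T → (RatPts (Cone F) T).Finite

end Pool.Agent.W602.GT
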