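import Pool.Agent.W602.GT.PsDefs
import Pool.Agent.W602.GT.MordDefs
import Pool.Agent.W602.GT.KDefs

/-!
Irreducible components of quasi-projective varieties, and diagonal actions on them.
-/

set_option autoImplicit false

open FF

namespace Pool.Agent.W602.GT

variable {n : ℕ} {ι : Type}

/-- The points of the quasi-projective variety `V` with generic point `y`, the part `x_j ≠ 0`
(`j` in `U`) of a projective variety (as a cone). -/
def PtsU (U : Set (Fin (n + 1))) (k : Type) [Field k] {K : Type} [Field K] [Algebra k K]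
    (y : Fin (n + 1) → K) : Set (Fin (n + 1) → k) :=
  {x | x ∈ VarPts k y ∧ ∀ j ∈ U, x j ≠ 0}

/-- The closed subvariety with generic point `y` is an irreducible component of the
quasi-projective variety `X = {F = 0, x_j ≠ 0 for all j in U}`: it contains the part of `X` where
some form, nonzero at `y`, does not vanish. -/
def IsComponentU {k : Type} [Field k] (U : Set (Fin (n + 1)))
    (F : ι → MvPolynomial (Fin (n + 1)) k) {K : Type} [Field K] [Algebra k K]
    (y : Fin (n + 1) → K) : Prop :=
  ∃ H : MvPolynomial (Fin (n + 1)) k, IsForm H ∧ val y H ≠ 0 ∧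
    ∀ x ∈ ConeU U F, val x H ≠ 0 → x ∈ VarPts k y

/-- The one-parameter group `t ↦ diag (t ^ b 0, …, t ^ b n)` acts on `V`. -/
def Acts (U : Set (Fin (n + 1))) (k : Type) [Field k] {K : Type} [Field K] [Algebra k K]
    (y : Fin (n + 1) → K) (b : Fin (n + 1) → ℤ) : Prop :=
  ∀ t : k, t ≠ 0 → ∀ x ∈ PtsU U k y, (fun j => t ^ b j * x j) ∈ PtsU U k y

/-- `t ↦ diag (t ^ b 0, …, t ^ b n)`, with exponents `b j ≥ 0`, zero for `j` in `U`, zero for some
and nonzero for other coordinates which do not vanish on `V`, defines a map from the product of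
the affine line and a nonempty open part of `V` to `V`; so `V` is covered by affine lines
`t ↦ (t ^ b j * x_j)`. -/
structure Contracts (U : Set (Fin (n + 1))) (k : Type) [Field k] {K : Type} [Field K] [Algebra k K]
    (y : Fin (n + 1) → K) (b : Fin (n + 1) → ℕ) : Prop where
  zero : ∀ j ∈ U, b j = 0
  fixed : ∃ j, y j ≠ 0 ∧ b j = 0
  moved : ∃ j, y j ≠ 0 ∧ b j ≠ 0
  mem : ∀ (t : k) (x : Fin (n + 1) → k), x ∈ PtsU U k y → (∃ j, b j = 0 ∧ x j ≠ 0) →
    (fun j => t ^ b j * x j) ∈ PtsU U k y

end Pool.Agent.W602.GT
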