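import Pool.Agent.W602.GT.Cls
import Pool.Agent.W602.GT.MordDefs

/-!
Pseudo-Mordellic varieties are of general type.
-/

set_option autoImplicit false

open FF

namespace Pool.Agent.W602.GT

variable {k : Type} [Field k] {n : ℕ} {ι : Type}

theorem form_mul {G H : MvPolynomial (Fin (n + 1)) k} (hG : IsForm G) (hH : IsForm H) :
    IsForm (G * H) := by
  obtain ⟨d, hd⟩ := hG
  obtain ⟨e, he⟩ := hH
  exact ⟨d + e, hd.mul he⟩

theorem val_mul {L : Type} [Field L] [Algebra k L] (y : Fin (n + 1) → L)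
    (G H : MvPolynomial (Fin (n + 1)) k) : val y (G * H) = val y G * val y H := by
  unfold val
  rw [map_mul]

/-- the image of the multiplicative group has infinitely many rational points -/
theorem infinite_points [CharZero k] {F : ι → MvPolynomial (Fin (n + 1)) k}
    {P : Fin (n + 1) → Polynomial k} (hP : GmCurve F P) {G : MvPolynomial (Fin (n + 1)) k} {t0 : k}
    (hG : val (fun i => (P i).eval t0) G ≠ 0) (s0 : Finset k) :
    ∃ T : Finset k, s0 ⊆ T ∧ (RatPts (Cone F ∩ {x | val x G ≠ 0}) T).Infinite := by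
  classical
  let T : Finset k := s0 ∪ Finset.univ.biUnion fun i => (P i).coeffs
  refine ⟨T, Finset.subset_union_left, fun hfin => ?_⟩
  obtain ⟨Q, hQ, -⟩ := val_poly P G
  have hQ0 : Q ≠ 0 := by
    rintro rfl
    rw [← hQ] at hG
    simp at hG
  have hS : {t : ℕ | t = 0 ∨ Q.eval (t : k) = 0}.Finite := by
    have h1 : {t : ℕ | Q.eval (t : k) = 0}.Finite := by
      have h2 : {x : k | Q.eval x = 0}.Finite := by
        refine (Q.roots.toFinset.finite_toSet).subset fun x hx => ?_
        simp only [Finset.mem_coe, Multiset.mem_toFinset, Polynomial.mem_roots hQ0]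
        exact hx
      exact h2.preimage (Nat.cast_injective.injOn)
    exact (Set.finite_singleton 0).union h1 |>.subset (by
      rintro t (h | h)
      · exact Or.inl h
      · exact Or.inr h)
  have hinf : Infinite {t : ℕ // t ∈ {t : ℕ | t = 0 ∨ Q.eval (t : k) = 0}ᶜ} :=
    Set.infinite_coe_iff.2 hS.infinite_compl
  have hpt : ∀ t : {t : ℕ // t ∈ {t : ℕ | t = 0 ∨ Q.eval (t : k) = 0}ᶜ},
      ∃ hx : (fun i => (P i).eval (t.1 : k)) ≠ 0,
        Projectivization.mk k (fun i => (P i).eval (t.1 : k)) hx ∈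
          RatPts (Cone F ∩ {x | val x G ≠ 0}) T := by
    rintro ⟨t, ht⟩
    rw [Set.mem_compl_iff, Set.mem_ofPred_eq, not_or] at ht
    have ht0 : (t : k) ≠ 0 := by exact_mod_cast ht.1
    refine ⟨hP.ne _ ht0, _, ⟨⟨hP.ne _ ht0, fun e => hP.mem _ ht0 e⟩, ?_⟩, fun i => ?_,
      hP.ne _ ht0, rfl⟩
    · change val _ G ≠ 0
      rw [← hQ]
      exact ht.2
    · rw [Polynomial.eval_eq_sum]
      refine sum_mem fun m hm => mul_mem ?_ (pow_mem (natCast_mem _ t) _)
      apply Subfield.subset_closure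
      refine Finset.mem_coe.2 (Finset.mem_union_right _ ?_)
      refine Finset.mem_biUnion.2 ⟨i, Finset.mem_univ _, ?_⟩
      exact Polynomial.coeff_mem_coeffs (Polynomial.mem_support_iff.1 hm)
  choose hx hmem using hpt
  let f : {t : ℕ // t ∈ {t : ℕ | t = 0 ∨ Q.eval (t : k) = 0}ᶜ} →
      (RatPts (Cone F ∩ {x | val x G ≠ 0}) T) := fun t => ⟨_, hmem t⟩
  have hfin' : Finite (RatPts (Cone F ∩ {x | val x G ≠ 0}) T) := hfin
  obtain ⟨p, hp⟩ := Finite.exists_infinite_fiber f
  obtain ⟨t1⟩ := hp.nonempty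
  set x0 : Fin (n + 1) → k := fun i => (P i).eval (t1.1.1 : k) with hx0
  have hx0ne : x0 ≠ 0 := hx t1.1
  -- all the points of the fibre are proportional
  have hprop : ∀ i j, P i * Polynomial.C (x0 j) = P j * Polynomial.C (x0 i) := by
    intro i j
    apply Polynomial.eq_of_infinite_eval_eq
    have h1 : (Set.range fun t : f ⁻¹' {p} => ((t.1.1 : ℕ) : k)).Infinite := by
      apply Set.infinite_range_of_injective
      intro a b hab
      apply Subtype.ext
      apply Subtype.ext
      change ((a.1.1 : ℕ) : k) = ((b.1.1 : ℕ) : k) at hab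
      exact_mod_cast hab
    refine h1.mono ?_
    rintro _ ⟨t, rfl⟩
    have h2 : f t.1 = f t1.1 := by
      have h3 : f t.1 = p := t.2
      have h4 : f t1.1 = p := t1.2
      rw [h3, h4]
    have h3 := congrArg Subtype.val h2
    change Projectivization.mk k _ (hx t.1) = Projectivization.mk k _ (hx t1.1) at h3
    rw [Projectivization.mk_eq_mk_iff'] at h3
    obtain ⟨c, hc⟩ := h3
    have h4 := congrFun hc i
    have h5 := congrFun hc j
    change Polynomial.eval _ _ = Polynomial.eval _ _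
    rw [Polynomial.eval_mul, Polynomial.eval_mul, Polynomial.eval_C, Polynomial.eval_C]
    change c * x0 i = (P i).eval (t.1.1 : k) at h4
    change c * x0 j = (P j).eval (t.1.1 : k) at h5
    rw [← h4, ← h5]
    ring
  obtain ⟨i0, hi0⟩ := Function.ne_iff.1 hx0ne
  obtain ⟨a, b, ha, hb, hli⟩ := hP.nonconst
  have hall : ∀ t : k, ∀ i, (P i).eval t * x0 i0 = (P i0).eval t * x0 i := by
    intro t i
    have h1 := congrArg (Polynomial.eval t) (hprop i i0)
    rwa [Polynomial.eval_mul, Polynomial.eval_mul, Polynomial.eval_C, Polynomial.eval_C] at h1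
  rw [LinearIndependent.pair_iff] at hli
  have h1 := hli ((P i0).eval b) (-(P i0).eval a) (by
    funext i
    simp only [Pi.add_apply, Pi.smul_apply, smul_eq_mul, Pi.zero_apply]
    have h2 := hall a i
    have h3 := hall b i
    have h4 : x0 i0 ≠ 0 := hi0
    apply mul_right_cancel₀ h4
    linear_combination (P i0).eval b * h2 - (P i0).eval a * h3)
  apply hP.ne b hb
  funext i
  have h2 := hall b i
  rw [h1.1, zero_mul] at h2
  exact (mul_eq_zero.1 h2).resolve_right hi0

variable [CharZero k] [IsAlgClosed k]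

theorem general_of_mordellic {F : ι → MvPolynomial (Fin (n + 1)) k} {s N : ℕ}
    (hF : HighPowers s N F) (hN1 : 1 ≤ N) (hN : n * ((s + 1) * tn (s - 1)) ≤ N) :
    (∀ (K : Type) [Field K] [Algebra k K] (w : ℕ) (y : Fin (n + 1) → K), 1 ≤ w →
      SubVar F K w y → IsComponent F y → PseudoMordellic k y → GeneralType k K w) ∧
    (Mordellic F → AllGeneralType F) := by
  constructor
  · intro K _ _ w y hw hy hcomp hPM
    by_contra hgt
    obtain ⟨H1, hH1, hH1y, hcone⟩ := hcomp
    obtain ⟨H, s0, hH, hHy, hfin⟩ := hPM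
    have h1 : val y (H1 * H) ≠ 0 := by
      rw [val_mul]
      exact mul_ne_zero hH1y hHy
    obtain ⟨P, hP, t, -, ht⟩ := gm_through hF hN1 hN hw hy hgt (form_mul hH1 hH) h1
    obtain ⟨T, hT, hinf⟩ := infinite_points hP ht s0
    apply hinf
    refine (hfin T hT).subset ?_
    rintro p ⟨x, ⟨hx, hxG⟩, hxT, hx0, rfl⟩
    rw [Set.mem_ofPred_eq, val_mul] at hxG
    exact ⟨x, ⟨hcone x hx (left_ne_zero_of_mul hxG), right_ne_zero_of_mul hxG⟩, hxT, hx0, rfl⟩
  · rintro ⟨s0, hfin⟩
    rw [all_iff hF hN1 hN]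
    intro P hP
    have h1 : val (fun i => (P i).eval 1) (1 : MvPolynomial (Fin (n + 1)) k) ≠ 0 := by
      unfold val
      rw [map_one]
      exact one_ne_zero
    obtain ⟨T, hT, hinf⟩ := infinite_points hP h1 s0
    apply hinf
    refine (hfin T hT).subset ?_
    rintro p ⟨x, ⟨hx, -⟩, hxT, hx0, rfl⟩
    exact ⟨x, hx, hxT, hx0, rfl⟩

end Pool.Agent.W602.GT
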