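import Pool.Agent.W602.GT.PsOrb
import Pool.Agent.H159R3.GGL.LogSpecial
import Pool.Agent.W603.BP.PSMain

/-!
The five conditions of the generalised Green-Griffiths-Lang conjecture for sparse varieties.
-/

set_option autoImplicit false

open FF IntermediateField

namespace Pool.Agent.W602.GT

open Pool.Agent.H159R3.GGLLog Pool.Agent.W603.BP Pool.Agent.H159R3.Exp

variable {n : ℕ} {ι : Type}

theorem val_eval (x : Fin (n + 1) → ℂ) (G : MvPolynomial (Fin (n + 1)) ℂ) :
    val x G = MvPolynomial.eval x G := by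
  unfold val
  rw [MvPolynomial.aeval_def, MvPolynomial.eval₂_eq', MvPolynomial.eval_eq']
  rfl

theorem cone_eq (U : Set (Fin (n + 1))) (F : ι → MvPolynomial (Fin (n + 1)) ℂ) :
    ConeU U F = Pts U F := by
  ext x
  unfold ConeU Pts
  simp only [Set.mem_ofPred_eq, val_eval]

theorem torus_of_diag {U : Set (Fin (n + 1))} {F : ι → MvPolynomial (Fin (n + 1)) ℂ}
    {x : Fin (n + 1) → ℂ} {b : Fin (n + 1) → ℤ} (h : DiagCurve U F x b) :
    TorusCurve U F (fun t j => t ^ b j * x j) := by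
  obtain ⟨hX, i, i', hi, hi', hb⟩ := h
  refine ⟨fun j => (Laur.zpow _).mul (Laur.const _), fun t ht => ?_, 2, 1, two_ne_zero,
    one_ne_zero, fun c hc => ?_⟩
  · rw [← cone_eq]
    exact hX t ht
  · have h2 : ∀ l, x l ≠ 0 → (2 : ℂ) ^ b l = c := by
      intro l hl
      have h3 := congrFun hc l
      simp only [Pi.smul_apply, smul_eq_mul, one_zpow, one_mul] at h3
      exact mul_right_cancel₀ hl h3
    have h4 := (h2 i hi).trans (h2 i' hi').symm
    apply hb
    exact zpow_right_injective₀ (by norm_num) (by norm_num) (two_zpow h4)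

theorem wc_eq (b : Fin (n + 1) → ℤ) (v : ℤ) (G : MvPolynomial (Fin (n + 1)) ℂ)
    (x : Fin (n + 1) → ℂ) : val x (wc b v G) = MvPolynomial.eval x
      (sub G (G.support.filter (fun α => ∑ j, (α j : ℤ) * b j = v))) := by
  rw [val_wc, eval_sub']
  rfl

/-- The algebraic special set is the closure of the images of the multiplicative group. -/
theorem spAlg_eq (U : Set (Fin (n + 1))) (F : ι → MvPolynomial (Fin (n + 1)) ℂ) {s N : ℕ}
    (hF : ∀ e, IsPowSparse U s N (F e)) (hN : n * ((s + 1) * tn (s - 1)) ≤ N)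
    (hC : ∀ e, PowerSparse U (F e)) : SpAlgU U F = SpT U F := by
  ext x
  constructor
  · rintro ⟨hx, h⟩
    rw [cone_eq] at hx
    refine ⟨hx, fun G hG hT => ?_⟩
    rw [← val_eval]
    refine h G hG ?_
    intro K _ _ w y hw hy hgt
    by_contra hne
    obtain ⟨x0, b, hd, hx0⟩ := closure_orbits hF hN hw hy hgt hne
    apply hx0
    have h1 := hT _ (torus_of_diag hd) 1 one_ne_zero
    rw [val_eval]
    simpa using h1
  · rintro ⟨hx, h⟩
    refine ⟨by rw [cone_eq]; exact hx, fun G hG hA => ?_⟩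
    rw [val_eval]
    refine h G hG ?_
    intro v hv t ht
    by_contra hne
    have he := hv.entire
    have ht1 : MvPolynomial.eval (v (Complex.exp (Complex.log t))) G ≠ 0 := by
      rw [Complex.exp_log ht]
      exact hne
    obtain ⟨z0, b, j, l, hj, hl, hbjl, hG0, hs⟩ := curve U F hC _ he G _ ht1
    set x0 := v (Complex.exp z0) with hx0
    have hx0P : x0 ∈ Pts U F := he.2.1 z0
    have hd : DiagCurve U F x0 b := diag_of_wc hx0P.2.1 (fun e w => by
      rw [wc_eq]
      exact hs e w) ⟨j, l, hj, hl, hbjl⟩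
    obtain ⟨K, _, _, y, hy, hgt, htr⟩ := orbit_subvar (fun e => (hF e).1) hd
    have h1 := hA K 1 y le_rfl hy hgt
    have h2 := htr G hG h1
    rw [val_eval] at h2
    exact hG0 h2

/-- `y` is the generic point of `X`. -/
def GenericU (U : Set (Fin (n + 1))) (F : ι → MvPolynomial (Fin (n + 1)) ℂ) {K : Type} [Field K]
    [Algebra ℂ K] (y : Fin (n + 1) → K) : Prop :=
  ∀ G : MvPolynomial (Fin (n + 1)) ℂ, IsForm G → val y G = 0 → ∀ x ∈ ConeU U F, val x G = 0

/-- forms which vanish on `X` vanish at points over extensions -/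
theorem val_of_cone {k : Type} [Field k] [IsAlgClosed k] {U : Set (Fin (n + 1))}
    {F : ι → MvPolynomial (Fin (n + 1)) k} {K : Type} [Field K] [Algebra k K]
    {y : Fin (n + 1) → K} (hy0 : y ≠ 0) (hyU : ∀ j ∈ U, y j ≠ 0) (hyF : ∀ e, val y (F e) = 0)
    {G : MvPolynomial (Fin (n + 1)) k} (h : ∀ x ∈ ConeU U F, val x G = 0) : val y G = 0 := by
  classical
  by_contra hne
  obtain ⟨i, hi⟩ := Function.ne_iff.1 hy0
  let H : MvPolynomial (Fin (n + 1)) k := G * MvPolynomial.X i *
    ∏ j ∈ Finset.univ.filter (fun j => j ∈ U), MvPolynomial.X j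
  have hH : MvPolynomial.aeval y H ≠ 0 := by
    simp only [H, map_mul, map_prod, MvPolynomial.aeval_X]
    refine mul_ne_zero (mul_ne_zero hne hi) ?_
    exact Finset.prod_ne_zero_iff.2 fun j hj => hyU j (Finset.mem_filter.1 hj).2
  obtain ⟨x, hx, hx0⟩ := specialise y H hH
  simp only [H, map_mul, map_prod, MvPolynomial.aeval_X] at hx
  have h1 := left_ne_zero_of_mul hx
  have h2 := right_ne_zero_of_mul hx
  apply left_ne_zero_of_mul h1
  refine h x ⟨fun h0 => ?_, fun j hj => ?_, fun e => hx0 _ (hyF e)⟩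
  · exact right_ne_zero_of_mul h1 (congrFun h0 i)
  · exact Finset.prod_ne_zero_iff.1 h2 j (Finset.mem_filter.2 ⟨Finset.mem_univ _, hj⟩)

/-- a nontrivial diagonal action prevents log general type -/
theorem not_gt_of_action {U : Set (Fin (n + 1))} {F : ι → MvPolynomial (Fin (n + 1)) ℂ}
    {K : Type} [Field K] [Algebra ℂ K] {w : ℕ} {y : Fin (n + 1) → K} (hy : SubVarU U F K w y)
    (hgen : GenericU U F y) {b : Fin (n + 1) → ℤ} (hb : Preserves U b F)
    (hnt : ¬ ActsTrivially U b F) : ¬ LogGeneralType ℂ K w (OffU U y) := by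
  classical
  have hcone : ∀ x ∈ ConeU U F, ∀ t : ℂ, t ≠ 0 → (fun j => t ^ b j * x j) ∈ ConeU U F := by
    intro x hx t ht
    rw [cone_eq] at hx ⊢
    have h1 := hb x hx t ht
    simpa only [mul_comm] using h1
  obtain ⟨i, i', hi, hi', hbi⟩ : ∃ i i', y i ≠ 0 ∧ y i' ≠ 0 ∧ b i ≠ b i' := by
    by_contra hcon
    push Not at hcon
    apply hnt
    intro x hx t ht
    have hx' : x ∈ ConeU U F := by rw [cone_eq]; exact hx
    have hyx : ∀ i, x i ≠ 0 → y i ≠ 0 := by
      intro i hi h0
      apply hi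
      have h1 := hgen (MvPolynomial.X i) ⟨1, MvPolynomial.isHomogeneous_X _ _⟩ (by
        unfold val
        rw [MvPolynomial.aeval_X]
        exact h0) x hx'
      unfold val at h1
      rwa [MvPolynomial.aeval_X] at h1
    obtain ⟨i, hi⟩ := Function.ne_iff.1 hx.1
    refine ⟨t ^ b i, ?_⟩
    funext j
    by_cases hj : x j = 0
    · simp [hj]
    · rw [Pi.smul_apply, smul_eq_mul, hcon i j (hyx i hi) (hyx j hj), mul_comm]
  refine orb_not_gt hy.gen b hi hi' hbi hy.unit ?_
  intro G hG h0 v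
  apply val_of_cone hy.ne hy.unit hy.mem
  intro x hx
  exact wc_of_orbit (fun t ht => hgen G hG h0 _ (hcone x hx t ht)) v

theorem brody_iff (U : Set (Fin (n + 1))) (F : ι → MvPolynomial (Fin (n + 1)) ℂ) :
    PseudoBrody U F ↔ SpH U F ≠ Pts U F := by
  constructor
  · rintro ⟨G, hG, ⟨x, hx, hxG⟩, h⟩ heq
    have h1 : x ∈ SpH U F := by rw [heq]; exact hx
    exact hxG (h1.2 G hG h)
  · intro h
    by_contra hcon
    apply h
    apply Set.Subset.antisymm
    · exact fun x hx => hx.1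
    · intro x hx
      refine ⟨hx, fun G hG hE => ?_⟩
      by_contra hne
      exact hcon ⟨G, hG, ⟨x, hx, hne⟩, hE⟩

/-- **The generalised Green-Griffiths-Lang conjecture for sparse varieties.** -/
theorem five (U : Set (Fin (n + 1))) (F : ι → MvPolynomial (Fin (n + 1)) ℂ) {s N : ℕ}
    (hF : ∀ e, IsPowSparse U s N (F e)) (hN : n * ((s + 1) * tn (s - 1)) ≤ N)
    (hC : ∀ e, PowerSparse U (F e)) :
    (SpAlgU U F = SpH U F ∧ SpP U F = SpH U F ∧ SpT U F = SpH U F) ∧
    (Finite ι → ∀ (K : Type) [Field K] [Algebra ℂ K] (w : ℕ) (y : Fin (n + 1) → K), 1 ≤ w →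
      SubVarU U F K w y → GenericU U F y → Irred U F →
      [LogGeneralType ℂ K w (OffU U y), SpAlgU U F ≠ Pts U F, SpP U F ≠ Pts U F,
        SpH U F ≠ Pts U F, SpT U F ≠ Pts U F].TFAE) := by
  have h1 := special_picard U F hC
  have h2 := spAlg_eq U F hF hN hC
  have e1 : SpAlgU U F = SpH U F := by rw [h2, ← h1.2, h1.1]
  have e2 : SpP U F = SpH U F := h1.1
  have e3 : SpT U F = SpH U F := by rw [← h1.2, h1.1]
  refine ⟨⟨e1, e2, e3⟩, ?_⟩
  intro hfin K _ _ w y hw hy hgen hirr
  have h4 : LogGeneralType ℂ K w (OffU U y) ↔ SpH U F ≠ Pts U F := by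
    constructor
    · intro hgt
      rw [← brody_iff]
      rw [main U F (fun e => (hF e).1) hC hirr]
      intro b hb
      by_contra hnt
      exact not_gt_of_action hy hgen hb hnt hgt
    · intro hne
      by_contra hgt
      apply hne
      rw [← e1]
      apply Set.Subset.antisymm
      · intro x hx
        rw [← cone_eq]
        exact hx.1
      · intro x hx
        rw [← cone_eq] at hx
        refine ⟨hx, fun G hG hA => ?_⟩
        exact hgen G hG (hA K w y hw hy hgt) x hx
  rw [e1, e2, e3]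
  tfae_have 1 ↔ 4 := h4
  tfae_have 2 ↔ 4 := Iff.rfl
  tfae_have 3 ↔ 4 := Iff.rfl
  tfae_have 5 ↔ 4 := Iff.rfl
  tfae_finish

end Pool.Agent.W602.GT
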