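import Pool.Agent.W602.GT.UniDefs
import Pool.Agent.W602.GT.Mord
import Pool.Agent.W602.GT.PsFin

/-!
Irreducible components are of general type or uniruled.
-/

set_option autoImplicit false

open FF IntermediateField

namespace Pool.Agent.W602.GT

variable {k : Type} [Field k] {n : ℕ} {ι : Type}

/-- values along a polynomial curve over an extension -/
theorem val_polyK {K : Type} [Field K] [Algebra k K] (P : Fin (n + 1) → Polynomial K)
    (G : MvPolynomial (Fin (n + 1)) k) :
    ∃ Q : Polynomial K, (∀ t : K, Q.eval t = val (fun i => (P i).eval t) G) ∧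
      algebraMap (Polynomial K) (RatFunc K) Q =
        val (fun i => algebraMap (Polynomial K) (RatFunc K) (P i)) G := by
  refine ⟨MvPolynomial.aeval P G, fun t => ?_, ?_⟩
  · unfold val
    have h1 : ((Polynomial.aeval t : Polynomial K →ₐ[K] K).restrictScalars k).comp
        (MvPolynomial.aeval P) = MvPolynomial.aeval (fun i => (P i).eval t) := by
      apply MvPolynomial.algHom_ext
      intro i
      simp
    rw [← h1]
    simp
  · unfold val
    have h1 : ((Algebra.ofId (Polynomial K) (RatFunc K)).restrictScalars k).comp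
        (MvPolynomial.aeval P) = MvPolynomial.aeval
          (fun i => algebraMap (Polynomial K) (RatFunc K) (P i)) := by
      apply MvPolynomial.algHom_ext
      intro i
      simp [Algebra.ofId_apply]
    rw [← h1]
    rfl

theorem mem_cone_empty {F : ι → MvPolynomial (Fin (n + 1)) k} {x : Fin (n + 1) → k}
    (hx : x ∈ ConeU ∅ F) : x ∈ Cone F := ⟨hx.1, hx.2.2⟩

/-- A point over an extension which specialises to the generic point of a component has the same
relations. -/
theorem same_relations [IsAlgClosed k] {F : ι → MvPolynomial (Fin (n + 1)) k} {K : Type} [Field K]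
    [Algebra k K] {y : Fin (n + 1) → K} (hcomp : IsComponent F y) {L : Type} [Field L]
    [Algebra k L] {y' : Fin (n + 1) → L} (hy0 : y' ≠ 0) (hyF : ∀ e, val y' (F e) = 0)
    (hspec : ∀ G : MvPolynomial (Fin (n + 1)) k, IsForm G → val y' G = 0 → val y G = 0)
    (G : MvPolynomial (Fin (n + 1)) k) (hG : IsForm G) : val y G = 0 ↔ val y' G = 0 := by
  refine ⟨fun h => ?_, hspec G hG⟩
  obtain ⟨H, hH, hHy, hcone⟩ := hcomp
  have h1 : val y' (H * G) = 0 := by
    refine val_of_cone (U := ∅) hy0 (fun j hj => absurd hj (Set.notMem_empty j)) hyF ?_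
    intro x hx
    rw [val_mul]
    by_cases h0 : val x H = 0
    · rw [h0, zero_mul]
    · rw [(hcone x (mem_cone_empty hx) h0).2 G hG h, mul_zero]
  rw [val_mul] at h1
  exact (mul_eq_zero.1 h1).resolve_left fun h0 => hHy (hspec H hH h0)

/-- the field generated by finitely many ratios is finitely generated -/
theorem essFinite {K : Type} [Field K] [Algebra k K] {y : Fin (n + 1) → K}
    (hgen : coords k y = ⊤) : Algebra.EssFiniteType k K := by
  rw [← IntermediateField.fg_top_iff]
  have hfin : {z : K | ∃ i j, y j ≠ 0 ∧ z = y i / y j}.Finite := by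
    refine (Set.finite_range fun p : Fin (n + 1) × Fin (n + 1) => y p.1 / y p.2).subset ?_
    rintro z ⟨i, j, -, rfl⟩
    exact ⟨(i, j), rfl⟩
  refine ⟨hfin.toFinset, ?_⟩
  rw [Set.Finite.coe_toFinset]
  exact hgen

/-- an embedding into the rational functions -/
theorem uniruled_of {K : Type} [Field K] [Algebra k K] {y : Fin (n + 1) → K}
    (hgen : coords k y = ⊤) {y' : Fin (n + 1) → RatFunc K} {i0 j0 : Fin (n + 1)} (h0 : y i0 ≠ 0)
    (h0' : y' i0 ≠ 0)
    (h : ∀ G : MvPolynomial (Fin (n + 1)) k, IsForm G → (val y G = 0 ↔ val y' G = 0))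
    (hnc : y' j0 / y' i0 ∉ Set.range (algebraMap K (RatFunc K))) : Uniruled k K := by
  obtain ⟨φ, hφ⟩ := exists_embedding (L := RatFunc K) h0 h0' hgen h
  exact ⟨K, inferInstance, inferInstance, essFinite hgen, φ, y j0 / y i0, by rw [hφ]; exact hnc⟩

theorem zpow_not_const {K : Type} [Field K] {m : ℤ} (hm : m ≠ 0) (c : K) :
    (RatFunc.X : RatFunc K) ^ m ≠ algebraMap K (RatFunc K) c := by
  have hnat : ∀ (r : ℕ), r ≠ 0 → ∀ c : K, (RatFunc.X : RatFunc K) ^ r ≠
      algebraMap K (RatFunc K) c := by
    intro r hr c h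
    have h2 : algebraMap (Polynomial K) (RatFunc K) (Polynomial.C c) =
        algebraMap K (RatFunc K) c := by
      rw [IsScalarTower.algebraMap_apply K (Polynomial K) (RatFunc K)]
      rfl
    rw [← h2, ← RatFunc.algebraMap_X, ← map_pow] at h
    have h3 := congrArg Polynomial.natDegree (RatFunc.algebraMap_injective K h)
    rw [Polynomial.natDegree_X_pow, Polynomial.natDegree_C] at h3
    exact hr h3
  intro h
  rcases lt_or_gt_of_ne hm with h1 | h1
  · refine hnat m.natAbs (by omega) c⁻¹ ?_
    rw [map_inv₀, ← h, ← zpow_neg, ← zpow_natCast]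
    congr 1
    omega
  · refine hnat m.natAbs (by omega) c ?_
    rw [← h, ← zpow_natCast]
    congr 1
    omega

variable [CharZero k] [IsAlgClosed k]

theorem uni_waring {F : ι → MvPolynomial (Fin (n + 1)) k} {s N : ℕ}
    (hF : ∀ e, IsPowSum s N (F e)) (hN1 : 1 ≤ N) (hN : n * ((s + 1) * tn (s - 1)) ≤ N)
    {K : Type} [Field K] [Algebra k K] {w : ℕ} (hw : 0 < w) {y : Fin (n + 1) → K}
    (hy : SubVar F K w y) (hcomp : IsComponent F y) (hgt : ¬ GeneralType k K w) :
    Uniruled k K := by
  have hgen : Algebra.IsAlgebraic (coords k y) K := by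
    rw [hy.gen]
    infer_instance
  have hK : CharZero K := charZero_of_injective_algebraMap (algebraMap k K).injective
  obtain ⟨v, ⟨i, j, hv⟩, hl⟩ := waring hF hN1 hN hw hy.dim hy.ne hgen hy.mem hgt
  have hinj : Function.Injective (algebraMap (Polynomial K) (RatFunc K)) :=
    RatFunc.algebraMap_injective K
  -- a nonzero coordinate
  obtain ⟨i0, j0, h0, hv0⟩ : ∃ i0 j0, y i0 ≠ 0 ∧ y i0 * v j0 - y j0 * v i0 ≠ 0 := by
    by_cases h : y i = 0
    · refine ⟨j, i, ?_, ?_⟩
      · intro h0
        apply hv
        rw [h, h0]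
        ring
      · intro h0
        apply hv
        linear_combination -h0
    · exact ⟨i, j, h, hv⟩
  let P : Fin (n + 1) → Polynomial K := fun l =>
    Polynomial.C (y l) + Polynomial.C (v l) * Polynomial.X
  have hP : ∀ t : K, (fun l => (P l).eval t) = fun l => 1 * y l + t * v l := by
    intro t
    funext l
    simp only [P, Polynomial.eval_add, Polynomial.eval_mul, Polynomial.eval_C, Polynomial.eval_X]
    ring
  have hP0 : P i0 ≠ 0 := by
    intro h1
    apply h0
    have h2 := congrArg (Polynomial.eval 0) h1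
    simpa [P] using h2
  let y' : Fin (n + 1) → RatFunc K := fun l => algebraMap (Polynomial K) (RatFunc K) (P l)
  have h0' : y' i0 ≠ 0 := by
    intro h1
    exact hP0 (hinj (by rw [map_zero]; exact h1))
  have hyF : ∀ e, val y' (F e) = 0 := by
    intro e
    obtain ⟨Q, hQ1, hQ2⟩ := val_polyK P (F e)
    have h1 : Q = 0 := poly_zero fun t _ => by
      rw [hQ1, hP]
      exact hl 1 t e
    rw [← hQ2, h1, map_zero]
  have hspec : ∀ G : MvPolynomial (Fin (n + 1)) k, IsForm G → val y' G = 0 → val y G = 0 := by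
    intro G _ h1
    obtain ⟨Q, hQ1, hQ2⟩ := val_polyK P G
    have h2 : Q = 0 := hinj (by rw [hQ2, map_zero]; exact h1)
    have h3 := hQ1 0
    rw [h2, Polynomial.eval_zero, hP] at h3
    have h4 : (fun l => 1 * y l + 0 * v l) = y := by
      funext l
      ring
    rw [h4] at h3
    exact h3.symm
  refine uniruled_of hy.gen h0 h0' (same_relations hcomp (fun h1 => h0' (congrFun h1 i0)) hyF
    hspec) (j0 := j0) ?_
  rintro ⟨c, hc⟩
  have h1 : P j0 = Polynomial.C c * P i0 := by
    apply hinj
    rw [map_mul]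
    have h2 : algebraMap (Polynomial K) (RatFunc K) (Polynomial.C c) =
        algebraMap K (RatFunc K) c := by
      rw [IsScalarTower.algebraMap_apply K (Polynomial K) (RatFunc K)]
      rfl
    rw [h2, hc]
    change y' j0 = y' j0 / y' i0 * y' i0
    field_simp
  have h2 := congrArg (fun p : Polynomial K => p.coeff 0) h1
  have h3 := congrArg (fun p : Polynomial K => p.coeff 1) h1
  simp [P, mul_add] at h2 h3
  apply hv0
  rw [h2, h3]
  ring

theorem uni_sparse {F : ι → MvPolynomial (Fin (n + 1)) k} {s N : ℕ}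
    (hF : ∀ e, IsPowSparse ∅ s N (F e)) (hN : n * ((s + 1) * tn (s - 1)) ≤ N)
    {K : Type} [Field K] [Algebra k K] {w : ℕ} (hw : 0 < w) {y : Fin (n + 1) → K}
    (hy : SubVar F K w y) (hcomp : IsComponent F y) (hgt : ¬ GeneralType k K w) :
    Uniruled k K := by
  have hgen : Algebra.IsAlgebraic (coords k y) K := by
    rw [hy.gen]
    infer_instance
  have hgt' : ¬ LogGeneralType k K w (OffU ∅ y) := by
    intro h1
    apply hgt
    apply general_of_log
    have h2 : OffU ∅ y = fun _ : Place k K => False := by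
      funext P
      simp [OffU]
    rwa [h2] at h1
  obtain ⟨b, i, i', hi, hi', hb, hwc⟩ := sparse hF hN hw hy.dim hy.ne hgen hy.mem
    (fun j hj => absurd hj (Set.notMem_empty j)) hgt'
  have hX : (RatFunc.X : RatFunc K) ≠ 0 := RatFunc.X_ne_zero
  let y' : Fin (n + 1) → RatFunc K := fun j => RatFunc.X ^ b j * algebraMap K (RatFunc K) (y j)
  have hne : ∀ j, y j ≠ 0 → y' j ≠ 0 := fun j hj =>
    mul_ne_zero (zpow_ne_zero _ hX) (by rw [Ne, map_eq_zero]; exact hj)
  have hyF : ∀ e, val y' (F e) = 0 := by
    intro e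
    apply val_orbit (L := RatFunc K) (fun j => algebraMap K (RatFunc K) (y j)) b hX
    intro v
    have h1 := val_map (IsScalarTower.toAlgHom k K (RatFunc K)) (wc b v (F e)) y
    rw [hwc e v, map_zero] at h1
    exact h1.symm
  have hspec : ∀ G : MvPolynomial (Fin (n + 1)) k, IsForm G → val y' G = 0 → val y G = 0 := by
    intro G _ h1
    obtain ⟨M, R, hR1, hR2, -⟩ := orbit_poly (k := k) y b G
    have h2 : R = 0 := RatFunc.algebraMap_injective K (by
      rw [hR2, map_zero]
      change RatFunc.X ^ M * val y' G = 0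
      rw [h1, mul_zero])
    have h3 := hR1 1 one_ne_zero
    rw [h2, Polynomial.eval_zero] at h3
    have h4 : (fun j => (1 : K) ^ b j * y j) = y := by
      funext j
      rw [one_zpow, one_mul]
    rw [h4, one_pow, one_mul] at h3
    exact h3.symm
  refine uniruled_of hy.gen hi (hne i hi) (same_relations hcomp (fun h1 => hne i hi (congrFun h1 i))
    hyF hspec) (j0 := i') ?_
  rintro ⟨c, hc⟩
  have hyi : algebraMap K (RatFunc K) (y i) ≠ 0 := by rw [Ne, map_eq_zero]; exact hi
  have hyi' : algebraMap K (RatFunc K) (y i') ≠ 0 := by rw [Ne, map_eq_zero]; exact hi'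
  have h1 : (RatFunc.X : RatFunc K) ^ (b i' - b i) =
      algebraMap K (RatFunc K) (c * y i / y i') := by
    rw [map_div₀, map_mul, hc, zpow_sub₀ hX]
    simp only [y']
    have h2 : (RatFunc.X : RatFunc K) ^ b i ≠ 0 := zpow_ne_zero _ hX
    field_simp
  exact zpow_not_const (sub_ne_zero.2 (Ne.symm hb)) _ h1

/-- **Components are of general type or uniruled.** -/
theorem component {F : ι → MvPolynomial (Fin (n + 1)) k} {s N : ℕ} (hF : HighPowers s N F)
    (hN1 : 1 ≤ N) (hN : n * ((s + 1) * tn (s - 1)) ≤ N) {K : Type} [Field K] [Algebra k K] {w : ℕ}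
    (hw : 0 < w) {y : Fin (n + 1) → K} (hy : SubVar F K w y) (hcomp : IsComponent F y) :
    GeneralType k K w ∨ Uniruled k K := by
  by_cases hgt : GeneralType k K w
  · exact Or.inl hgt
  · right
    rcases hF with h | h
    · exact uni_waring h hN1 hN hw hy hcomp hgt
    · exact uni_sparse h hN hw hy hcomp hgt

end Pool.Agent.W602.GT
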