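import Pool.Agent.W602.GT.KPick
import Pool.Agent.W602.GT.KStm
import Pool.Agent.W602.GT.Uni

/-!
Diagonal actions on irreducible components.
-/

set_option autoImplicit false

open FF IntermediateField Pool.Agent.W603.LV

namespace Pool.Agent.W602.GT

variable {k : Type} [Field k] {n : ℕ} {ι : Type}

/-- the ideal of a component is homogeneous for the weights orthogonal to the circuits -/
theorem ideal_hom [IsAlgClosed k] {U : Set (Fin (n + 1))} {F : ι → MvPolynomial (Fin (n + 1)) k}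
    {K : Type} [Field K] [Algebra k K] {w : ℕ} {y : Fin (n + 1) → K} (hy : SubVarU U F K w y)
    (hcomp : IsComponentU U F y) {b : Fin (n + 1) → ℤ} (hb : ∀ e v, val y (wc b v (F e)) = 0)
    (G : MvPolynomial (Fin (n + 1)) k) (hG : IsForm G) (h0 : val y G = 0) (v : ℤ) :
    val y (wc b v G) = 0 := by
  have hX : (RatFunc.X : RatFunc K) ≠ 0 := RatFunc.X_ne_zero
  obtain ⟨i, hi⟩ := Function.ne_iff.1 hy.ne
  let y' : Fin (n + 1) → RatFunc K := fun j => RatFunc.X ^ b j * algebraMap K (RatFunc K) (y j)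
  have hne : ∀ j, y j ≠ 0 → y' j ≠ 0 := fun j hj =>
    mul_ne_zero (zpow_ne_zero _ hX) (by rw [Ne, map_eq_zero]; exact hj)
  have hyF : ∀ e, val y' (F e) = 0 := by
    intro e
    apply val_orbit (L := RatFunc K) (fun j => algebraMap K (RatFunc K) (y j)) b hX
    intro v
    have h1 := val_map (IsScalarTower.toAlgHom k K (RatFunc K)) (wc b v (F e)) y
    rw [hb e v, map_zero] at h1
    exact h1.symm
  have hspec : ∀ G : MvPolynomial (Fin (n + 1)) k, val y' G = 0 → ∀ v, val y (wc b v G) = 0 := by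
    intro G h1
    obtain ⟨M, R, hR1, hR2, hR3⟩ := orbit_poly (k := k) y b G
    refine hR3 (RatFunc.algebraMap_injective K ?_)
    rw [hR2, map_zero]
    change RatFunc.X ^ M * val y' G = 0
    rw [h1, mul_zero]
  have hspec' : ∀ G : MvPolynomial (Fin (n + 1)) k, val y' G = 0 → val y G = 0 := by
    intro G h1
    obtain ⟨M, R, hR1, hR2, -⟩ := orbit_poly (k := k) y b G
    have h2 : R = 0 := RatFunc.algebraMap_injective K (by
      rw [hR2, map_zero]
      change RatFunc.X ^ M * val y' G = 0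
      rw [h1, mul_zero])
    have h3 := hR1 1 one_ne_zero
    rw [h2, Polynomial.eval_zero] at h3
    have h4 : (fun j => (1 : K) ^ b j * y j) = y := by
      funext j
      rw [one_zpow, one_mul]
    rw [h4, one_pow, one_mul] at h3
    exact h3.symm
  apply hspec
  obtain ⟨H, hH, hHy, hcone⟩ := hcomp
  have h1 : val y' (H * G) = 0 := by
    refine val_of_cone (U := U) (fun h1 => hne i hi (congrFun h1 i)) (fun j hj => hne j (hy.unit j hj))
      hyF ?_
    intro x hx
    rw [val_mul]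
    by_cases h0' : val x H = 0
    · rw [h0', zero_mul]
    · rw [(hcone x hx h0').2 G hG h0, mul_zero]
  rw [val_mul] at h1
  exact (mul_eq_zero.1 h1).resolve_left fun h0 => hHy (hspec' H h0)

/-- homogeneous ideals give actions -/
theorem acts_of_hom {U : Set (Fin (n + 1))} {K : Type} [Field K] [Algebra k K]
    {y : Fin (n + 1) → K} {b : Fin (n + 1) → ℤ}
    (hH : ∀ G : MvPolynomial (Fin (n + 1)) k, IsForm G → val y G = 0 → ∀ v, val y (wc b v G) = 0) :
    Acts U k y b := by
  rintro t ht x ⟨⟨hx0, hx⟩, hxU⟩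
  refine ⟨⟨?_, fun G hG h0 => ?_⟩, fun j hj => mul_ne_zero (zpow_ne_zero _ ht) (hxU j hj)⟩
  · obtain ⟨i, hi⟩ := Function.ne_iff.1 hx0
    intro h0
    exact mul_ne_zero (zpow_ne_zero _ ht) hi (congrFun h0 i)
  · exact val_orbit (L := k) x b ht G fun v => hx _ (wc_form hG b v) (hH G hG h0 v)

theorem contracts_of_hom [Infinite k] {U : Set (Fin (n + 1))} {K : Type} [Field K] [Algebra k K]
    {y : Fin (n + 1) → K} {b : Fin (n + 1) → ℕ} (hb0 : ∀ j ∈ U, b j = 0)
    (hb1 : ∃ j, y j ≠ 0 ∧ b j = 0) (hb2 : ∃ j, y j ≠ 0 ∧ b j ≠ 0)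
    (hH : ∀ G : MvPolynomial (Fin (n + 1)) k, IsForm G → val y G = 0 →
      ∀ v, val y (wc (fun j => (b j : ℤ)) v G) = 0) : Contracts U k y b := by
  refine ⟨hb0, hb1, hb2, ?_⟩
  rintro t x ⟨⟨hx0, hx⟩, hxU⟩ ⟨j0, hj0, hxj0⟩
  have hact := acts_of_hom (U := U) hH
  refine ⟨⟨?_, fun G hG h0 => ?_⟩, fun j hj => ?_⟩
  · intro h0
    have h1 := congrFun h0 j0
    simp only [hj0, pow_zero, one_mul, Pi.zero_apply] at h1
    exact hxj0 h1
  · obtain ⟨Q, hQ, -⟩ := val_poly (fun j => Polynomial.C (x j) * Polynomial.X ^ b j) G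
    have hP : ∀ s : k, (fun j => (Polynomial.C (x j) * Polynomial.X ^ b j : Polynomial k).eval s) =
        fun j => s ^ b j * x j := by
      intro s
      funext j
      rw [Polynomial.eval_mul, Polynomial.eval_C, Polynomial.eval_pow, Polynomial.eval_X, mul_comm]
    have h1 : Q = 0 := poly_zero fun s hs => by
      rw [hQ, hP]
      have h2 := (hact s hs x ⟨⟨hx0, hx⟩, hxU⟩).1.2 G hG h0
      simpa only [zpow_natCast] using h2
    have h2 := hQ t
    rw [hP, h1, Polynomial.eval_zero] at h2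
    exact h2.symm
  · change t ^ b j * x j ≠ 0
    rw [hb0 j hj, pow_zero, one_mul]
    exact hxU j hj

/-- actions give homogeneous ideals -/
theorem hom_of_contracts [IsAlgClosed k] {U : Set (Fin (n + 1))} {K : Type} [Field K]
    [Algebra k K] {y : Fin (n + 1) → K} (hyU : ∀ j ∈ U, y j ≠ 0) {b : Fin (n + 1) → ℕ}
    (h : Contracts U k y b) (G : MvPolynomial (Fin (n + 1)) k) (hG : IsForm G) (h0 : val y G = 0)
    (v : ℤ) : val y (wc (fun j => (b j : ℤ)) v G) = 0 := by
  classical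
  have hinf : Infinite k := inferInstance
  obtain ⟨j0, hj0, hbj0⟩ := h.fixed
  by_contra hne
  let H : MvPolynomial (Fin (n + 1)) k := wc (fun j => (b j : ℤ)) v G * MvPolynomial.X j0 *
    ∏ j ∈ Finset.univ.filter (fun j => j ∈ U), MvPolynomial.X j
  have hH : MvPolynomial.aeval y H ≠ 0 := by
    simp only [H, map_mul, map_prod, MvPolynomial.aeval_X]
    refine mul_ne_zero (mul_ne_zero hne hj0) ?_
    exact Finset.prod_ne_zero_iff.2 fun j hj => hyU j (Finset.mem_filter.1 hj).2
  obtain ⟨x, hx, hx0⟩ := specialise y H hH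
  simp only [H, map_mul, map_prod, MvPolynomial.aeval_X] at hx
  have h1 := left_ne_zero_of_mul hx
  have h2 := right_ne_zero_of_mul hx
  have hxj0 : x j0 ≠ 0 := right_ne_zero_of_mul h1
  have hxP : x ∈ PtsU U k y := ⟨⟨fun h3 => hxj0 (congrFun h3 j0), fun G _ h3 => hx0 G h3⟩,
    fun j hj => Finset.prod_ne_zero_iff.1 h2 j (Finset.mem_filter.2 ⟨Finset.mem_univ _, hj⟩)⟩
  apply left_ne_zero_of_mul h1
  refine wc_of_orbit (fun t ht => ?_) v
  have h3 := (h.mem t x hxP ⟨j0, hbj0, hxj0⟩).1.2 G hG h0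
  simpa only [zpow_natCast] using h3

end Pool.Agent.W602.GT
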