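import Pool.Agent.W602.GT.PsOrb

/-!
Projective varieties given by sums of few high powers, or by few monomials with large exponents.
-/

set_option autoImplicit false

open FF

namespace Pool.Agent.W602.GT

variable {k : Type} [Field k] {n : ℕ} {ι : Type}

/-- The forms `F e` are sums of at most `s` powers of linear forms, with exponents at least `N`; or
the forms `F e` have at most `s` monomials, and for each `e` the exponents in `F e` are divisible
by some `N' ≥ N`. -/
def HighPowers (s N : ℕ) (F : ι → MvPolynomial (Fin (n + 1)) k) : Prop :=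
  (∀ e, IsPowSum s N (F e)) ∨ (∀ e, IsPowSparse ∅ s N (F e))

theorem HighPowers.form {s N : ℕ} {F : ι → MvPolynomial (Fin (n + 1)) k} (hF : HighPowers s N F)
    (e : ι) : IsForm (F e) := by
  rcases hF with h | h
  · exact isForm_of_powSum (h e)
  · exact (h e).1

/-- an orbit as a polynomial curve -/
theorem gm_of_diag [CharZero k] {F : ι → MvPolynomial (Fin (n + 1)) k} (hF : ∀ e, IsForm (F e))
    {x : Fin (n + 1) → k} {b : Fin (n + 1) → ℤ} (h : DiagCurve ∅ F x b) :
    ∃ P, GmCurve F P ∧ (fun i => (P i).eval 1) = x := by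
  classical
  obtain ⟨hX, i, i', hi, hi', hb⟩ := h
  obtain ⟨M, hM⟩ : ∃ M : ℕ, ∀ j, 0 ≤ b j + M := by
    refine ⟨∑ j, (b j).natAbs, fun j => ?_⟩
    have h1 := Finset.single_le_sum (f := fun j => (b j).natAbs)
      (fun _ _ => Nat.zero_le _) (Finset.mem_univ j)
    have h2 : (((b j).natAbs : ℕ) : ℤ) ≤ ((∑ j, (b j).natAbs : ℕ) : ℤ) := by
      exact_mod_cast h1
    have h3 := Int.le_natAbs (a := -(b j))
    rw [Int.natAbs_neg] at h3
    linarith
  let P : Fin (n + 1) → Polynomial k := fun j =>
    Polynomial.C (x j) * Polynomial.X ^ (b j + M).toNat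
  have hP : ∀ t : k, t ≠ 0 → (fun j => (P j).eval t) = fun j => t ^ M * (t ^ b j * x j) := by
    intro t ht
    funext j
    simp only [P, Polynomial.eval_mul, Polynomial.eval_C, Polynomial.eval_pow, Polynomial.eval_X]
    have h1 : t ^ (b j + M).toNat = t ^ (b j + M) := by
      conv_rhs => rw [← Int.toNat_of_nonneg (hM j)]
      rw [zpow_natCast]
    rw [h1, zpow_add₀ ht, zpow_natCast]
    ring
  refine ⟨P, ⟨fun t ht h0 => ?_, fun t ht e => ?_, 1, 2, one_ne_zero, two_ne_zero, ?_⟩, ?_⟩
  · rw [hP t ht] at h0
    have h1 := congrFun h0 i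
    exact mul_ne_zero (pow_ne_zero _ ht) (mul_ne_zero (zpow_ne_zero _ ht) hi) h1
  · rw [hP t ht]
    obtain ⟨d, hd⟩ := hF e
    rw [val_smul hd]
    have h1 := (hX t ht).2.2 e
    rw [h1, mul_zero]
  · rw [hP 1 one_ne_zero, hP 2 two_ne_zero, LinearIndependent.pair_iff]
    intro c c' hcc
    have e1 := congrFun hcc i
    have e2 := congrFun hcc i'
    simp only [one_pow, one_zpow, one_mul, Pi.add_apply, Pi.smul_apply, smul_eq_mul,
      Pi.zero_apply] at e1 e2
    have h2M : (2 : k) ^ M ≠ 0 := pow_ne_zero _ two_ne_zero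
    have f1 : c + c' * (2 ^ M * 2 ^ b i) = 0 := by
      have : x i * (c + c' * (2 ^ M * 2 ^ b i)) = 0 := by linear_combination e1
      exact (mul_eq_zero.1 this).resolve_left hi
    have f2 : c + c' * (2 ^ M * 2 ^ b i') = 0 := by
      have : x i' * (c + c' * (2 ^ M * 2 ^ b i')) = 0 := by linear_combination e2
      exact (mul_eq_zero.1 this).resolve_left hi'
    have f3 : c' * ((2 : k) ^ b i - 2 ^ b i') = 0 := by
      have : (2 : k) ^ M * (c' * ((2 : k) ^ b i - 2 ^ b i')) = 0 := by
        linear_combination f1 - f2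
      exact (mul_eq_zero.1 this).resolve_left h2M
    have f4 : (2 : k) ^ b i - 2 ^ b i' ≠ 0 := by
      intro h0
      have h1 : ((2 : ℚ) ^ b i : ℚ) = (2 : ℚ) ^ b i' := by
        have h2 : (((2 : ℚ) ^ b i : ℚ) : k) = (((2 : ℚ) ^ b i' : ℚ) : k) := by
          push_cast
          exact sub_eq_zero.1 h0
        exact_mod_cast h2
      exact hb (zpow_right_injective₀ (by norm_num) (by norm_num) h1)
    have f5 : c' = 0 := (mul_eq_zero.1 f3).resolve_right f4
    rw [f5, zero_mul, add_zero] at f1
    exact ⟨f1, f5⟩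
  · rw [hP 1 one_ne_zero]
    funext j
    simp

variable [CharZero k] [IsAlgClosed k]

/-- **Rational curves.** A subvariety which is not of general type is covered by the images of the
nonconstant morphisms from the multiplicative group to `X`. -/
theorem gm_through {F : ι → MvPolynomial (Fin (n + 1)) k} {s N : ℕ} (hF : HighPowers s N F)
    (hN1 : 1 ≤ N) (hN : n * ((s + 1) * tn (s - 1)) ≤ N) {K : Type} [Field K] [Algebra k K] {w : ℕ}
    (hw : 0 < w) {y : Fin (n + 1) → K} (hy : SubVar F K w y) (hgt : ¬ GeneralType k K w)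
    {G : MvPolynomial (Fin (n + 1)) k} (hGf : IsForm G) (hG : val y G ≠ 0) :
    ∃ P, GmCurve F P ∧ ∃ t : k, t ≠ 0 ∧ val (fun i => (P i).eval t) G ≠ 0 := by
  have hinf : Infinite k := inferInstance
  rcases hF with h | h
  · have hgen : Algebra.IsAlgebraic (coords k y) K := by
      rw [hy.gen]
      infer_instance
    obtain ⟨v, hv, hl⟩ := waring h hN1 hN hw hy.dim hy.ne hgen hy.mem hgt
    by_contra hcon
    push Not at hcon
    apply hG
    refine mem_closure y v hv hl ?_
    intro a b hab c c'
    have hGm : ∀ P, GmCurve F P → ∀ t : k, t ≠ 0 → val (fun i => (P i).eval t) G = 0 := hcon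
    by_cases hc : c = 0
    · by_cases hc' : c' = 0
      · rw [hc, hc']
        have h1 := val_zero_of hGf (line_key hGm hab)
        simpa using h1
      · have h1 := line_key hGm (line_move hab (-1) 0 1 c' (by simpa using hc'))
        have e : (-1 : k) • a + (0 : k) • b + ((1 : k) • a + c' • b) = c • a + c' • b := by
          rw [hc]
          funext i
          simp
        rwa [e] at h1
    · have h1 := line_key hGm (line_move hab 0 (-1) c (c' + 1) (by simpa using hc))
      have e : (0 : k) • a + (-1 : k) • b + (c • a + (c' + 1) • b) = c • a + c' • b := by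
        funext i
        simp
        ring
      rwa [e] at h1
  · have hy' : SubVarU ∅ F K w y := ⟨hy.ne, fun j hj => absurd hj (Set.notMem_empty j), hy.mem,
      hy.gen, hy.dim⟩
    have hgt' : ¬ LogGeneralType k K w (OffU ∅ y) := by
      intro h1
      apply hgt
      apply general_of_log
      have h2 : OffU ∅ y = fun _ : Place k K => False := by
        funext P
        simp [OffU]
      rwa [h2] at h1
    obtain ⟨x, b, hd, hx⟩ := closure_orbits h hN hw hy' hgt' hG
    obtain ⟨P, hP, hP1⟩ := gm_of_diag (fun e => (h e).1) hd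
    exact ⟨P, hP, 1, one_ne_zero, by rw [hP1]; exact hx⟩

/-- the image of a morphism from the multiplicative group gives a subvariety which is not of general
type -/
theorem sub_of_gm {F : ι → MvPolynomial (Fin (n + 1)) k} (hF : ∀ e, IsForm (F e))
    {P : Fin (n + 1) → Polynomial k} (hP : GmCurve F P) :
    ∃ (K : Type) (_ : Field K) (_ : Algebra k K) (y : Fin (n + 1) → K),
      SubVar F K 1 y ∧ ¬ GeneralType k K 1 := by
  by_contra hcon
  push Not at hcon
  have h1 : (fun i => (P i).eval 1) ∈ SpGm F := by
    refine ⟨⟨hP.ne 1 one_ne_zero, fun e => hP.mem 1 one_ne_zero e⟩, fun G hG h => ?_⟩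
    exact h P hP 1 one_ne_zero
  have hinf : Infinite k := inferInstance
  let y : Fin (n + 1) → RatFunc k := fun i => algebraMap (Polynomial k) (RatFunc k) (P i)
  have hinj : Function.Injective (algebraMap (Polynomial k) (RatFunc k)) :=
    RatFunc.algebraMap_injective k
  obtain ⟨j0, hj0⟩ : ∃ j0, P j0 ≠ 0 := by
    by_contra hcon
    push Not at hcon
    apply hP.ne 1 one_ne_zero
    funext i
    rw [hcon i]
    simp
  have hj0' : y j0 ≠ 0 := by
    intro h0
    exact hj0 (hinj (by rw [map_zero]; exact h0))
  have hmem : ∀ e, val y (F e) = 0 := by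
    intro e
    obtain ⟨R, hR1, hR2⟩ := val_poly P (F e)
    have h0 : R = 0 := poly_zero fun t ht => by rw [hR1]; exact hP.mem t ht e
    rw [← hR2, h0, map_zero]
  have hnc : coords k y ≠ ⊥ := by
    intro hbot
    obtain ⟨t1, t2, ht1, ht2, hli⟩ := hP.nonconst
    have hc : ∀ i, ∃ c : k, P i = Polynomial.C c * P j0 := by
      intro i
      have h1 : y i / y j0 ∈ coords k y :=
        IntermediateField.subset_adjoin k _ ⟨i, j0, hj0', rfl⟩
      rw [hbot, IntermediateField.mem_bot] at h1
      obtain ⟨c, hc⟩ := h1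
      refine ⟨c, hinj ?_⟩
      rw [map_mul]
      have h2 : algebraMap (Polynomial k) (RatFunc k) (Polynomial.C c) =
          algebraMap k (RatFunc k) c := by
        rw [IsScalarTower.algebraMap_apply k (Polynomial k) (RatFunc k)]
        rfl
      rw [h2, hc]
      change y i = y i / y j0 * y j0
      field_simp
    choose c hc using hc
    rw [LinearIndependent.pair_iff] at hli
    have h3 := hli ((P j0).eval t2) (-(P j0).eval t1) (by
      funext i
      simp only [Pi.add_apply, Pi.smul_apply, smul_eq_mul, Pi.zero_apply]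
      rw [hc i]
      simp
      ring)
    apply hP.ne t2 ht2
    funext i
    rw [hc i]
    simp [h3.1]
  obtain ⟨y', hs, hgt, -⟩ := rational_sub hF y hj0' hmem hnc
  exact hgt (hcon _ _ _ y' hs)

/-- every positive-dimensional closed subvariety is of general type -/
def AllGeneralType (F : ι → MvPolynomial (Fin (n + 1)) k) : Prop :=
  ∀ (K : Type) [Field K] [Algebra k K] (w : ℕ) (y : Fin (n + 1) → K), 1 ≤ w → SubVar F K w y →
    GeneralType k K w

/-- **Lang's criterion.** All subvarieties are of general type if and only if there are no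
nonconstant morphisms from the multiplicative group. -/
theorem all_iff {F : ι → MvPolynomial (Fin (n + 1)) k} {s N : ℕ} (hF : HighPowers s N F)
    (hN1 : 1 ≤ N) (hN : n * ((s + 1) * tn (s - 1)) ≤ N) :
    AllGeneralType F ↔ ∀ P, ¬ GmCurve F P := by
  constructor
  · intro h P hP
    obtain ⟨K, _, _, y, hy, hgt⟩ := sub_of_gm (fun e => hF.form e) hP
    exact hgt (h K 1 y le_rfl hy)
  · intro h K _ _ w y hw hy
    by_contra hgt
    have h1 : val y (1 : MvPolynomial (Fin (n + 1)) k) ≠ 0 := by
      unfold val
      rw [map_one]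
      exact one_ne_zero
    obtain ⟨P, hP, -⟩ := gm_through hF hN1 hN hw hy hgt
      ⟨0, MvPolynomial.isHomogeneous_one _ _⟩ h1
    exact h P hP

end Pool.Agent.W602.GT
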