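import Pool.Agent.W602.GT.Circ

/-!
Pluricanonical forms from circuits of elements whose orders jump.
-/

set_option autoImplicit false

open FF Pool.Agent.W603.LV

namespace Pool.Agent.W602.GT

variable {k K : Type} [Field k] [Field K] [Algebra k K]

/-- `0 + 1 + ... + (m - 1)` -/
def tn (m : ℕ) : ℕ := ∑ r : Fin m, (r : ℕ)

theorem tri_eq (m : ℕ) : tri m = (tn m : ℤ) := by
  unfold tri tn
  push_cast
  rfl

variable {w : ℕ} {m : Fin w → ℕ} (T : ∀ i, Fin (m i + 1) → K)

/-- the weight of the forms -/
def wt (m : Fin w → ℕ) : ℕ := ∑ i, (m i + 2) * tn (m i)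

/-- one factor -/
noncomputable def fac (E : Derivation k K K) {m : ℕ} (T : Fin (m + 1) → K) (c : Fin (m + 1)) : K :=
  eta E T ^ (m + 2) * (∏ j, T j) * T c

/-- the product of the factors -/
noncomputable def GG (E : Derivation k K K) (c : ∀ i, Fin (m i + 1)) : K := ∏ i, fac E (T i) (c i)

theorem fac_smul (δ : K) (D : Derivation k K K) {m : ℕ} (T : Fin (m + 1) → K) (c : Fin (m + 1)) :
    fac (δ • D) T c = δ ^ ((m + 2) * tn m) * fac D T c := by
  unfold fac
  rw [eta_smul, mul_pow, ← pow_mul, mul_comm (m + 2)]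
  unfold tn
  ring

theorem GG_smul (δ : K) (D : Derivation k K K) (c : ∀ i, Fin (m i + 1)) :
    GG T (δ • D) c = δ ^ (wt m) * GG T D c := by
  unfold GG wt
  simp only [fac_smul]
  rw [Finset.prod_mul_distrib, Finset.prod_pow_eq_pow_sum]

theorem ge_fac {P : Place k K} {E : Derivation k K K} {m : ℕ} {T : Fin (m + 1) → K}
    {b : Fin (m + 1)} (hb : ∀ j, P.ord (T b) ≤ P.ord (T j)) {ε : ℤ}
    (h : Ge P (- P.ord (T b) - ε * tri m) (eta E T)) (hT : ∀ j, T j ≠ 0) (c : Fin (m + 1)) :
    Ge P (∑ j, (P.ord (T j) - P.ord (T b)) - ε * ((m + 2) * tn m : ℕ)) (fac E T c) := by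
  unfold fac
  have h1 := ((h.pow (m + 2)).mul (ge_ord P (∏ j, T j))).mul (ge_ord P (T c))
  refine h1.mono ?_
  rw [ord_prod' P _ _ fun j _ => hT j, tri_eq, Finset.sum_sub_distrib]
  have h2 := hb c
  push_cast
  simp only [Finset.sum_const, Finset.card_univ, Fintype.card_fin, nsmul_eq_mul]
  push_cast
  nlinarith

theorem ge_GG {P : Place k K} {E : Derivation k K K} (hT : ∀ i j, T i j ≠ 0)
    {b : ∀ i, Fin (m i + 1)} (hb : ∀ i j, P.ord (T i (b i)) ≤ P.ord (T i j)) {ε : ℤ}
    (h : ∀ i, Ge P (- P.ord (T i (b i)) - ε * tri (m i)) (eta E (T i)))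
    (c : ∀ i, Fin (m i + 1)) :
    Ge P (∑ i, ∑ j, (P.ord (T i j) - P.ord (T i (b i))) - ε * wt m) (GG T E c) := by
  unfold GG
  have h1 := Ge.prod (P := P) Finset.univ (fun i => fac E (T i) (c i))
    (fun i => ∑ j, (P.ord (T i j) - P.ord (T i (b i))) - ε * ((m i + 2) * tn (m i) : ℕ))
    (fun i _ => ge_fac (hb i) (h i) (hT i) (c i))
  refine h1.mono ?_
  rw [Finset.sum_sub_distrib, ← Finset.mul_sum]
  unfold wt
  push_cast
  exact le_rfl

theorem ratio_const {m : ℕ} (hm : m ≤ 1) (T : Fin (m + 1) → K) (hT : ∀ j, T j ≠ 0)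
    (hsum : ∑ j, T j = 0) (a b : Fin (m + 1)) : ∃ c : k, T a / T b = algebraMap k K c := by
  interval_cases m
  · exfalso
    rw [Fin.sum_univ_one] at hsum
    exact hT 0 hsum
  · have h1 : T 1 = - T 0 := by
      rw [Fin.sum_univ_two] at hsum
      exact (neg_eq_of_add_eq_zero_right hsum).symm
    have h2 : ∀ j, T j = T 0 ∨ T j = - T 0 := by
      intro j
      fin_cases j
      · exact Or.inl rfl
      · exact Or.inr h1
    have h3 := hT 0
    rcases h2 a with ha | ha <;> rcases h2 b with hb | hb <;> rw [ha, hb]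
    · exact ⟨1, by rw [div_self h3, map_one]⟩
    · exact ⟨-1, by rw [div_neg, div_self h3, map_neg, map_one]⟩
    · exact ⟨-1, by rw [neg_div, div_self h3, map_neg, map_one]⟩
    · exact ⟨1, by rw [neg_div_neg_eq, div_self h3, map_one]⟩

/-- the pluricanonical form `g (dx_1 ∧ ... ∧ dx_w) ^ N` -/
noncomputable def form {w : ℕ} (x : Fin w → K) (N : ℕ) (g : K) (D : Fin w → Derivation k K K) : K :=
  g * (Matrix.of fun i j => D i (x j)).det ^ N

theorem form_pluri {w : ℕ} (x : Fin w → K) (N : ℕ) (g : K) : IsPluri (k := k) N (form x N g) := by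
  intro A D
  unfold form
  have h : (Matrix.of fun i j => (∑ l, A i l • D l) (x j)) = A * Matrix.of fun i j => D i (x j) := by
    ext i j
    rw [Matrix.mul_apply]
    change (∑ l, A i l • D l) (x j) = ∑ l, A i l * D l (x j)
    have h0 : ∀ (s : Finset (Fin w)) (c : Fin w → K), (∑ i ∈ s, c i • D i) (x j)
        = ∑ i ∈ s, c i * D i (x j) := by
      intro s c
      classical
      induction s using Finset.induction_on with
      | empty => simp
      | insert i s hi ih =>
        rw [Finset.sum_insert hi, Finset.sum_insert hi, Derivation.add_apply, ih]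
        rfl
    exact h0 _ _
  rw [h, Matrix.det_mul, mul_pow]
  ring

/-- **Pluricanonical forms.** Let `T i` be circuits over `k`, and `t i` ratios of two members of
`T i` which form a transcendence basis of `K`. Then there are pluricanonical forms of weight
`wt m` with ratios `t i`, with logarithmic poles only, and regular at all places where the orders
of two members of one circuit are equal or differ by at least `wt m`. -/
theorem core [IsAlgClosed k] [CharZero k] (hw : 0 < w) (hT : ∀ i j, T i j ≠ 0)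
    (hsum : ∀ i, ∑ j, T i j = 0)
    (hlin : ∀ i, LinearIndependent k (fun l => T i ((Fin.last (m i)).succAbove l)))
    (a b : ∀ i, Fin (m i + 1)) (t : Fin w → K) (ht : ∀ i, t i = T i (a i) / T i (b i))
    (hbasis : IsTranscendenceBasis k t) :
    0 < wt m ∧ ∃ g : Fin (w + 1) → K, g 0 ≠ 0 ∧ (∀ i : Fin w, g i.succ / g 0 = t i) ∧
      ∀ P : Place k K, (∀ j, LogAt P (form t (wt m) (g j))) ∧
        ((∀ i j l, P.ord (T i j) = P.ord (T i l) ∨ (wt m : ℤ) ≤ |P.ord (T i j) - P.ord (T i l)|) →
          ∀ j, RegAt P (form t (wt m) (g j))) := by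
  classical
  obtain ⟨lam, hlam⟩ := exists_lam k w
  obtain ⟨D0, hD0⟩ := exists_der t hbasis (fun j => algebraMap k K (lam j) * t j)
  have ht0 : ∀ j, t j ≠ 0 := fun j => by
    rw [ht]
    exact div_ne_zero (hT _ _) (hT _ _)
  have hconst : ∀ h, D0 h = 0 → ∃ c : k, h = algebraMap k K c := fun h hh =>
    const_of_der t hbasis lam hlam D0 hD0 hh
  have heta0 : ∀ i, eta D0 (T i) ≠ 0 := fun i =>
    div_ne_zero (wr_ne hconst _ (hlin i)) (Finset.prod_ne_zero_iff.2 fun j _ => hT i j)
  have hfac0 : ∀ i c, fac D0 (T i) c ≠ 0 := fun i c =>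
    mul_ne_zero (mul_ne_zero (pow_ne_zero _ (heta0 i))
      (Finset.prod_ne_zero_iff.2 fun j _ => hT i j)) (hT i c)
  have hGG0 : ∀ c, GG T D0 c ≠ 0 := fun c => Finset.prod_ne_zero_iff.2 fun i _ => hfac0 i _
  have hpt : (∏ j, t j) ≠ 0 := Finset.prod_ne_zero_iff.2 fun j _ => ht0 j
  set N := wt m with hN
  have hpos : 0 < N := by
    rw [Nat.pos_iff_ne_zero]
    intro h0
    rw [hN, wt, Finset.sum_eq_zero_iff] at h0
    have h1 := h0 ⟨0, hw⟩ (Finset.mem_univ _)
    have h2 : tn (m ⟨0, hw⟩) = 0 := by
      rcases Nat.mul_eq_zero.1 h1 with h | h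
      · omega
      · exact h
    have h3 : m ⟨0, hw⟩ ≤ 1 := by
      by_contra hcon
      rw [tn, Finset.sum_eq_zero_iff] at h2
      have := h2 ⟨1, by omega⟩ (Finset.mem_univ _)
      simp at this
    obtain ⟨c, hc⟩ := ratio_const (k := k) h3 (T ⟨0, hw⟩) (hT _) (hsum _) (a ⟨0, hw⟩) (b ⟨0, hw⟩)
    rw [← ht] at hc
    have h4 := hbasis.1.transcendental ⟨0, hw⟩
    rw [hc] at h4
    exact h4 (isAlgebraic_algebraMap c)
  let cc : Fin (w + 1) → ∀ i, Fin (m i + 1) :=
    Fin.cases b fun i => Function.update b i (a i)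
  refine ⟨hpos, fun j => GG T D0 (cc j) / (∏ j, t j) ^ N, div_ne_zero (hGG0 _) (pow_ne_zero _ hpt),
    ?_, ?_⟩
  · intro i
    have h1 : GG T D0 (cc i.succ) = GG T D0 (cc 0) * t i := by
      change GG T D0 (Function.update b i (a i)) = GG T D0 b * t i
      unfold GG
      rw [← Finset.mul_prod_erase Finset.univ _ (Finset.mem_univ i),
        ← Finset.mul_prod_erase Finset.univ (fun i => fac D0 (T i) (b i)) (Finset.mem_univ i)]
      have h2 : ∏ x ∈ Finset.univ.erase i, fac D0 (T x) (Function.update b i (a i) x)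
          = ∏ x ∈ Finset.univ.erase i, fac D0 (T x) (b x) := by
        refine Finset.prod_congr rfl fun x hx => ?_
        rw [Function.update_of_ne (Finset.ne_of_mem_erase hx)]
      rw [h2, Function.update_self, ht i]
      unfold fac
      have := hT i (b i)
      field_simp
    change GG T D0 (cc i.succ) / (∏ j, t j) ^ N / (GG T D0 (cc 0) / (∏ j, t j) ^ N) = t i
    rw [h1]
    have h3 := hGG0 (cc 0)
    field_simp
  · intro P
    -- a member of minimal order in each circuit
    have hmin : ∀ i, ∃ b' : Fin (m i + 1), ∀ j, P.ord (T i b') ≤ P.ord (T i j) := fun i =>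
      Finite.exists_min _
    choose b' hb' using hmin
    have hkey : ∀ (D : Fin w → Derivation k K K) (c : ∀ i, Fin (m i + 1)),
        GG T D0 c / (∏ j, t j) ^ N * (Matrix.of fun i j => D i (t j)).det ^ N
          = GG T (con t lam D) c := by
      intro D c
      have h1 : con t lam D = (lmat t D).det • D0 := by
        apply der_ext t hbasis
        intro l
        rw [con_t t lam D ht0 l, Derivation.coe_smul, Pi.smul_apply, hD0, smul_eq_mul]
        ring
      have h2 : (Matrix.of fun i j => D i (t j)).det = (∏ j, t j) * (lmat t D).det := by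
        rw [← Matrix.det_mul_row]
        congr 1
        ext i j
        simp only [Matrix.of_apply, lmat]
        have := ht0 j
        field_simp
      rw [h1, GG_smul, h2, mul_pow, ← hN]
      field_simp
    refine ⟨fun j D hD => ?_, fun hP j D hD => ?_⟩
    · unfold form
      rw [hkey, reg_iff_ge]
      have h1 := ge_GG T (E := con t lam D) hT hb' (ε := 0) (fun i => by
        have hE : ∀ x : K, x ≠ 0 → Ge P (-0) (con t lam D x / x) := fun x hx => by
          rw [neg_zero]
          exact con_log t lam D hD x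
        exact eta_log hE (hT i) (hsum i) (b' i)) (cc j)
      refine h1.mono ?_
      rw [zero_mul, sub_zero]
      exact Finset.sum_nonneg fun i _ => Finset.sum_nonneg fun j _ => sub_nonneg.2 (hb' i j)
    · unfold form
      rw [hkey, reg_iff_ge]
      by_cases hall : ∀ i j, P.ord (T i j) = P.ord (T i (b' i))
      · have ht0' : ∀ j, P.ord (t j) = 0 := by
          intro j
          rw [ht, P.ord_div (hT _ _) (hT _ _), hall, hall j (b j), sub_self]
        have hE := con_reg t lam D hD ht0 ht0'
        have h1 := ge_GG T (E := con t lam D) hT hb' (ε := 0) (fun i => by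
          rw [zero_mul, sub_zero]
          exact eta_reg hE (hT i) (hsum i) (b' i) (hall i)) (cc j)
        refine h1.mono ?_
        rw [zero_mul, sub_zero]
        exact Finset.sum_nonneg fun i _ => Finset.sum_nonneg fun j _ => sub_nonneg.2 (hb' i j)
      · push Not at hall
        obtain ⟨i0, j0, hij⟩ := hall
        have h1 := ge_GG T (E := con t lam D) hT hb' (ε := 1) (fun i => by
          have hE : ∀ x : K, x ≠ 0 → Ge P (-1) (con t lam D x / x) := fun x hx =>
            con_pole t lam D hD ht0 hx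
          exact eta_log hE (hT i) (hsum i) (b' i)) (cc j)
        refine h1.mono ?_
        rw [one_mul]
        have h2 := (hP i0 j0 (b' i0)).resolve_left hij
        rw [abs_of_nonneg (sub_nonneg.2 (hb' i0 j0))] at h2
        have h3 : P.ord (T i0 j0) - P.ord (T i0 (b' i0))
            ≤ ∑ i, ∑ j, (P.ord (T i j) - P.ord (T i (b' i))) := by
          refine le_trans ?_ (Finset.single_le_sum
            (f := fun i => ∑ j, (P.ord (T i j) - P.ord (T i (b' i))))
            (fun i _ => Finset.sum_nonneg fun j _ => sub_nonneg.2 (hb' i j)) (Finset.mem_univ i0))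
          exact Finset.single_le_sum (f := fun j => P.ord (T i0 j) - P.ord (T i0 (b' i0)))
            (fun j _ => sub_nonneg.2 (hb' i0 j)) (Finset.mem_univ j0)
        linarith

end Pool.Agent.W602.GT
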