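import Pool.Agent.W602.GT.Cls
import Pool.Agent.W602.GT.PsFin
import Pool.Agent.H159R3.War.Main

/-!
Lang's conjecture on hyperbolicity and general type for sums of few high powers and few monomials.
-/

set_option autoImplicit false

open FF IntermediateField

namespace Pool.Agent.W602.GT

open Pool.Agent.H159R3

variable {n : ℕ} {ι : Type}

theorem ind_of_ne {m : ℕ} {a b : Fin m → ℂ} (hb : b ≠ 0) (h : ∀ c : ℂ, a ≠ c • b) :
    LinearIndependent ℂ ![a, b] := by
  rw [LinearIndependent.pair_iff]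
  intro s t hst
  have hs : s = 0 := by
    by_contra hs
    apply h (-(t / s))
    have h1 : s • a = -(t • b) := eq_neg_of_add_eq_zero_left hst
    have h2 : a = s⁻¹ • (s • a) := by rw [smul_smul, inv_mul_cancel₀ hs, one_smul]
    rw [h2, h1, smul_neg, smul_smul, neg_smul, div_eq_inv_mul]
  rw [hs, zero_smul, zero_add] at hst
  exact ⟨hs, (smul_eq_zero.1 hst).resolve_right hb⟩

/-- the exponential map gives an entire curve -/
theorem entire_of_gm {F : ι → MvPolynomial (Fin (n + 1)) ℂ} {P : Fin (n + 1) → Polynomial ℂ}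
    (hP : GmCurve F P) : GGL.EntireCurve F (fun z i => (P i).eval (Complex.exp z)) := by
  refine ⟨?_, fun z => ⟨hP.ne _ (Complex.exp_ne_zero z), fun i => ?_⟩, ?_⟩
  · rw [differentiable_pi]
    intro i
    exact (P i).differentiable.comp Complex.differentiable_exp
  · rw [← val_eval]
    exact hP.mem _ (Complex.exp_ne_zero z) i
  · obtain ⟨t, t', ht, ht', hli⟩ := hP.nonconst
    refine ⟨Complex.log t, Complex.log t', fun c hc => ?_⟩
    beta_reduce at hc
    rw [Complex.exp_log ht, Complex.exp_log ht'] at hc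
    rw [LinearIndependent.pair_iff] at hli
    have h1 := hli 1 (-c) (by rw [hc]; simp)
    exact one_ne_zero h1.1

/-- a line is the closure of the image of the multiplicative group -/
theorem gm_of_line {k : Type} [Field k] [CharZero k] {F : ι → MvPolynomial (Fin (n + 1)) k}
    {a b : Fin (n + 1) → k} (h : LinearIndependent k ![a, b])
    (hl : ∀ e (t : k), val ((1 : k) • a + t • b) (F e) = 0) : ∃ P, GmCurve F P := by
  have hP : ∀ t : k, (fun i => (Polynomial.C (a i) + Polynomial.C (b i) * Polynomial.X :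
      Polynomial k).eval t) = (1 : k) • a + t • b := by
    intro t
    funext i
    simp only [Polynomial.eval_add, Polynomial.eval_mul, Polynomial.eval_C, Polynomial.eval_X,
      Pi.add_apply, Pi.smul_apply, smul_eq_mul, one_mul, mul_comm t]
  have hli := LinearIndependent.pair_iff.1 h
  refine ⟨fun i => Polynomial.C (a i) + Polynomial.C (b i) * Polynomial.X,
    ⟨fun t _ h0 => ?_, fun t _ e => ?_, 1, 2, one_ne_zero, two_ne_zero, ?_⟩⟩
  · rw [hP t] at h0
    exact one_ne_zero (hli 1 t h0).1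
  · rw [hP t]
    exact hl e t
  · rw [hP 1, hP 2, LinearIndependent.pair_iff]
    intro c c' hcc
    have h1 := hli (c + c') (c + 2 * c') (by
      rw [← hcc]
      funext i
      simp
      ring)
    have h2 : c' = 0 := by linear_combination h1.2 - h1.1
    refine ⟨?_, h2⟩
    have h3 := h1.1
    rwa [h2, add_zero] at h3

theorem sq_le_of {s N : ℕ} (hn : n ≠ 0) (hN1 : 1 ≤ N)
    (hN : n * ((s + 1) * ((s - 1) * (s - 2) / 2)) ≤ N) : (s - 1) ^ 2 ≤ N := by
  rcases Nat.lt_or_ge s 3 with h | h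
  · have h1 : s - 1 ≤ 1 := by omega
    calc (s - 1) ^ 2 ≤ 1 ^ 2 := Nat.pow_le_pow_left h1 2
      _ ≤ N := by simpa using hN1
  · obtain ⟨m, rfl⟩ : ∃ m, s = m + 3 := ⟨s - 3, by omega⟩
    refine le_trans ?_ hN
    have h1 : 1 ≤ n := Nat.one_le_iff_ne_zero.2 hn
    have e1 : m + 3 - 1 = m + 2 := by omega
    have e2 : m + 3 - 2 = m + 1 := by omega
    rw [e1, e2]
    have hev : 2 ∣ (m + 2) * (m + 1) := by
      rw [mul_comm]
      exact (Nat.even_mul_succ_self (m + 1)).two_dvd
    obtain ⟨q, hq⟩ := hev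
    rw [hq, Nat.mul_div_cancel_left _ (by norm_num)]
    have h2 : (m + 2) ^ 2 ≤ (m + 3 + 1) * q := by
      have h3 : 2 * (m + 2) ^ 2 ≤ 2 * ((m + 3 + 1) * q) := by
        have : 2 * ((m + 3 + 1) * q) = (m + 4) * ((m + 2) * (m + 1)) := by
          rw [hq]
          ring
        rw [this]
        nlinarith [Nat.zero_le m, Nat.zero_le (m * m), Nat.zero_le (m * m * m)]
      exact Nat.le_of_mul_le_mul_left h3 (by norm_num)
    calc (m + 2) ^ 2 ≤ (m + 3 + 1) * q := h2
      _ = 1 * ((m + 3 + 1) * q) := (one_mul _).symm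
      _ ≤ n * ((m + 3 + 1) * q) := Nat.mul_le_mul_right _ h1

/-- an entire curve gives an image of the multiplicative group -/
theorem gm_of_entire {F : ι → MvPolynomial (Fin (n + 1)) ℂ} {s N : ℕ} (hF : HighPowers s N F)
    (hN1 : 1 ≤ N) (hN : n * ((s + 1) * ((s - 1) * (s - 2) / 2)) ≤ N) {f : ℂ → Fin (n + 1) → ℂ}
    (hf : GGL.EntireCurve F f) : ∃ P, GmCurve F P := by
  have hn : n ≠ 0 := by
    rintro rfl
    obtain ⟨-, hX, z, w, h⟩ := hf
    have h1 := (hX w).1
    have h2 : f w 0 ≠ 0 := by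
      intro h0
      apply h1
      funext i
      fin_cases i
      exact h0
    apply h (f z 0 / f w 0)
    funext i
    fin_cases i
    exact (div_mul_cancel₀ _ h2).symm
  have hsq := sq_le_of hn hN1 hN
  rcases hF with h | h
  · have hS : ∀ e, War.SmallWaring (F e) := by
      intro e
      obtain ⟨r, d, l, hr, hd, he⟩ := h e
      refine ⟨d, r, l, lt_of_lt_of_le hN1 hd, ?_, he⟩
      refine le_trans ?_ (le_trans hsq hd)
      exact Nat.pow_le_pow_left (by omega) 2
    obtain ⟨q, hq, hl⟩ := War.curve_on_line F hS hf 0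
    refine gm_of_line hq (fun e t => ?_)
    rw [val_eval]
    exact hl e 1 t
  · have hC : ∀ e, GGLLog.PowerSparse ∅ (F e) := by
      intro e
      obtain ⟨-, hc, N', hN', hd⟩ := h e
      refine ⟨N', lt_of_lt_of_le hN1 hN', ?_, hd⟩
      refine le_trans ?_ (le_trans hsq hN')
      exact Nat.pow_le_pow_left (by omega) 2
    have hf' : GGLLog.EntireCurve ∅ F f := by
      refine ⟨hf.1, fun z => ⟨(hf.2.1 z).1, fun j hj => absurd hj (Set.notMem_empty j),
        (hf.2.1 z).2⟩, hf.2.2⟩
    obtain ⟨z0, b, j, l, hj, hl, hbjl, -, hs⟩ := GGLLog.curve ∅ F hC f hf' 1 0 (by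
      rw [map_one]
      exact one_ne_zero)
    have hd : DiagCurve ∅ F (f z0) b := diag_of_wc (fun j hj => absurd hj (Set.notMem_empty j))
      (fun e w => by
        rw [wc_eq]
        exact hs e w) ⟨j, l, hj, hl, hbjl⟩
    obtain ⟨P, hP, -⟩ := gm_of_diag (fun e => (h e).1) hd
    exact ⟨P, hP⟩

/-- **Lang's conjecture** for sums of few high powers, and for few monomials. -/
theorem lang_iff {F : ι → MvPolynomial (Fin (n + 1)) ℂ} {s N : ℕ} (hF : HighPowers s N F)
    (hN1 : 1 ≤ N) (hN : n * ((s + 1) * ((s - 1) * (s - 2) / 2)) ≤ N) :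
    [∀ f, ¬ GGL.EntireCurve F f, AllGeneralType F, ∀ P, ¬ GmCurve F P].TFAE := by
  have h : tn (s - 1) = (s - 1) * (s - 2) / 2 := by
    unfold tn
    rw [Fin.sum_univ_eq_sum_range (fun i => i), Finset.sum_range_id, Nat.sub_sub]
  have hN' : n * ((s + 1) * tn (s - 1)) ≤ N := by rw [h]; exact hN
  tfae_have 2 ↔ 3 := all_iff hF hN1 hN'
  tfae_have 1 → 3 := fun h1 P hP => h1 _ (entire_of_gm hP)
  tfae_have 3 → 1 := by
    intro h1 f hf
    obtain ⟨P, hP⟩ := gm_of_entire hF hN1 hN hf
    exact h1 P hP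
  tfae_finish

end Pool.Agent.W602.GT
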