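import Pool.Agent.W602.GT.Core
import Pool.Agent.W603.LV.Blk

/-!
The dichotomy for systems of unit equations with large jumps of the orders.
-/

set_option autoImplicit false

open FF Pool.Agent.W603.LV

namespace Pool.Agent.W602.GT

/-- a circuit of the family `g` -/
structure CD (k : Type) {K J : Type} [Field k] [Field K] [Algebra k K] (g : J → K) where
  m : ℕ
  e : Fin (m + 1) → J
  he : Function.Injective e
  c : Fin (m + 1) → k
  hc : ∀ i, c i ≠ 0
  rel : ∑ i, c i • g (e i) = 0
  lin : LinearIndependent k (fun l => c ((Fin.last m).succAbove l) • g (e ((Fin.last m).succAbove l)))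

variable {k K : Type} [Field k] [Field K] [Algebra k K]

theorem tn_mono {m s : ℕ} (h : m ≤ s) : tn m ≤ tn s := by
  apply monotone_nat_of_le_succ (f := tn) (fun n => ?_) h
  unfold tn
  rw [Fin.sum_univ_castSucc]
  simp

theorem ord_smul' (P : Place k K) {c : k} (hc : c ≠ 0) (f : K) : P.ord (c • f) = P.ord f := by
  by_cases hf : f = 0
  · rw [hf, smul_zero]
  rw [Algebra.smul_def, P.ord_mul (by rw [Ne, map_eq_zero]; exact hc) hf, P.ord_const hc, zero_add]

/-- ratios of the members of circuits -/
def ratios (k : Type) {K Ε : Type} [Field k] [Field K] [Algebra k K] {J : Ε → Type}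
    (g : ∀ e, J e → K) : Set K :=
  {x | ∃ (e : Ε) (C : CD k (g e)) (a b : Fin (C.m + 1)),
    x = (C.c a • g e (C.e a)) / (C.c b • g e (C.e b))}

/-- a nonzero derivation over an intermediate field -/
theorem exists_der_over [CharZero k] (S : Set K)
    (h : ¬ Algebra.IsAlgebraic (IntermediateField.adjoin k S) K) :
    ∃ D : Derivation k K K, D ≠ 0 ∧ ∀ s ∈ S, D s = 0 := by
  set L := IntermediateField.adjoin k S with hL
  have hchar : CharZero L := charZero_of_injective_algebraMap (algebraMap k L).injective
  obtain ⟨s, hs⟩ := exists_isTranscendenceBasis L K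
  have hne : Nonempty s := by
    rw [← not_isEmpty_iff, hs.isEmpty_iff_isAlgebraic]
    exact h
  obtain ⟨x⟩ := hne
  obtain ⟨D, hD⟩ := exists_der (fun x : s => (x : K)) hs (fun _ => 1)
  refine ⟨D.restrictScalars k, fun h0 => ?_, fun y hy => ?_⟩
  · have h1 : (D.restrictScalars k) (x : K) = 1 := hD x
    rw [h0] at h1
    simp at h1
  · have h1 : y = algebraMap L K ⟨y, IntermediateField.subset_adjoin k S hy⟩ := rfl
    change D y = 0
    rw [h1]
    exact D.map_algebraMap _

open IntermediateField.algebraAdjoinAdjoin in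
theorem alg_adjoin {S : Set K} (h : Algebra.IsAlgebraic (IntermediateField.adjoin k S) K) :
    Algebra.IsAlgebraic (Algebra.adjoin k S) K :=
  (IsFractionRing.comap_isAlgebraic_iff (A := Algebra.adjoin k S)
    (K := IntermediateField.adjoin k S) (C := K)).2 h

theorem dich [IsAlgClosed k] [CharZero k] {w : ℕ} (hw : 0 < w) (x0 : Fin w → K)
    (hx0 : IsTranscendenceBasis k x0) {Ε : Type} {J : Ε → Type} [∀ e, Fintype (J e)]
    (g : ∀ e, J e → K) (hg : ∀ e j, g e j ≠ 0) (hsum : ∀ e, ∑ j, g e j = 0) {s : ℕ}
    (hs : ∀ e, Fintype.card (J e) ≤ s) :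
    (∃ N : ℕ, 0 < N ∧ N ≤ w * ((s + 1) * tn (s - 1)) ∧ ∃ t : Fin w → K, IsTranscendenceBasis k t ∧
      ∃ g' : Fin (w + 1) → K, g' 0 ≠ 0 ∧ (∀ i : Fin w, g' i.succ / g' 0 = t i) ∧
        ∀ P : Place k K, (∀ j, LogAt P (form t N (g' j))) ∧
          ((∀ e i j, P.ord (g e i) = P.ord (g e j) ∨ (N : ℤ) ≤ |P.ord (g e i) - P.ord (g e j)|) →
            ∀ j, RegAt P (form t N (g' j)))) ∨
    ∃ D : Derivation k K K, D ≠ 0 ∧ ∀ e, ∃ R : J e → J e → Prop, Equivalence R ∧
      (∀ i j, R i j → D (g e i) * g e j = g e i * D (g e j)) ∧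
      ∀ (j0 : J e) (A : Finset (J e)), (∀ j, j ∈ A ↔ R j0 j) → ∑ j ∈ A, g e j = 0 := by
  classical
  by_cases halg : Algebra.IsAlgebraic (IntermediateField.adjoin k (ratios k g)) K
  · left
    have halg' := alg_adjoin halg
    obtain ⟨B, hB, hBb⟩ := exists_isTranscendenceBasis_subset (R := k) (A := K) (ratios k g)
    have hcard := hx0.lift_cardinalMk_eq hBb
    rw [Cardinal.mk_fin] at hcard
    obtain ⟨φ⟩ : Nonempty (Fin w ≃ B) := by
      rw [← Cardinal.eq, Cardinal.mk_fin]
      have := hcard
      simpa using this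
    set t : Fin w → K := fun i => (φ i : K) with ht
    have htb : IsTranscendenceBasis k t := hBb.comp_equiv φ
    have hmem : ∀ i, t i ∈ ratios k g := fun i => hB (φ i).2
    choose e C a b hab using hmem
    set T : ∀ i, Fin ((C i).m + 1) → K := fun i l => (C i).c l • g (e i) ((C i).e l) with hT
    have hTne : ∀ i l, T i l ≠ 0 := fun i l => smul_ne_zero ((C i).hc l) (hg _ _)
    obtain ⟨hpos, g', h0, h1, h2⟩ := core (m := fun i => (C i).m) T hw hTne
      (fun i => (C i).rel) (fun i => (C i).lin) a b t hab htb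
    refine ⟨_, hpos, ?_, t, htb, g', h0, h1, fun P => ⟨(h2 P).1, fun hP => (h2 P).2 ?_⟩⟩
    · unfold wt
      calc ∑ i, ((C i).m + 2) * tn (C i).m ≤ ∑ _i : Fin w, (s + 1) * tn (s - 1) := by
            refine Finset.sum_le_sum fun i _ => ?_
            have h3 : (C i).m + 1 ≤ s := by
              have := Fintype.card_le_of_injective _ (C i).he
              simp only [Fintype.card_fin] at this
              exact this.trans (hs _)
            exact Nat.mul_le_mul (by omega) (tn_mono (by omega))
        _ = w * ((s + 1) * tn (s - 1)) := by simp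
    · intro i j l
      simp only [hT]
      rw [ord_smul' P ((C i).hc j), ord_smul' P ((C i).hc l)]
      exact hP _ _ _
  · right
    obtain ⟨D, hD0, hD⟩ := exists_der_over (ratios k g) halg
    refine ⟨D, hD0, fun e => ?_⟩
    let R0 : J e → J e → Prop := fun i j => ∃ (C : CD k (g e)) (a b : Fin (C.m + 1)),
      C.e a = i ∧ C.e b = j
    have hR0 : ∀ i j, R0 i j → D (g e i) * g e j = g e i * D (g e j) := by
      rintro _ _ ⟨C, a, b, rfl, rfl⟩
      have h1 := hD _ ⟨e, C, a, b, rfl⟩
      have hca : algebraMap k K (C.c a) ≠ 0 := by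
        rw [Ne, map_eq_zero]; exact C.hc a
      have hcb : algebraMap k K (C.c b) ≠ 0 := by
        rw [Ne, map_eq_zero]; exact C.hc b
      have hga := hg e (C.e a)
      have hgb := hg e (C.e b)
      rw [Algebra.smul_def, Algebra.smul_def, div_eq_mul_inv, D.leibniz, D.leibniz_inv, D.leibniz,
        D.leibniz, D.map_algebraMap, D.map_algebraMap] at h1
      simp only [smul_eq_mul, mul_zero, add_zero] at h1
      field_simp at h1
      rw [mul_zero] at h1
      have h2 := (mul_eq_zero.1 h1).resolve_left hca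
      linear_combination h2
    refine ⟨Relation.EqvGen R0, Relation.EqvGen.is_equivalence R0, ?_, ?_⟩
    · intro i j hij
      induction hij with
      | rel i j h => exact hR0 i j h
      | refl i => exact mul_comm _ _
      | symm i j _ ih => linear_combination -ih
      | trans i j l _ _ ih1 ih2 =>
        have hj := hg e j
        apply mul_right_cancel₀ hj
        linear_combination (g e l) * ih1 + (g e i) * ih2
    · intro j0 A hA
      have key := class_sum (k := k) (g e) (Relation.EqvGen R0) (Relation.EqvGen.is_equivalence R0)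
        (by
          intro m em hem c hc hrel hlin i j
          exact Relation.EqvGen.rel _ _ ⟨⟨m, em, hem, c, hc, hrel, hlin⟩, i, j, rfl, rfl⟩)
        (Finset.univ.filter fun j => (fun _ : J e => (1 : k)) j ≠ 0).card (fun _ => 1) le_rfl
        (by simpa using hsum e) j0
      simp only [one_smul] at key
      rw [← key]
      exact Finset.sum_congr (by ext j; simp [hA]) (fun _ _ => rfl)

end Pool.Agent.W602.GT
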