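import Pool.Agent.W602.GT.Cx
import Pool.Agent.W603.CX.WarAll
import Pool.Agent.W603.CX.Groupless

/-!
Algebraic hyperbolicity, boundedness, grouplessness and general type of all subvarieties.
-/

set_option autoImplicit false

open FF IntermediateField

namespace Pool.Agent.W602.GT

open Pool.Agent.W603.CX

variable {k : Type} [Field k] {n : ℕ} {ι : Type}

theorem val_eval' (x : Fin (n + 1) → k) (G : MvPolynomial (Fin (n + 1)) k) :
    val x G = MvPolynomial.eval x G := by
  unfold val
  rw [MvPolynomial.aeval_def, MvPolynomial.eval₂_eq', MvPolynomial.eval_eq']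
  rfl

variable [CharZero k] [IsAlgClosed k]

/-- A subvariety which is not of general type yields a line. -/
theorem line_of_not {F : ι → MvPolynomial (Fin (n + 1)) k} {s N : ℕ}
    (hF : ∀ e, IsPowSum s N (F e)) (hN1 : 1 ≤ N) (hN : n * ((s + 1) * tn (s - 1)) ≤ N)
    {K : Type} [Field K] [Algebra k K] {w : ℕ} (hw : 0 < w) {y : Fin (n + 1) → K}
    (hy : SubVar F K w y) (hgt : ¬ GeneralType k K w) : ∃ a b, Line F a b := by
  have hgen : Algebra.IsAlgebraic (coords k y) K := by
    rw [hy.gen]
    infer_instance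
  obtain ⟨v, hv, hl⟩ := waring hF hN1 hN hw hy.dim hy.ne hgen hy.mem hgt
  by_contra hcon
  push Not at hcon
  have h1 : val y (1 : MvPolynomial (Fin (n + 1)) k) = 0 :=
    mem_closure y v hv hl fun a b hab _ _ => absurd hab (hcon a b)
  unfold val at h1
  rw [map_one] at h1
  exact one_ne_zero h1

theorem contains_iff {F : ι → MvPolynomial (Fin (n + 1)) k} {s N : ℕ}
    (hF : ∀ e, IsPowSum s N (F e)) (hN1 : 1 ≤ N) (hN : n * ((s + 1) * tn (s - 1)) ≤ N) :
    ContainsLine F ↔ ∃ P, GmCurve F P := by
  constructor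
  · rintro ⟨x, v, ⟨j, l, hjl⟩, hl⟩
    refine gm_of_line (a := x) (b := v) ?_ (fun e t => ?_)
    · rw [LinearIndependent.pair_iff]
      intro c c' hcc
      have e1 := congrFun hcc j
      have e2 := congrFun hcc l
      simp only [Pi.add_apply, Pi.smul_apply, smul_eq_mul, Pi.zero_apply] at e1 e2
      have h1 : v j * x l - v l * x j ≠ 0 := sub_ne_zero.2 hjl
      have h2 : c * (v j * x l - v l * x j) = 0 := by
        linear_combination v j * e2 - v l * e1
      have h3 : c' * (v j * x l - v l * x j) = 0 := by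
        linear_combination x l * e1 - x j * e2
      exact ⟨(mul_eq_zero.1 h2).resolve_right h1, (mul_eq_zero.1 h3).resolve_right h1⟩
    · rw [val_eval', one_smul]
      exact hl t e
  · rintro ⟨P, hP⟩
    obtain ⟨K, _, _, y, hy, hgt⟩ := sub_of_gm (fun e => isForm_of_powSum (hF e)) hP
    obtain ⟨a, b, hab⟩ := line_of_not hF hN1 hN one_pos hy hgt
    refine ⟨a, b, ?_, fun t e => ?_⟩
    · by_contra hcon
      push Not at hcon
      have hli := LinearIndependent.pair_iff.1 hab.1
      have ha : a = 0 := by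
        by_contra ha
        obtain ⟨i, hi⟩ := Function.ne_iff.1 ha
        have h1 := hli (b i) (-(a i)) (by
          funext l
          simp only [Pi.add_apply, Pi.smul_apply, smul_eq_mul, Pi.zero_apply]
          linear_combination hcon i l)
        exact hi (neg_eq_zero.1 h1.2)
      have h1 := hli 1 0 (by rw [ha]; simp)
      exact one_ne_zero h1.1
    · have h1 := hab.2 1 t e
      rw [val_eval'] at h1
      have h2 : (fun i => a i + t * b i) = (1 : k) • a + t • b := by
        funext i
        simp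
      rw [h2]
      exact h1

theorem orbits_iff {F : ι → MvPolynomial (Fin (n + 1)) k} {s N : ℕ}
    (hF : ∀ e, IsPowSparse ∅ s N (F e)) (hN : n * ((s + 1) * tn (s - 1)) ≤ N) :
    OrbitsConstant F ↔ ∀ P, ¬ GmCurve F P := by
  constructor
  · intro h P hP
    obtain ⟨K, _, _, y, hy, hgt⟩ := sub_of_gm (fun e => (hF e).1) hP
    have hy' : SubVarU ∅ F K 1 y := ⟨hy.ne, fun j hj => absurd hj (Set.notMem_empty j), hy.mem,
      hy.gen, hy.dim⟩
    have hgt' : ¬ LogGeneralType k K 1 (OffU ∅ y) := by
      intro h1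
      apply hgt
      apply general_of_log
      have h2 : OffU ∅ y = fun _ : Place k K => False := by
        funext P
        simp [OffU]
      rwa [h2] at h1
    have h1 : val y (1 : MvPolynomial (Fin (n + 1)) k) ≠ 0 := by
      unfold val
      rw [map_one]
      exact one_ne_zero
    obtain ⟨x, b, ⟨hd, i, i', hi, hi', hb⟩, -⟩ := closure_orbits hF hN one_pos hy' hgt' h1
    apply hb
    refine h x b (fun t ht e => ?_) i i' hi hi'
    have h2 := (hd t ht).2.2 e
    rw [val_eval'] at h2
    simpa only [mul_comm] using h2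
  · intro h x b hx j l hj hl
    by_contra hb
    have hd : DiagCurve ∅ F x b := by
      refine ⟨fun t ht => ⟨?_, fun j hj => absurd hj (Set.notMem_empty j), fun e => ?_⟩,
        j, l, hj, hl, hb⟩
      · intro h0
        have h1 := congrFun h0 j
        exact mul_ne_zero (zpow_ne_zero _ ht) hj h1
      · rw [val_eval']
        simpa only [mul_comm] using hx t ht e
    obtain ⟨P, hP, -⟩ := gm_of_diag (fun e => (hF e).1) hd
    exact h P hP

/-- **Four notions of hyperbolicity.** -/
theorem four [Finite ι] {F : ι → MvPolynomial (Fin (n + 1)) k} {s N : ℕ} (hF : HighPowers s N F)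
    (hn : n ≠ 0) (hN1 : 1 ≤ N) (hN : n * ((s + 1) * ((s - 1) * (s - 2) / 2)) ≤ N) :
    [∃ A : ℕ, AlgHyperbolic A F, BoundedOnCurves F, ∀ P, ¬ GmCurve F P,
      AllGeneralType F].TFAE := by
  have h : tn (s - 1) = (s - 1) * (s - 2) / 2 := by
    unfold tn
    rw [Fin.sum_univ_eq_sum_range (fun i => i), Finset.sum_range_id, Nat.sub_sub]
  have hN' : n * ((s + 1) * tn (s - 1)) ≤ N := by rw [h]; exact hN
  have hsq := sq_le_of hn hN1 hN
  tfae_have 4 ↔ 3 := all_iff hF hN1 hN'
  have key : ((∃ A : ℕ, AlgHyperbolic A F) ↔ BoundedOnCurves F) ∧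
      (BoundedOnCurves F ↔ ∀ P, ¬ GmCurve F P) := by
    rcases hF with hF | hF
    · have h1 := lines_tfae F (fun e => by
        obtain ⟨r, d, l, hr, hd, he⟩ := hF e
        refine ⟨r, d, lt_of_lt_of_le hN1 hd, ?_, fun _ => 1, l, fun _ => one_ne_zero, ?_⟩
        · refine le_trans ?_ (le_trans hsq hd)
          exact Nat.pow_le_pow_left (by omega) 2
        · rw [he]
          refine Finset.sum_congr rfl fun a _ => ?_
          rw [MvPolynomial.C_1, one_mul]
          rfl)
      have h2 := contains_iff hF hN1 hN'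
      refine ⟨h1.out 1 2, ?_⟩
      have h3 : ¬ ContainsLine F ↔ BoundedOnCurves F := h1.out 0 2
      rw [← h3, h2]
      push Not
      rfl
    · obtain ⟨A, hA⟩ := groupless_tfae.{0, 0} (fun e => (F e).support) (fun e => by
        obtain ⟨-, hc, N', hN', hd⟩ := hF e
        refine ⟨N', lt_of_lt_of_le hN1 hN', ?_, fun α hα j => hd α hα j (Set.notMem_empty j)⟩
        refine le_trans ?_ (le_trans hsq hN')
        exact Nat.pow_le_pow_left (by omega) 2)
      have h1 := hA k F (fun e => le_rfl) (fun e => (hF e).1)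
      have h2 := orbits_iff hF hN'
      have h3 : OrbitsConstant F ↔ AlgHyperbolic A F := h1.out 0 1
      have h4 : OrbitsConstant F ↔ BoundedOnCurves F := h1.out 0 2
      refine ⟨⟨?_, fun h5 => ⟨A, h3.1 (h4.2 h5)⟩⟩, by rw [← h4, h2]⟩
      rintro ⟨A', hA'⟩ K _ _ _
      exact ⟨_, fun f hf0 hf => hA' K f hf0 hf⟩
  tfae_have 1 ↔ 2 := key.1
  tfae_have 2 ↔ 3 := key.2
  tfae_finish

end Pool.Agent.W602.GT
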