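import Pool.Agent.W602.GT.Rat
import Mathlib.FieldTheory.RatFunc.Luroth

/-!
Images of the multiplicative group are not of general type.
-/

set_option autoImplicit false

open FF Pool.Agent.W603.LV IntermediateField

namespace Pool.Agent.W602.GT

variable {k : Type} [Field k] {n : ℕ}

theorem val_smul {L : Type} [Field L] [Algebra k L] {G : MvPolynomial (Fin (n + 1)) k} {d : ℕ}
    (hG : G.IsHomogeneous d) (c : L) (y : Fin (n + 1) → L) :
    val (fun i => c * y i) G = c ^ d * val y G := by
  unfold val
  rw [MvPolynomial.aeval_def, MvPolynomial.aeval_def, MvPolynomial.eval₂_eq',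
    MvPolynomial.eval₂_eq', Finset.mul_sum]
  refine Finset.sum_congr rfl fun a ha => ?_
  have h1 : ∑ i, a i = d := by
    have h2 := hG (MvPolynomial.mem_support_iff.1 ha)
    rw [← h2]
    simp [Finsupp.weight_apply, Finsupp.sum_fintype]
  have h2 : ∏ i, (c * y i) ^ a i = c ^ d * ∏ i, y i ^ a i := by
    rw [← h1, ← Finset.prod_pow_eq_pow_sum, ← Finset.prod_mul_distrib]
    exact Finset.prod_congr rfl fun i _ => by rw [mul_pow]
  rw [h2]
  ring

theorem val_map {L L' : Type} [Field L] [Algebra k L] [Field L'] [Algebra k L'] (φ : L →ₐ[k] L')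
    (G : MvPolynomial (Fin (n + 1)) k) (y : Fin (n + 1) → L) :
    φ (val y G) = val (fun i => φ (y i)) G := by
  unfold val
  rw [← MvPolynomial.comp_aeval_apply]

/-- a point with coordinates in an extension `L` has a canonical representative over the field
generated by the ratios of its coordinates -/
theorem repr {L : Type} [Field L] [Algebra k L] {ι : Type} {F : ι → MvPolynomial (Fin (n + 1)) k}
    (hF : ∀ e, IsForm (F e)) (y : Fin (n + 1) → L) {j0 : Fin (n + 1)} (hj0 : y j0 ≠ 0)
    (hmem : ∀ e, val y (F e) = 0) :
    ∃ y' : Fin (n + 1) → coords k y, y' j0 = 1 ∧ (∀ e, val y' (F e) = 0) ∧ coords k y' = ⊤ ∧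
      ∀ G : MvPolynomial (Fin (n + 1)) k, IsForm G → val y' G = 0 → val y G = 0 := by
  let y' : Fin (n + 1) → coords k y := fun i =>
    ⟨y i / y j0, IntermediateField.subset_adjoin k _ ⟨i, j0, hj0, rfl⟩⟩
  have hval : ∀ G : MvPolynomial (Fin (n + 1)) k, ∀ d, G.IsHomogeneous d →
      (y j0) ^ d * ((val y' G : coords k y) : L) = val y G := by
    intro G d hG
    have h1 := val_map (IntermediateField.val (coords k y)) G y'
    have h2 : (fun i => (IntermediateField.val (coords k y)) (y' i)) = fun i => y i / y j0 := rfl
    rw [h2] at h1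
    have h3 : ((val y' G : coords k y) : L) = val (fun i => y i / y j0) G := h1
    rw [h3, ← val_smul hG]
    congr 1
    funext i
    field_simp
  refine ⟨y', ?_, ?_, ?_, ?_⟩
  · apply Subtype.ext
    change y j0 / y j0 = 1
    exact div_self hj0
  · intro e
    obtain ⟨d, hd⟩ := hF e
    have h1 := hval (F e) d hd
    rw [hmem e] at h1
    have h2 := (mul_eq_zero.1 h1).resolve_left (pow_ne_zero _ hj0)
    exact Subtype.ext h2
  · apply IntermediateField.lift_injective (coords k y)
    rw [IntermediateField.lift_top]
    unfold coords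
    rw [IntermediateField.lift_adjoin]
    congr 1
    ext z
    constructor
    · rintro ⟨_, ⟨i, j, hj, rfl⟩, rfl⟩
      have hj' : y j ≠ 0 := by
        intro h0
        apply hj
        apply Subtype.ext
        change y j / y j0 = 0
        rw [h0, zero_div]
      refine ⟨i, j, hj', ?_⟩
      change (y i / y j0) / (y j / y j0) = y i / y j
      field_simp
    · rintro ⟨i, j, hj, rfl⟩
      refine ⟨y' i / y' j, ⟨i, j, ?_, rfl⟩, ?_⟩
      · intro h0
        have h1 := congrArg Subtype.val h0
        change y j / y j0 = 0 at h1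
        exact (div_ne_zero hj hj0) h1
      · change (y i / y j0) / (y j / y j0) = y i / y j
        field_simp
  · rintro G ⟨d, hd⟩ hG
    rw [← hval G d hd, hG]
    simp

variable [CharZero k] [IsAlgClosed k]

/-- nonconstant rational curves give subvarieties which are not of general type -/
theorem rational_sub {ι : Type} {F : ι → MvPolynomial (Fin (n + 1)) k}
    (hF : ∀ e, IsForm (F e)) (y : Fin (n + 1) → RatFunc k) {j0 : Fin (n + 1)} (hj0 : y j0 ≠ 0)
    (hmem : ∀ e, val y (F e) = 0) (hnc : coords k y ≠ ⊥) :
    ∃ y' : Fin (n + 1) → coords k y, SubVar F (coords k y) 1 y' ∧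
      ¬ GeneralType k (coords k y) 1 ∧
      ∀ G : MvPolynomial (Fin (n + 1)) k, IsForm G → val y' G = 0 → val y G = 0 := by
  obtain ⟨y', h1, h2, h3, h4⟩ := repr hF y hj0 hmem
  set x := RatFunc.Luroth.generator (coords k y) with hx
  have hxE : x ∈ coords k y := RatFunc.Luroth.generator_mem
  have htr : Transcendental k x := RatFunc.Luroth.transcendental_generator hnc
  have hgen : coords k y = k⟮x⟯ := RatFunc.Luroth.eq_adjoin_generator
  set x' : coords k y := ⟨x, hxE⟩ with hx'
  have htop : k⟮x'⟯ = ⊤ := by
    apply IntermediateField.lift_injective (coords k y)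
    rw [IntermediateField.lift_top, IntermediateField.lift_adjoin]
    conv_rhs => rw [hgen]
    congr 1
    simp [hx']
  have htr' : Transcendental k x' := by
    intro h
    apply htr
    exact h.algebraMap (A := RatFunc k)
  have hff : IsFF k (coords k y) := by
    refine IsFF.of_finite htr' ?_
    rw [htop]
    apply FiniteDimensional.of_finrank_pos
    rw [IntermediateField.finrank_top]
    exact one_pos
  refine ⟨y', ⟨?_, h2, h3, ?_⟩, not_gt htop 1, h4⟩
  · intro h0
    rw [h0] at h1
    exact zero_ne_one h1
  · rw [IsFF.trdeg (k := k) (K := coords k y)]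
    simp

end Pool.Agent.W602.GT
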