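import Pool.Agent.W602.GT.KAct

/-!
Upper bounds for the logarithmic Kodaira dimension.
-/

set_option autoImplicit false

open FF IntermediateField Pool.Agent.W603.LV

namespace Pool.Agent.W602.GT

variable {k : Type} [Field k] {n : ℕ} {ι : Type}

theorem ord_ratio {K : Type} [Field K] [Algebra k K] {y : Fin (n + 1) → K} {i : Fin (n + 1)}
    {δ : Derivation k K K} {σ : K} (hσ0 : σ ≠ 0) {b' : Fin (n + 1) → ℤ} (hi : y i ≠ 0)
    (hz : ∀ j, y j ≠ 0 → ∃ z, z ≠ 0 ∧ δ z = 0 ∧ y j / y i = z * σ ^ (b' j)) {P : Place k K}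
    (hP : ∀ c : K, δ c = 0 → c ≠ 0 → P.ord c = 0) {j : Fin (n + 1)} (hj : y j ≠ 0) :
    P.ord (y j) = P.ord (y i) + b' j * P.ord σ := by
  obtain ⟨z, hz0, hδz, h1⟩ := hz j hj
  have h2 := congrArg P.ord h1
  rw [P.ord_div hj hi, P.ord_mul hz0 (zpow_ne_zero _ hσ0), P.ord_zpow, hP z hδz hz0] at h2
  linarith

/-- **Contractions.** -/
theorem kod_neg [CharZero k] [IsAlgClosed k] {U : Set (Fin (n + 1))} {K : Type} [Field K]
    [Algebra k K] {w : ℕ} {y : Fin (n + 1) → K} (hyU : ∀ j ∈ U, y j ≠ 0) (hgen : coords k y = ⊤)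
    (htr : Algebra.trdeg k K = w) {b : Fin (n + 1) → ℕ} (h : Contracts U k y b) :
    ¬ KodGe k K w (OffU U y) 0 := by
  obtain ⟨i, hi, hbi⟩ := h.fixed
  obtain ⟨i', hi', hbi'⟩ := h.moved
  obtain ⟨δ, σ, g, b', hσ0, hσ, htop, hg, hb', hz⟩ := exists_delta hgen (fun j => (b j : ℤ)) hi hi'
    (by
      simp only [hbi]
      intro h0
      exact hbi' (by exact_mod_cast h0.symm))
    (fun G hG h0 v => hom_of_contracts hyU h G hG h0 v)
  have hb0 : ∀ j, y j ≠ 0 → 0 ≤ b' j := by
    intro j hj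
    have h1 := hb' j hj
    simp only [hbi, Nat.cast_zero, sub_zero] at h1
    by_contra hcon
    push Not at hcon
    have h2 : g * b' j < 0 := mul_neg_of_pos_of_neg hg hcon
    have h3 : (0 : ℤ) ≤ b j := Int.natCast_nonneg _
    omega
  have hbU : ∀ j ∈ U, b' j = 0 := by
    intro j hj
    have h1 := hb' j (hyU j hj)
    simp only [hbi, h.zero j hj, Nat.cast_zero, sub_zero] at h1
    exact (mul_eq_zero.1 h1.symm).resolve_left hg.ne'
  obtain ⟨D, hD, -, hneg⟩ := sec_const htr (Bd := OffU U y) δ hσ0 hσ htop (by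
    rintro P hP hPσ ⟨j, hj, l, hl, hlt⟩
    rw [ord_ratio hσ0 hi hz hP hl, ord_ratio hσ0 hi hz hP (hyU j hj), hPσ] at hlt
    simp at hlt)
  have hneg' := hneg (by
    rintro P hP hPσ ⟨j, hj, l, hl, hlt⟩
    rw [ord_ratio hσ0 hi hz hP hl, ord_ratio hσ0 hi hz hP (hyU j hj), hbU j hj, zero_mul,
      add_zero] at hlt
    have h1 := mul_nonneg (hb0 l hl) hPσ.le
    linarith)
  rintro ⟨N, hN, ω, hω, D', hD', -⟩
  apply hD'
  obtain ⟨M, hM⟩ := hD D'
  rw [← hM, (hω 0).1, hneg' N hN _ (hω 0), mul_zero]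

/-- **Torus actions.** -/
theorem kod_le [CharZero k] {U : Set (Fin (n + 1))} {K : Type} [Field K]
    [Algebra k K] {w : ℕ} {y : Fin (n + 1) → K} (hyU : ∀ j ∈ U, y j ≠ 0) (hgen : coords k y = ⊤)
    (htr : Algebra.trdeg k K = w) {p : ℕ} (b : Fin p → Fin (n + 1) → ℤ) {i0 : Fin (n + 1)}
    (hi0 : y i0 ≠ 0) (jj : Fin p → Fin (n + 1)) (hjj : ∀ l, y (jj l) ≠ 0)
    (hb1 : ∀ l, b l (jj l) ≠ b l i0) (hb2 : ∀ l m, m ≠ l → b l (jj m) = b l i0)
    (hH : ∀ l, ∀ G : MvPolynomial (Fin (n + 1)) k, IsForm G → val y G = 0 →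
      ∀ v, val y (wc (b l) v G) = 0) {h : ℕ} (hk : KodGe k K w (OffU U y) h) : h + p ≤ w := by
  classical
  have hK : CharZero K := charZero_of_injective_algebraMap (algebraMap k K).injective
  have hdel : ∀ l, ∃ δ : Derivation k K K,
      (∀ N (ω ω' : (Fin w → Derivation k K K) → K), LogSec k K w N (OffU U y) ω →
        LogSec k K w N (OffU U y) ω' → ∀ D', ω' D' ≠ 0 → δ (ω D' / ω' D') = 0) ∧
      δ (y (jj l) / y i0) ≠ 0 ∧ ∀ m, m ≠ l → δ (y (jj m) / y i0) = 0 := by
    intro l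
    obtain ⟨δ, σ, g, b', hσ0, hσ, htop, hg, hb', hz⟩ := exists_delta hgen (b l) hi0 (hjj l)
      (hb1 l).symm (hH l)
    have hval : ∀ j, y j ≠ 0 → δ (y j / y i0) = b' j * (y j / y i0) := by
      intro j hj
      obtain ⟨z, hz0, hδz, h1⟩ := hz j hj
      rw [h1, δ.leibniz, hδz, smul_zero, add_zero, der_zpow δ hσ0, hσ, div_self hσ0, mul_one,
        smul_eq_mul]
      ring
    obtain ⟨D, hD, hconst, -⟩ := sec_const htr (Bd := OffU U y) δ hσ0 hσ htop (by
      rintro P hP hPσ ⟨j, hj, l, hl, hlt⟩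
      rw [ord_ratio hσ0 hi0 hz hP hl, ord_ratio hσ0 hi0 hz hP (hyU j hj), hPσ] at hlt
      simp at hlt)
    refine ⟨δ, ?_, ?_, ?_⟩
    · intro N ω ω' hω hω' D' hne
      obtain ⟨M, hM⟩ := hD D'
      have h1 : ω D' = M.det ^ N * ω D := by rw [← hM, hω.1]
      have h2 : ω' D' = M.det ^ N * ω' D := by rw [← hM, hω'.1]
      have h3 : M.det ^ N ≠ 0 := by
        intro h0
        apply hne
        rw [h2, h0, zero_mul]
      have h4 : ω D ∈ consts δ := hconst N ω hω
      have h5 : ω' D ∈ consts δ := hconst N ω' hω'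
      have h6 : ω D' / ω' D' ∈ consts δ := by
        rw [h1, h2, mul_div_mul_left _ _ h3]
        exact div_mem h4 h5
      exact h6
    · rw [hval _ (hjj l)]
      refine mul_ne_zero ?_ (div_ne_zero (hjj l) hi0)
      intro h0
      have h1 : b' (jj l) = 0 := by exact_mod_cast h0
      have h2 := hb' _ (hjj l)
      rw [h1, mul_zero] at h2
      exact hb1 l (sub_eq_zero.1 h2)
    · intro m hm
      rw [hval _ (hjj m)]
      have h2 := hb' _ (hjj m)
      rw [hb2 l m hm, sub_self] at h2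
      have h3 : b' (jj m) = 0 := (mul_eq_zero.1 h2.symm).resolve_left hg.ne'
      rw [h3, Int.cast_zero, zero_mul]
  choose δ hδ1 hδ2 hδ3 using hdel
  obtain ⟨N, hN, ω, hω, D', hD', hind⟩ := hk
  have hf : ∀ l (i : Fin h), δ l (ω i.succ D' / ω 0 D') = 0 := fun l i =>
    hδ1 l N _ _ (hω _) (hω _) D' hD'
  -- extend the ratios to a transcendence basis
  have hindr : AlgebraicIndepOn k id (Set.range fun i : Fin h => ω i.succ D' / ω 0 D') :=
    hind.coe_range
  obtain ⟨B, hB1, hB⟩ := exists_isTranscendenceBasis_superset hindr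
  have hcard : Cardinal.mk B = (w : Cardinal) := by
    rw [← htr]
    exact hB.cardinalMk_eq_trdeg
  have hfinB : B.Finite := by
    rw [← Set.finite_coe_iff, ← Cardinal.lt_aleph0_iff_finite, hcard]
    exact Cardinal.natCast_lt_aleph0
  set R := Set.range fun i : Fin h => ω i.succ D' / ω 0 D' with hR
  have hfin2 : Finite (B \ R : Set K) := (hfinB.subset Set.sdiff_subset).to_subtype
  obtain ⟨q, ⟨ψ⟩⟩ := Finite.exists_equiv_fin (B \ R : Set K)
  have hq : h + q = w := by
    have e1 : R ≃ Fin h := (Equiv.ofInjective _ hind.injective).symm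
    have h1 := Cardinal.mk_congr (Equiv.Set.sumDiffSubset hB1)
    rw [hcard, Cardinal.mk_sum, Cardinal.mk_congr e1, Cardinal.mk_congr ψ] at h1
    simp only [Cardinal.mk_fin, Cardinal.lift_natCast] at h1
    exact_mod_cast h1
  by_contra hcon
  push Not at hcon
  have hqp : q < p := by omega
  let L : (Fin p → K) →ₗ[K] (Fin q → K) :=
    { toFun := fun c i => ∑ l, c l * δ l ((ψ.symm i : (B \ R : Set K)) : K)
      map_add' := by
        intro c c'
        funext i
        simp only [Pi.add_apply, add_mul, Finset.sum_add_distrib]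
      map_smul' := by
        intro a c
        funext i
        simp only [Pi.smul_apply, smul_eq_mul, RingHom.id_apply, mul_assoc, Finset.mul_sum] }
  have hker : LinearMap.ker L ≠ ⊥ := LinearMap.ker_ne_bot_of_finrank_lt (by
    rw [Module.finrank_fin_fun, Module.finrank_fin_fun]
    exact hqp)
  obtain ⟨c, hc, hc0⟩ := Submodule.exists_mem_ne_zero_of_ne_bot hker
  have hLc : L c = 0 := hc
  let D : Derivation k K K := ∑ l, c l • δ l
  have hDval : ∀ z, D z = ∑ l, c l * δ l z := by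
    intro z
    have h0 : ∀ (s : Finset (Fin p)), (∑ l ∈ s, c l • δ l) z = ∑ l ∈ s, c l * δ l z := by
      intro s
      induction s using Finset.induction_on with
      | empty => simp
      | insert l s hl ih =>
        rw [Finset.sum_insert hl, Finset.sum_insert hl, Derivation.add_apply, ih]
        rfl
    exact h0 _
  have hD0 : D = 0 := by
    apply der_ext _ hB
    intro z
    rw [Derivation.zero_apply]
    by_cases hz : (z : K) ∈ R
    · obtain ⟨i, hi⟩ := hz
      rw [← hi, hDval]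
      exact Finset.sum_eq_zero fun l _ => by rw [hf l i, mul_zero]
    · have h1 := congrFun hLc (ψ ⟨z, z.2, hz⟩)
      change ∑ l, c l * δ l ((ψ.symm (ψ ⟨z, z.2, hz⟩) : (B \ R : Set K)) : K) = 0 at h1
      rw [Equiv.symm_apply_apply] at h1
      rw [hDval]
      exact h1
  apply hc0
  funext l
  have h1 := hDval (y (jj l) / y i0)
  rw [hD0, Derivation.zero_apply, Finset.sum_eq_single l] at h1
  · exact (mul_eq_zero.1 h1.symm).resolve_right (hδ2 l)
  · intro m _ hm
    rw [hδ3 m l hm.symm, mul_zero]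
  · intro h2
    exact absurd (Finset.mem_univ _) h2

end Pool.Agent.W602.GT
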