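import Pool.Agent.W602.GT.Dich
import Pool.Agent.W602.GT.KDefs

/-!
Pluricanonical forms from circuits, relative version.
-/

set_option autoImplicit false

open FF Pool.Agent.W603.LV

namespace Pool.Agent.W602.GT

variable {k K : Type} [Field k] [Field K] [Algebra k K]

theorem ge_lmat_log {w : ℕ} {P : Place k K} (x : Fin w → K) (D : Fin w → Derivation k K K)
    (hD : ∀ i, DerLog P (D i)) : Ge P 0 (lmat x D).det :=
  ge_det P _ 0 (fun _ _ => 0) (fun i l => ge_logder_log (hD i) (x l)) (fun σ => by simp)

theorem ge_lmat_reg {w : ℕ} {P : Place k K} (x : Fin w → K) (hx : ∀ q, x q ≠ 0)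
    (h0 : ∀ q, P.ord (x q) = 0) (D : Fin w → Derivation k K K) (hD : ∀ i, DerReg P (D i)) :
    Ge P 0 (lmat x D).det :=
  ge_det P _ 0 (fun _ _ => 0) (fun i l => ge_logder_reg (hD i) (hx l) (h0 l)) (fun σ => by simp)

/-- **Pluricanonical forms, relative version.** Let `T i` be circuits over `k` and `x` a
transcendence basis of `K`. There are pluricanonical forms, indexed by the choices `c` of members
of the circuits, with logarithmic poles only, and regular at all places where the orders of two
members of one circuit are equal or differ by at least `wt m`, and where the elements of the basis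
are units if the orders of the members of each circuit are equal. -/
theorem coreK [IsAlgClosed k] [CharZero k] {r w : ℕ} {m : Fin r → ℕ} (T : ∀ i, Fin (m i + 1) → K)
    (hT : ∀ i j, T i j ≠ 0) (hsum : ∀ i, ∑ j, T i j = 0)
    (hlin : ∀ i, LinearIndependent k (fun l => T i ((Fin.last (m i)).succAbove l)))
    (x : Fin w → K) (hx0 : ∀ q, x q ≠ 0) (hbasis : IsTranscendenceBasis k x) :
    ∃ g : (∀ i, Fin (m i + 1)) → K, (∀ c, g c ≠ 0) ∧
      (∀ c c', g c * ∏ i, T i (c' i) = g c' * ∏ i, T i (c i)) ∧
      ∀ P : Place k K, (∀ c, LogAt P (form x (max 1 (wt m)) (g c))) ∧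
        ((∀ i j l, P.ord (T i j) = P.ord (T i l) ∨ (wt m : ℤ) ≤ |P.ord (T i j) - P.ord (T i l)|) →
          ((∀ i j l, P.ord (T i j) = P.ord (T i l)) → ∀ q, P.ord (x q) = 0) →
          ∀ c, RegAt P (form x (max 1 (wt m)) (g c))) := by
  classical
  obtain ⟨lam, hlam⟩ := exists_lam k w
  obtain ⟨D0, hD0⟩ := exists_der x hbasis (fun j => algebraMap k K (lam j) * x j)
  have hconst : ∀ h, D0 h = 0 → ∃ c : k, h = algebraMap k K c := fun h hh =>
    const_of_der x hbasis lam hlam D0 hD0 hh
  have heta0 : ∀ i, eta D0 (T i) ≠ 0 := fun i =>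
    div_ne_zero (wr_ne hconst _ (hlin i)) (Finset.prod_ne_zero_iff.2 fun j _ => hT i j)
  have hfac0 : ∀ i c, fac D0 (T i) c ≠ 0 := fun i c =>
    mul_ne_zero (mul_ne_zero (pow_ne_zero _ (heta0 i))
      (Finset.prod_ne_zero_iff.2 fun j _ => hT i j)) (hT i c)
  have hGG0 : ∀ c, GG T D0 c ≠ 0 := fun c => Finset.prod_ne_zero_iff.2 fun i _ => hfac0 i _
  have hpt : (∏ j, x j) ≠ 0 := Finset.prod_ne_zero_iff.2 fun j _ => hx0 j
  set N := max 1 (wt m) with hN
  have hNw : wt m ≤ N := le_max_right _ _
  refine ⟨fun c => GG T D0 c / (∏ j, x j) ^ N, fun c => div_ne_zero (hGG0 _) (pow_ne_zero _ hpt),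
    ?_, ?_⟩
  · intro c c'
    have h1 : ∀ c : ∀ i, Fin (m i + 1), GG T D0 c =
        (∏ i, eta D0 (T i) ^ (m i + 2) * ∏ j, T i j) * ∏ i, T i (c i) := by
      intro c
      unfold GG fac
      rw [Finset.prod_mul_distrib]
    beta_reduce
    rw [h1 c, h1 c']
    ring
  · intro P
    have hmin : ∀ i, ∃ b' : Fin (m i + 1), ∀ j, P.ord (T i b') ≤ P.ord (T i j) := fun i =>
      Finite.exists_min _
    choose b' hb' using hmin
    have hkey : ∀ (D : Fin w → Derivation k K K) (c : ∀ i, Fin (m i + 1)),
        GG T D0 c / (∏ j, x j) ^ N * (Matrix.of fun i j => D i (x j)).det ^ N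
          = GG T (con x lam D) c * (lmat x D).det ^ (N - wt m) := by
      intro D c
      have h1 : con x lam D = (lmat x D).det • D0 := by
        apply der_ext x hbasis
        intro l
        rw [con_t x lam D hx0 l, Derivation.coe_smul, Pi.smul_apply, hD0, smul_eq_mul]
        ring
      have h2 : (Matrix.of fun i j => D i (x j)).det = (∏ j, x j) * (lmat x D).det := by
        rw [← Matrix.det_mul_row]
        congr 1
        ext i j
        simp only [Matrix.of_apply, lmat]
        have := hx0 j
        field_simp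
      have h3 : (lmat x D).det ^ N = (lmat x D).det ^ wt m * (lmat x D).det ^ (N - wt m) := by
        rw [← pow_add, Nat.add_sub_cancel' hNw]
      rw [h1, GG_smul, h2, mul_pow, h3]
      field_simp
    refine ⟨fun c D hD => ?_, fun hP hPx c D hD => ?_⟩
    · unfold form
      rw [hkey, reg_iff_ge]
      have h1 := ge_GG T (E := con x lam D) hT hb' (ε := 0) (fun i => by
        have hE : ∀ z : K, z ≠ 0 → Ge P (-0) (con x lam D z / z) := fun z hz => by
          rw [neg_zero]
          exact con_log x lam D hD z
        exact eta_log hE (hT i) (hsum i) (b' i)) c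
      have h2 := h1.mul ((ge_lmat_log x D hD).pow (N - wt m))
      refine h2.mono ?_
      rw [zero_mul, sub_zero, mul_zero, add_zero]
      exact Finset.sum_nonneg fun i _ => Finset.sum_nonneg fun j _ => sub_nonneg.2 (hb' i j)
    · unfold form
      rw [hkey, reg_iff_ge]
      by_cases hall : ∀ i j, P.ord (T i j) = P.ord (T i (b' i))
      · have hx1 := hPx fun i j l => by rw [hall i j, hall i l]
        have hE := con_reg x lam D hD hx0 hx1
        have h1 := ge_GG T (E := con x lam D) hT hb' (ε := 0) (fun i => by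
          rw [zero_mul, sub_zero]
          exact eta_reg hE (hT i) (hsum i) (b' i) (hall i)) c
        have h2 := h1.mul ((ge_lmat_reg x hx0 hx1 D hD).pow (N - wt m))
        refine h2.mono ?_
        rw [zero_mul, sub_zero, mul_zero, add_zero]
        exact Finset.sum_nonneg fun i _ => Finset.sum_nonneg fun j _ => sub_nonneg.2 (hb' i j)
      · push Not at hall
        obtain ⟨i0, j0, hij⟩ := hall
        have h1 := ge_GG T (E := con x lam D) hT hb' (ε := 1) (fun i => by
          have hE : ∀ z : K, z ≠ 0 → Ge P (-1) (con x lam D z / z) := fun z hz =>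
            con_pole x lam D hD hx0 hz
          exact eta_log hE (hT i) (hsum i) (b' i)) c
        have h2 := h1.mul ((det_log D hD x hx0).pow (N - wt m))
        refine h2.mono ?_
        have h3 : P.ord (T i0 j0) - P.ord (T i0 (b' i0))
            ≤ ∑ i, ∑ j, (P.ord (T i j) - P.ord (T i (b' i))) := by
          refine le_trans ?_ (Finset.single_le_sum
            (f := fun i => ∑ j, (P.ord (T i j) - P.ord (T i (b' i))))
            (fun i _ => Finset.sum_nonneg fun j _ => sub_nonneg.2 (hb' i j)) (Finset.mem_univ i0))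
          exact Finset.single_le_sum (f := fun j => P.ord (T i0 j) - P.ord (T i0 (b' i0)))
            (fun j _ => sub_nonneg.2 (hb' i0 j)) (Finset.mem_univ j0)
        have h4 : (N : ℤ) ≤ P.ord (T i0 j0) - P.ord (T i0 (b' i0)) := by
          have h5 := (hP i0 j0 (b' i0)).resolve_left hij
          rw [abs_of_nonneg (sub_nonneg.2 (hb' i0 j0))] at h5
          have h6 : (1 : ℤ) ≤ P.ord (T i0 j0) - P.ord (T i0 (b' i0)) := by
            have := hb' i0 j0
            omega
          rw [hN]
          push_cast
          exact max_le h6 h5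
        have h7 : ((N - wt m : ℕ) : ℤ) = N - wt m := by
          push_cast [hNw]
          ring
        rw [one_mul, h7]
        linarith

end Pool.Agent.W602.GT
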