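import Pool.Agent.W602.GT.KMain

/-!
The logarithmic Kodaira dimension of components of sparse quasi-projective varieties: final form.
-/

set_option autoImplicit false

open FF IntermediateField Pool.Agent.W603.LV

namespace Pool.Agent.W602.GT

variable {k : Type} [Field k] {n : ℕ} {ι : Type}

theorem KodGe.zero {K : Type} [Field K] [Algebra k K] {w : ℕ} {Bd : Place k K → Prop} {h : ℕ}
    (hk : KodGe k K w Bd h) : KodGe k K w Bd 0 := by
  obtain ⟨N, hN, ω, hω, D, hD, -⟩ := hk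
  refine ⟨N, hN, fun _ => ω 0, fun _ => hω 0, D, hD, ?_⟩
  rw [algebraicIndependent_empty_type_iff]
  exact (algebraMap k K).injective

/-- **Sparse quasi-projective varieties.** -/
theorem kod_final [CharZero k] [IsAlgClosed k] {U : Set (Fin (n + 1))}
    {F : ι → MvPolynomial (Fin (n + 1)) k} {s N : ℕ} (hF : ∀ e, IsPowSparse U s N (F e))
    (hN : n * ((s + 1) * ((s - 1) * (s - 2) / 2)) ≤ N) {K : Type} [Field K] [Algebra k K] {w : ℕ}
    {y : Fin (n + 1) → K} (hy : SubVarU U F K w y) (hcomp : IsComponentU U F y) :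
    ((∃ b, Contracts U k y b) ∧ ¬ KodGe k K w (OffU U y) 0) ∨
    ∃ (h p : ℕ) (b : Fin p → Fin (n + 1) → ℤ), h + p = w ∧ (∀ l, Acts U k y (b l)) ∧
      (∀ c : Fin p → ℤ, (∀ j j', y j ≠ 0 → y j' ≠ 0 →
        ∑ l, c l * b l j = ∑ l, c l * b l j') → c = 0) ∧
      KodGe k K w (OffU U y) h ∧ ¬ KodGe k K w (OffU U y) (h + 1) := by
  have h : tn (s - 1) = (s - 1) * (s - 2) / 2 := by
    unfold tn
    rw [Fin.sum_univ_eq_sum_range (fun i => i), Finset.sum_range_id, Nat.sub_sub]
  rcases kod_main hF (by rw [h]; exact hN) hy hcomp with ⟨b, hb⟩ | h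
  · exact Or.inl ⟨⟨b, hb⟩, kod_neg hy.unit hy.gen hy.dim hb⟩
  · exact Or.inr h

/-- Negative logarithmic Kodaira dimension and affine lines. -/
theorem neg_iff [CharZero k] [IsAlgClosed k] {U : Set (Fin (n + 1))}
    {F : ι → MvPolynomial (Fin (n + 1)) k} {s N : ℕ} (hF : ∀ e, IsPowSparse U s N (F e))
    (hN : n * ((s + 1) * ((s - 1) * (s - 2) / 2)) ≤ N) {K : Type} [Field K] [Algebra k K] {w : ℕ}
    {y : Fin (n + 1) → K} (hy : SubVarU U F K w y) (hcomp : IsComponentU U F y) :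
    ¬ KodGe k K w (OffU U y) 0 ↔ ∃ b, Contracts U k y b := by
  constructor
  · intro h0
    rcases kod_final hF hN hy hcomp with h | ⟨h, p, b, -, -, -, hk, -⟩
    · exact h.1
    · exact absurd hk.zero h0
  · rintro ⟨b, hb⟩
    exact kod_neg hy.unit hy.gen hy.dim hb

end Pool.Agent.W602.GT
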