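import Pool.Agent.W602.GT.KFlow

/-!
Systems of high powers: the canonical bundle of a component is pseudo-effective if and only if the
component is of general type.
-/

set_option autoImplicit false

open FF IntermediateField Pool.Agent.W603.LV

namespace Pool.Agent.W602.GT

variable {k : Type} [Field k] {n : ℕ} {ι : Type}

theorem kod_of_general {K : Type} [Field K] [Algebra k K] {w : ℕ} (h : GeneralType k K w) :
    KodGe k K w (fun _ => False) 0 := by
  obtain ⟨-, N, hN, ω, h1, h2, D, hD, -⟩ := h
  refine ⟨N, hN, fun _ => ω 0, fun _ => ⟨h1 0, fun P hP D hDP => ?_, fun P hP _ => h2 P hP 0⟩,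
    D, hD, ?_⟩
  · refine h2 P hP 0 D fun i f hf => ?_
    by_cases h0 : f = 0
    · rw [h0, map_zero]
      exact P.reg_zero
    · have h3 := P.reg_mul (hDP i f) hf
      rwa [div_mul_cancel₀ _ h0] at h3
  · rw [algebraicIndependent_empty_type_iff]
    exact (algebraMap k K).injective

variable [CharZero k] [IsAlgClosed k]

/-- A field which is generated by a transcendental element over a subfield has no pseudo-effective
canonical bundle. -/
theorem not_psef_of {K : Type} [Field K] [Algebra k K] {w : ℕ} (htr : Algebra.trdeg k K = w)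
    (C : IntermediateField k K) {σ : K} (hσt : Transcendental C σ) (htop : C⟮σ⟯ = ⊤) :
    ¬ Psef k K w fun _ => False := by
  obtain ⟨δ, hδ, -, hδtop⟩ := delta_of C hσt htop
  have hσ0 : σ ≠ 0 := by
    rintro rfl
    exact hσt isAlgebraic_zero
  exact not_psef htr δ hσ0 hδ hδtop fun _ _ _ h => h

/-- The dichotomy for the components of systems of high powers: general type, or generated by a
transcendental element over a subfield. -/
theorem general_or_ruled {F : ι → MvPolynomial (Fin (n + 1)) k} {s N : ℕ} (hF : HighPowers s N F)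
    (hN1 : 1 ≤ N) (hN : n * ((s + 1) * tn (s - 1)) ≤ N) {K : Type} [Field K] [Algebra k K] {w : ℕ}
    (hw : 0 < w) {y : Fin (n + 1) → K} (hy : SubVar F K w y) (hcomp : IsComponent F y)
    (hgt : ¬ GeneralType k K w) :
    ∃ (C : IntermediateField k K) (σ : K), Transcendental C σ ∧ C⟮σ⟯ = ⊤ := by
  have hgen : Algebra.IsAlgebraic (coords k y) K := by
    rw [hy.gen]
    infer_instance
  rcases hF with h | h
  · obtain ⟨D, Z, Q, hD, hZ, hQ, hx⟩ := waring_pi h hN1 hN hw hy.dim hy.ne hgen hy.mem hgt
    obtain ⟨C, i0, j0, -, h1, h2, -⟩ := flow_of_pi hy hcomp D Z Q hD hZ hQ hx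
    exact ⟨C, _, h1, h2⟩
  · have hgt' : ¬ LogGeneralType k K w (OffU ∅ y) := by
      intro h1
      apply hgt
      apply general_of_log
      have h2 : OffU ∅ y = fun _ : Place k K => False := by
        funext P
        simp [OffU]
      rwa [h2] at h1
    obtain ⟨b, i, i', hi, hi', hb, hwc⟩ := sparse h hN hw hy.dim hy.ne hgen hy.mem
      (fun j hj => absurd hj (Set.notMem_empty j)) hgt'
    have hyU : SubVarU ∅ F K w y :=
      ⟨hy.ne, fun j hj => absurd hj (Set.notMem_empty j), hy.mem, hy.gen, hy.dim⟩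
    have hcompU : IsComponentU ∅ F y := by
      obtain ⟨H, hH, hHy, hcone⟩ := hcomp
      exact ⟨H, hH, hHy, fun x hx hxH => hcone x (mem_cone_empty hx) hxH⟩
    obtain ⟨δ, σ, -, -, hσ0, hσ, htop, -⟩ := exists_delta hy.gen b hi hi' hb
      (fun G hG h0 v => ideal_hom hyU hcompU hwc G hG h0 v)
    refine ⟨consts δ, σ, ?_, htop⟩
    intro halg
    have h1 : Algebra.IsAlgebraic (consts δ) K := by
      have h2 : Algebra.IsAlgebraic (consts δ) (consts δ)⟮σ⟯ :=
        IntermediateField.isAlgebraic_adjoin_simple halg.isIntegral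
      constructor
      intro z
      have h3 := h2.isAlgebraic (⟨z, by rw [htop]; exact IntermediateField.mem_top⟩ : (consts δ)⟮σ⟯)
      exact h3.algebraMap (A := K)
    have h2 : Algebra.IsAlgebraic (IntermediateField.adjoin k (consts δ : Set K)) K := by
      rw [IntermediateField.adjoin_self]
      exact h1
    have h3 := der_eq_zero δ _ h2 (fun s hs => hs)
    rw [h3] at hσ
    exact hσ0 hσ.symm

/-- **Pseudo-effectivity for systems of high powers.** -/
theorem psef_iff_general {F : ι → MvPolynomial (Fin (n + 1)) k} {s N : ℕ} (hF : HighPowers s N F)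
    (hN1 : 1 ≤ N) (hN : n * ((s + 1) * tn (s - 1)) ≤ N) {K : Type} [Field K] [Algebra k K] {w : ℕ}
    (hw : 0 < w) {y : Fin (n + 1) → K} (hy : SubVar F K w y) (hcomp : IsComponent F y) :
    Psef k K w (fun _ => False) ↔ GeneralType k K w := by
  refine ⟨fun h => ?_, fun h => psef_of_kodGe (kod_of_general h)⟩
  by_contra hgt
  obtain ⟨C, σ, h1, h2⟩ := general_or_ruled hF hN1 hN hw hy hcomp hgt
  exact not_psef_of hy.dim C h1 h2 h

/-- The dichotomy. -/
theorem general_psef_or_ruled {F : ι → MvPolynomial (Fin (n + 1)) k} {s N : ℕ}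
    (hF : HighPowers s N F) (hN1 : 1 ≤ N) (hN : n * ((s + 1) * ((s - 1) * (s - 2) / 2)) ≤ N)
    {K : Type} [Field K] [Algebra k K] {w : ℕ} (hw : 1 ≤ w) {y : Fin (n + 1) → K}
    (hy : SubVar F K w y) (hcomp : IsComponent F y) :
    (Psef k K w (fun _ => False) ∧ GeneralType k K w) ∨
      (¬ Psef k K w (fun _ => False) ∧ Ruled k K) := by
  have h : tn (s - 1) = (s - 1) * (s - 2) / 2 := by
    unfold tn
    rw [Fin.sum_univ_eq_sum_range (fun i => i), Finset.sum_range_id, Nat.sub_sub]
  have hN' : n * ((s + 1) * tn (s - 1)) ≤ N := by rw [h]; exact hN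
  by_cases hgt : GeneralType k K w
  · exact Or.inl ⟨psef_of_kodGe (kod_of_general hgt), hgt⟩
  · obtain ⟨C, σ, h1, h2⟩ := general_or_ruled hF hN1 hN' hw hy hcomp hgt
    exact Or.inr ⟨not_psef_of hy.dim C h1 h2, C, σ, h1, h2⟩

end Pool.Agent.W602.GT
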