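import Pool.Agent.W602.GT.KPsefS

/-!
Sums of high powers: the additive flow on the components which are not of general type.
-/

set_option autoImplicit false

open FF IntermediateField Pool.Agent.W603.LV

namespace Pool.Agent.W602.GT

/-- the value of a linear form -/
noncomputable def lin {k : Type} [Field k] {n : ℕ} (l : Fin (n + 1) → k) {M : Type} [Field M]
    [Algebra k M] (x : Fin (n + 1) → M) : M := ∑ i, algebraMap k M (l i) * x i

variable {k : Type} [Field k] {n : ℕ} {ι : Type}

theorem lin_add_smul {M : Type} [Field M] [Algebra k M] (l : Fin (n + 1) → k)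
    (x x' : Fin (n + 1) → M) (c c' : M) :
    lin l (fun i => c * x i + c' * x' i) = c * lin l x + c' * lin l x' := by
  unfold lin
  simp only [Finset.mul_sum, ← Finset.sum_add_distrib]
  exact Finset.sum_congr rfl fun i _ => by ring

theorem lin_map {M M' : Type} [Field M] [Algebra k M] [Field M'] [Algebra k M'] (φ : M →ₐ[k] M')
    (l : Fin (n + 1) → k) (x : Fin (n + 1) → M) : φ (lin l x) = lin l (fun i => φ (x i)) := by
  unfold lin
  rw [map_sum]
  exact Finset.sum_congr rfl fun i _ => by rw [map_mul, φ.commutes]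

/-- the linear space spanned by the translates -/
theorem waring_pi [IsAlgClosed k] [CharZero k] {K : Type} [Field K] [Algebra k K]
    {F : ι → MvPolynomial (Fin (n + 1)) k}
    {s N : ℕ} (hF : ∀ e, IsPowSum s N (F e)) (hN1 : 1 ≤ N) (hN : n * ((s + 1) * tn (s - 1)) ≤ N)
    {w : ℕ} (hw : 0 < w) (htr : Algebra.trdeg k K = w) {y : Fin (n + 1) → K} (hy : y ≠ 0)
    (hgen : Algebra.IsAlgebraic (coords k y) K) (hyF : ∀ e, val y (F e) = 0)
    (hgt : ¬ GeneralType k K w) :
    ∃ (D : Derivation k K K) (Z : Set (Fin (n + 1) → k))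
      (Q : Set ((Fin (n + 1) → k) × (Fin (n + 1) → k))), D ≠ 0 ∧ (∀ l ∈ Z, lin l y = 0) ∧
      (∀ p ∈ Q, lin p.1 y ≠ 0 ∧ lin p.2 y ≠ 0 ∧ D (lin p.1 y / lin p.2 y) = 0) ∧
      ∀ (M : Type) [Field M] [Algebra k M] [Algebra K M] [IsScalarTower k K M]
        (x : Fin (n + 1) → M), (∀ l ∈ Z, lin l x = 0) →
        (∀ p ∈ Q, lin p.1 x = algebraMap K M (lin p.1 y / lin p.2 y) * lin p.2 x) →
        ∀ e, val x (F e) = 0 := by
  classical
  have hwn := dim_le hy hgen htr
  choose r d l hr hd hFe using hF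
  have hK : CharZero K := charZero_of_injective_algebraMap (algebraMap k K).injective
  let L : ∀ e, Fin (r e) → (Fin (n + 1) → K) → K := fun e j x => lin (l e j) x
  have hvalM : ∀ (M : Type) [Field M] [Algebra k M] (x : Fin (n + 1) → M) e,
      val x (F e) = ∑ j, lin (l e j) x ^ d e := by
    intro M _ _ x e
    unfold val
    rw [hFe e, map_sum]
    refine Finset.sum_congr rfl fun j _ => ?_
    rw [map_pow, map_sum]
    simp only [map_mul, MvPolynomial.aeval_C, MvPolynomial.aeval_X]
    rfl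
  have hval : ∀ (x : Fin (n + 1) → K) e, val x (F e) = ∑ j, L e j x ^ d e := hvalM K
  have hd0 : ∀ e, 0 < d e := fun e => lt_of_lt_of_le hN1 (hd e)
  let J : ι → Type := fun e => {j : Fin (r e) // L e j y ≠ 0}
  let g : ∀ e, J e → K := fun e j => L e j.1 y ^ d e
  have hg : ∀ e j, g e j ≠ 0 := fun e j => pow_ne_zero _ j.2
  have hsub : ∀ (M : Type) [Field M] (e : ι) (f : Fin (r e) → M), (∀ j, L e j y = 0 → f j = 0) →
      ∑ j, f j = ∑ j : J e, f j.1 := by
    intro M _ e f hf
    rw [← Finset.sum_subtype (Finset.univ.filter fun j => L e j y ≠ 0) (by simp) f]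
    rw [Finset.sum_filter_of_ne]
    intro j _ hj h0
    exact hj (hf j h0)
  have hsum : ∀ e, ∑ j, g e j = 0 := by
    intro e
    rw [← hsub K e (fun j => L e j y ^ d e) (fun j hj => by rw [hj, zero_pow (hd0 e).ne']), ← hval]
    exact hyF e
  have hcard : ∀ e, Fintype.card (J e) ≤ s := fun e =>
    (Fintype.card_subtype_le _).trans (by rw [Fintype.card_fin]; exact hr e)
  have hjump : ∀ P : Place k K, ¬ False → ∀ e (i j : J e), P.ord (g e i) = P.ord (g e j) ∨
      ((w * ((s + 1) * tn (s - 1)) : ℕ) : ℤ) ≤ |P.ord (g e i) - P.ord (g e j)| := by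
    intro P _ e i j
    change P.ord (L e i.1 y ^ d e) = P.ord (L e j.1 y ^ d e) ∨
      _ ≤ |P.ord (L e i.1 y ^ d e) - P.ord (L e j.1 y ^ d e)|
    rw [P.ord_pow, P.ord_pow]
    by_cases h : P.ord (L e i.1 y) = P.ord (L e j.1 y)
    · left; rw [h]
    · right
      rw [← mul_sub, abs_mul, Nat.abs_cast]
      have h1 : (1 : ℤ) ≤ |P.ord (L e i.1 y) - P.ord (L e j.1 y)| :=
        Int.one_le_abs (sub_ne_zero.2 h)
      have h2 : w * ((s + 1) * tn (s - 1)) ≤ d e :=
        ((Nat.mul_le_mul_right _ hwn).trans hN).trans (hd e)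
      have h3 : ((w * ((s + 1) * tn (s - 1)) : ℕ) : ℤ) ≤ d e := by exact_mod_cast h2
      have h4 : (0 : ℤ) ≤ d e := by positivity
      nlinarith
  rcases system hw htr g hg hsum hcard (fun _ => False) hjump with h | ⟨D, hD, hR⟩
  · exact absurd (general_of_log h) hgt
  choose R hRe hRD hRs using hR
  refine ⟨D, {z | ∃ e j, L e j y = 0 ∧ z = l e j},
    {p | ∃ (e : ι) (i j : J e), R e i j ∧ p = (l e i.1, l e j.1)}, hD, ?_, ?_, ?_⟩
  · rintro z ⟨e, j, hj, rfl⟩
    exact hj
  · rintro p ⟨e, i, j, hij, rfl⟩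
    have h2 := hRD e i j hij
    have hi := i.2
    have hj := j.2
    refine ⟨hi, hj, ?_⟩
    have hde : (d e : K) ≠ 0 := by exact_mod_cast (hd0 e).ne'
    change D (L e i.1 y ^ d e) * L e j.1 y ^ d e = L e i.1 y ^ d e * D (L e j.1 y ^ d e) at h2
    have hpow : ∀ x : K, x ≠ 0 → D (x ^ d e) = d e * x ^ d e * (D x / x) := by
      intro x hx
      rw [D.leibniz_pow]
      obtain ⟨q, hq⟩ : ∃ q, d e = q + 1 := ⟨d e - 1, by have := hd0 e; omega⟩
      rw [hq]
      simp only [nsmul_eq_mul, smul_eq_mul, Nat.add_sub_cancel]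
      field_simp
      ring
    rw [hpow _ hi, hpow _ hj] at h2
    have h3 : D (L e i.1 y) / L e i.1 y = D (L e j.1 y) / L e j.1 y := by
      have h4 : (d e : K) * L e i.1 y ^ d e * L e j.1 y ^ d e ≠ 0 :=
        mul_ne_zero (mul_ne_zero hde (pow_ne_zero _ hi)) (pow_ne_zero _ hj)
      apply mul_left_cancel₀ h4
      linear_combination h2
    change D (L e i.1 y / L e j.1 y) = 0
    rw [div_eq_mul_inv, D.leibniz, D.leibniz_inv]
    simp only [smul_eq_mul]
    field_simp at h3 ⊢
    linear_combination h3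
  · intro M _ _ _ _ x hZ hQ e
    rw [hvalM, hsub M e (fun j => lin (l e j) x ^ d e) (fun j hj => by
      rw [hZ _ ⟨e, j, hj, rfl⟩, zero_pow (hd0 e).ne'])]
    have hy0 : ∀ j : J e, algebraMap K M (L e j.1 y) ≠ 0 := fun j => by
      rw [Ne, map_eq_zero]
      exact j.2
    have h1 := weighted_sum (R e) (hRe e) (fun j : J e => algebraMap K M (g e j))
      (fun j => (lin (l e j.1) x / algebraMap K M (L e j.1 y)) ^ d e)
      (fun i j hij => by
        have h2 := hQ _ ⟨e, i, j, hij, rfl⟩
        change lin (l e i.1) x = algebraMap K M (L e i.1 y / L e j.1 y) * lin (l e j.1) x at h2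
        rw [map_div₀] at h2
        have := hy0 i
        have := hy0 j
        congr 1
        rw [h2]
        field_simp)
      (fun j0 A hA => by
        rw [← map_sum, hRs e j0 A hA, map_zero])
    refine Eq.trans (Finset.sum_congr rfl fun j _ => ?_) h1
    have := hy0 j
    change _ = _ * algebraMap K M (L e j.1 y ^ d e)
    rw [map_pow, ← mul_pow]
    congr 1
    field_simp

/-- a derivation from a transcendental generator -/
theorem delta_of [CharZero k] {K : Type} [Field K] [Algebra k K] (E : IntermediateField k K)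
    {σ : K} (hσt : Transcendental E σ) (hEtop : E⟮σ⟯ = ⊤) :
    ∃ δ : Derivation k K K, δ σ = σ ∧ (∀ x ∈ E, δ x = 0) ∧ (consts δ)⟮σ⟯ = ⊤ := by
  have hbasis : IsTranscendenceBasis E (fun _ : Unit => σ) := by
    have h1 : AlgebraicIndependent E (fun _ : Unit => σ) :=
      (algebraicIndependent_unique_type_iff).2 hσt
    rw [h1.isTranscendenceBasis_iff_isAlgebraic]
    apply alg_adjoin
    have h2 : Set.range (fun _ : Unit => σ) = {σ} := by simp
    rw [h2, hEtop]
    infer_instance
  have hcharE : CharZero E := charZero_of_injective_algebraMap (algebraMap k E).injective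
  obtain ⟨δ0, hδ0⟩ := exists_der (fun _ : Unit => σ) hbasis (fun _ => σ)
  let δ : Derivation k K K := δ0.restrictScalars k
  have hδE : ∀ x ∈ E, δ x = 0 := fun x hx => δ0.map_algebraMap (⟨x, hx⟩ : E)
  refine ⟨δ, hδ0 (), hδE, ?_⟩
  rw [eq_top_iff]
  intro x _
  have hx : x ∈ E⟮σ⟯ := by rw [hEtop]; exact IntermediateField.mem_top
  obtain ⟨r, t, hrt⟩ := (IntermediateField.mem_adjoin_simple_iff E x).1 hx
  have hmem : ∀ p : Polynomial E, Polynomial.aeval σ p ∈ (consts δ)⟮σ⟯ := by
    intro p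
    rw [Polynomial.aeval_eq_sum_range]
    refine sum_mem fun i _ => ?_
    rw [Algebra.smul_def]
    refine mul_mem ?_ (pow_mem (IntermediateField.mem_adjoin_simple_self _ σ) _)
    exact ((consts δ)⟮σ⟯).algebraMap_mem (⟨(p.coeff i : K), hδE _ (p.coeff i).2⟩ : consts δ)
  rw [hrt]
  exact div_mem (hmem r) (hmem t)

end Pool.Agent.W602.GT
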