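import Pool.Agent.W602.GT.KBd

/-!
The logarithmic Kodaira dimension of components of sparse quasi-projective varieties.
-/

set_option autoImplicit false

open FF IntermediateField Pool.Agent.W603.LV

namespace Pool.Agent.W602.GT

variable {k : Type} [Field k] {n : ℕ} {ι : Type}

/-- contractions from places -/
theorem contracts_of_place [CharZero k] [IsAlgClosed k] {U : Set (Fin (n + 1))}
    {F : ι → MvPolynomial (Fin (n + 1)) k} (hF : ∀ e, IsForm (F e)) {K : Type} [Field K]
    [Algebra k K] {w : ℕ} {y : Fin (n + 1) → K} (hy : SubVarU U F K w y)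
    (hcomp : IsComponentU U F y) (P : Place k K) (hP : ¬ OffU U y P)
    (hperp : ∀ (e : ι) (C : CD k (gg y (F e))) (a a' : Fin (C.m + 1)),
      ∑ l, df (C.e a) (C.e a') l * P.ord (y l) = 0)
    {i i' : Fin (n + 1)} (hi : y i ≠ 0) (hi' : y i' ≠ 0) (hne : P.ord (y i) ≠ P.ord (y i')) :
    ∃ b, Contracts U k y b := by
  classical
  have hinf : Infinite k := inferInstance
  obtain ⟨j0, hj0, hmin⟩ := Finset.exists_min_image (Finset.univ.filter fun j => y j ≠ 0)
    (fun j => P.ord (y j)) ⟨i, by simpa using hi⟩
  have hj0' : y j0 ≠ 0 := (Finset.mem_filter.1 hj0).2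
  have hmin' : ∀ j, y j ≠ 0 → P.ord (y j0) ≤ P.ord (y j) := fun j hj =>
    hmin j (Finset.mem_filter.2 ⟨Finset.mem_univ _, hj⟩)
  set μ := P.ord (y j0) with hμ
  let b : Fin (n + 1) → ℕ := fun j => if y j = 0 then 0 else (P.ord (y j) - μ).toNat
  have hb : ∀ j, y j ≠ 0 → (b j : ℤ) = P.ord (y j) - μ := by
    intro j hj
    simp only [b, if_neg hj]
    exact Int.toNat_of_nonneg (sub_nonneg.2 (hmin' j hj))
  refine ⟨b, contracts_of_hom (fun j hj => ?_) ⟨j0, hj0', ?_⟩ ?_ ?_⟩
  · have h1 : P.ord (y j) ≤ μ := by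
      unfold OffU at hP
      push Not at hP
      exact hP j hj j0 hj0'
    have h2 := hb j (hy.unit j hj)
    have h3 := hmin' j (hy.unit j hj)
    omega
  · have h2 := hb j0 hj0'
    omega
  · by_contra hcon
    push Not at hcon
    apply hne
    have h1 := hb i hi
    have h2 := hb i' hi'
    rw [hcon i hi] at h1
    rw [hcon i' hi'] at h2
    push_cast at h1 h2
    omega
  · refine ideal_hom hy hcomp (fun e v => wc_zero (hy.mem e) (fun C a a' => ?_) v)
    obtain ⟨d, hd⟩ := hF e
    have h1 : ∀ l, df (C.e a) (C.e a') l * (b l : ℤ) =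
        df (C.e a) (C.e a') l * P.ord (y l) - df (C.e a) (C.e a') l * μ := by
      intro l
      by_cases hl : y l = 0
      · rw [df_supp _ _ hl]
        ring
      · rw [hb l hl]
        ring
    rw [Finset.sum_congr rfl fun l _ => h1 l, Finset.sum_sub_distrib, hperp e C a a',
      ← Finset.sum_mul, df_sum hd, zero_mul, sub_zero]

/-- **The logarithmic Kodaira dimension.** A component of a sparse quasi-projective variety is
covered by affine lines, or its logarithmic Kodaira dimension is its dimension minus the dimension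
of a torus which acts on it. -/
theorem kod_main [CharZero k] [IsAlgClosed k] {U : Set (Fin (n + 1))}
    {F : ι → MvPolynomial (Fin (n + 1)) k} {s N : ℕ} (hF : ∀ e, IsPowSparse U s N (F e))
    (hN : n * ((s + 1) * tn (s - 1)) ≤ N) {K : Type} [Field K] [Algebra k K] {w : ℕ}
    {y : Fin (n + 1) → K} (hy : SubVarU U F K w y) (hcomp : IsComponentU U F y) :
    (∃ b, Contracts U k y b) ∨ ∃ (h p : ℕ) (b : Fin p → Fin (n + 1) → ℤ), h + p = w ∧
      (∀ l, Acts U k y (b l)) ∧
      (∀ c : Fin p → ℤ, (∀ j j', y j ≠ 0 → y j' ≠ 0 →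
        ∑ l, c l * b l j = ∑ l, c l * b l j') → c = 0) ∧
      KodGe k K w (OffU U y) h ∧ ¬ KodGe k K w (OffU U y) (h + 1) := by
  classical
  by_cases hcontr : ∃ b, Contracts U k y b
  · exact Or.inl hcontr
  right
  have hK : CharZero K := charZero_of_injective_algebraMap (algebraMap k K).injective
  obtain ⟨i0, hi0⟩ := Function.ne_iff.1 hy.ne
  have hi0' : y i0 ≠ 0 := hi0
  -- the differences of exponents in circuits
  let I : Type := Σ e : ι, Σ C : CD k (gg y (F e)), Fin (C.m + 1) × Fin (C.m + 1)
  let v : I → Fin (n + 1) → ℤ := fun i => df (i.2.1.e i.2.2.1) (i.2.1.e i.2.2.2)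
  obtain ⟨r, φ, hrn, hspan⟩ := span_pick v (fun i => by
    obtain ⟨d, hd⟩ := (hF i.1).1
    exact df_sum hd _ _)
  let m : Fin r → ℕ := fun i => (φ i).2.1.m
  let T : ∀ i, Fin (m i + 1) → K := fun i l => (φ i).2.1.c l • gg y (F (φ i).1) ((φ i).2.1.e l)
  let a : ∀ i, Fin (m i + 1) := fun i => (φ i).2.2.1
  let a' : ∀ i, Fin (m i + 1) := fun i => (φ i).2.2.2
  have hT : ∀ i j, T i j ≠ 0 := fun i j => smul_ne_zero ((φ i).2.1.hc j) (gg_ne _)
  have hordT : ∀ (P : Place k K) i j, P.ord (T i j) =
      P.ord (gg y (F (φ i).1) ((φ i).2.1.e j)) := fun P i j =>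
    ord_smul' P ((φ i).2.1.hc j) _
  let tt : Fin r → K := fun i => T i (a i) / T i (a' i)
  -- a transcendence basis
  obtain ⟨h, p, t, u, rfl, ht, hu, hbasis, hkill⟩ := basis_pick hy.dim (Set.range tt)
    {z | ∃ j, y j ≠ 0 ∧ z = y j / y i0} (by
      have h1 : Algebra.IsAlgebraic (coords k y) K := by
        rw [hy.gen]
        infer_instance
      refine alg_mono ?_ h1
      unfold coords
      rw [IntermediateField.adjoin_le_iff]
      rintro _ ⟨i, j, hj, rfl⟩
      have h2 : ∀ l, y l ≠ 0 → y l / y i0 ∈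
          IntermediateField.adjoin k {z | ∃ j, y j ≠ 0 ∧ z = y j / y i0} := fun l hl =>
        IntermediateField.subset_adjoin k _ ⟨l, hl, rfl⟩
      by_cases hi : y i = 0
      · rw [hi, zero_div]
        exact zero_mem _
      · have h3 := div_mem (h2 i hi) (h2 j hj)
        have h4 : y i / y i0 / (y j / y i0) = y i / y j := by field_simp
        rwa [h4] at h3)
  choose idx hidx using ht
  choose jj hjj hujj using hu
  have ht0 : ∀ i, t i ≠ 0 := fun i => by
    rw [← hidx]
    exact div_ne_zero (hT _ _) (hT _ _)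
  have hu0 : ∀ l, u l ≠ 0 := fun l => by
    rw [hujj]
    exact div_ne_zero (hjj l) hi0'
  -- the torus
  have hder : ∀ q : Fin p, ∃ D : Derivation k K K, (∀ i, D (t i) = 0) ∧
      ∀ l, D (u l) = if l = q then u l else 0 := by
    intro q
    obtain ⟨D, hD⟩ := exists_der (Sum.elim t u) hbasis
      (Sum.elim (fun _ => 0) (fun l => if l = q then u l else 0))
    exact ⟨D, fun i => hD (Sum.inl i), fun l => hD (Sum.inr l)⟩
  have hweights : ∀ q : Fin p, ∃ b : Fin (n + 1) → ℤ, b (jj q) ≠ b i0 ∧
      (∀ l, l ≠ q → b (jj l) = b i0) ∧ ∀ i, ∑ l, v i l * b l = 0 := by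
    intro q
    obtain ⟨D, hDt, hDu⟩ := hder q
    have hlam : ∀ l, D (y (jj l)) / y (jj l) - D (y i0) / y i0 = if l = q then 1 else 0 := by
      intro l
      have h1 := hDu l
      rw [hujj l] at h1
      have h2 := hjj l
      have h3 : D (y (jj l) / y i0) = (y (jj l) / y i0) *
          (D (y (jj l)) / y (jj l) - D (y i0) / y i0) := by
        rw [div_eq_mul_inv, D.leibniz, D.leibniz_inv]
        simp only [smul_eq_mul]
        field_simp
        ring
      rw [h3] at h1
      have h4 : y (jj l) / y i0 ≠ 0 := div_ne_zero h2 hi0'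
      apply mul_left_cancel₀ h4
      rw [h1]
      split_ifs <;> ring
    obtain ⟨b, hb1, hb2⟩ := int_weights (fun j => D (y j) / y j) (i := jj q) (i' := i0) (by
      intro h0
      have h1 := hlam q
      rw [if_pos rfl] at h1
      rw [h0, sub_self] at h1
      exact zero_ne_one h1)
    refine ⟨b, hb1, fun l hl => ?_, ?_⟩
    · have h1 := hb2 (fun j => (if j = jj l then 1 else 0) - (if j = i0 then 1 else 0)) (by
        have h2 := hlam l
        rw [if_neg hl] at h2
        simp only [Int.cast_sub, Int.cast_ite, Int.cast_one, Int.cast_zero, sub_mul, ite_mul,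
          one_mul, zero_mul, Finset.sum_sub_distrib, Finset.sum_ite_eq', Finset.mem_univ, if_true]
        exact h2)
      simp only [sub_mul, ite_mul, one_mul, zero_mul, Finset.sum_sub_distrib, Finset.sum_ite_eq',
        Finset.mem_univ, if_true] at h1
      exact sub_eq_zero.1 h1
    · apply hspan
      intro i
      apply hb2
      have h1 := hkill D hDt (tt i) ⟨i, rfl⟩
      have h2 := df_der D ((φ i).2.1.e (a i)) ((φ i).2.1.e (a' i))
      have hga := gg_ne ((φ i).2.1.e (a i))
      have hgb := gg_ne ((φ i).2.1.e (a' i))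
      have hca : algebraMap k K ((φ i).2.1.c (a i)) ≠ 0 := by
        rw [Ne, map_eq_zero]; exact (φ i).2.1.hc _
      have hcb : algebraMap k K ((φ i).2.1.c (a' i)) ≠ 0 := by
        rw [Ne, map_eq_zero]; exact (φ i).2.1.hc _
      have h3 : D (gg y (F (φ i).1) ((φ i).2.1.e (a i))) * gg y (F (φ i).1) ((φ i).2.1.e (a' i)) -
          gg y (F (φ i).1) ((φ i).2.1.e (a i)) * D (gg y (F (φ i).1) ((φ i).2.1.e (a' i))) = 0 := by
        change D ((φ i).2.1.c (a i) • gg y (F (φ i).1) ((φ i).2.1.e (a i)) /
          ((φ i).2.1.c (a' i) • gg y (F (φ i).1) ((φ i).2.1.e (a' i)))) = 0 at h1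
        rw [Algebra.smul_def, Algebra.smul_def, div_eq_mul_inv, D.leibniz, D.leibniz_inv,
          D.leibniz, D.leibniz, D.map_algebraMap, D.map_algebraMap] at h1
        simp only [smul_eq_mul, mul_zero, add_zero] at h1
        field_simp at h1
        rw [mul_zero] at h1
        have h2 := (mul_eq_zero.1 h1).resolve_left hca
        linear_combination h2
      rw [h3] at h2
      exact (mul_eq_zero.1 h2.symm).resolve_left (mul_ne_zero hga hgb)
  choose b hb1 hb2 hb3 using hweights
  have hH : ∀ l, ∀ G : MvPolynomial (Fin (n + 1)) k, IsForm G → val y G = 0 →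
      ∀ v, val y (wc (b l) v G) = 0 := fun l =>
    ideal_hom hy hcomp (fun e v' => wc_zero (hy.mem e) (fun C c c' => hb3 l ⟨e, C, c, c'⟩) v')
  have hle : ∀ h', KodGe k K (h + p) (OffU U y) h' → h' + p ≤ h + p := fun h' hk =>
    kod_le hy.unit hy.gen hy.dim b hi0' jj hjj hb1 hb2 hH hk
  refine ⟨h, p, b, rfl, fun l => acts_of_hom (hH l), ?_, ?_, fun hk => ?_⟩
  · intro c hc
    funext q
    have h1 := hc (jj q) i0 (hjj q) hi0'
    rw [← sub_eq_zero, ← Finset.sum_sub_distrib, Finset.sum_eq_single q] at h1
    · rw [← mul_sub] at h1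
      exact (mul_eq_zero.1 h1).resolve_right (sub_ne_zero.2 (hb1 q))
    · intro l _ hl
      rw [hb2 l q hl.symm, sub_self]
    · intro h2
      exact absurd (Finset.mem_univ _) h2
  · -- the sections
    let x : Fin (h + p) → K := Sum.elim t u ∘ finSumFinEquiv.symm
    have hx : IsTranscendenceBasis k x := hbasis.comp_equiv finSumFinEquiv.symm
    have hx0 : ∀ q, x q ≠ 0 := by
      intro q
      simp only [x, Function.comp_apply]
      rcases finSumFinEquiv.symm q with i | l
      · exact ht0 i
      · exact hu0 l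
    obtain ⟨g, hg0, hg, hP⟩ := coreK T hT (fun i => (φ i).2.1.rel) (fun i => (φ i).2.1.lin) x hx0 hx
    have hwt : wt m ≤ N := by
      refine le_trans ?_ hN
      unfold wt
      calc ∑ i, (m i + 2) * tn (m i) ≤ ∑ _i : Fin r, (s + 1) * tn (s - 1) := by
            refine Finset.sum_le_sum fun i _ => ?_
            have h3 : m i + 1 ≤ s := by
              have h4 := Fintype.card_le_of_injective _ (φ i).2.1.he
              simp only [Fintype.card_fin] at h4
              exact (h4.trans (gg_card _ _)).trans (hF _).2.1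
            exact Nat.mul_le_mul (by omega) (tn_mono (by omega))
        _ = r * ((s + 1) * tn (s - 1)) := by simp
        _ ≤ n * ((s + 1) * tn (s - 1)) := Nat.mul_le_mul_right _ hrn
    let cc : Fin (h + 1) → ∀ i, Fin (m i + 1) :=
      Fin.cases a' fun q => Function.update a' (idx q) (a (idx q))
    refine ⟨max 1 (wt m), by omega, fun j => form x (max 1 (wt m)) (g (cc j)),
      fun j => ⟨form_pluri _ _ _, fun P _ => (hP P).1 _, fun P _ hPU => (hP P).2 ?_ ?_ _⟩, ?_⟩
    · intro i j l
      rw [hordT, hordT]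
      exact gg_jump P hy.unit hPU (hF _) hwt _ _
    · intro hall
      have hperp : ∀ (e : ι) (C : CD k (gg y (F e))) (c c' : Fin (C.m + 1)),
          ∑ l, df (C.e c) (C.e c') l * P.ord (y l) = 0 := by
        intro e C c c'
        refine hspan (fun l => P.ord (y l)) (fun i => ?_) ⟨e, C, c, c'⟩
        have h1 := hall i (a i) (a' i)
        rw [hordT, hordT, ← sub_eq_zero, df_ord] at h1
        exact h1
      intro q
      simp only [x, Function.comp_apply]
      rcases finSumFinEquiv.symm q with i | l
      · simp only [Sum.elim_inl]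
        rw [← hidx, P.ord_div (hT _ _) (hT _ _), hall (idx i) (a (idx i)) (a' (idx i)), sub_self]
      · simp only [Sum.elim_inr]
        by_contra hne
        apply hcontr
        refine contracts_of_place (fun e => (hF e).1) hy hcomp P hPU hperp (hjj l) hi0' ?_
        intro h0
        apply hne
        rw [hujj, P.ord_div (hjj l) hi0', h0, sub_self]
    · obtain ⟨D, hD⟩ := exists_dual hx
      have hf : ∀ c, form x (max 1 (wt m)) (g c) D = g c := fun c => by
        unfold form
        rw [hD, Matrix.det_one, one_pow, mul_one]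
      refine ⟨D, by change form x (max 1 (wt m)) (g (cc 0)) D ≠ 0; rw [hf]; exact hg0 _, ?_⟩
      have h1 : ∀ q : Fin h, g (cc q.succ) / g (cc 0) = t q := by
        intro q
        have h2 := hg (cc q.succ) (cc 0)
        have h3 : ∏ i, T i (cc q.succ i) = (∏ i, T i (cc 0 i)) * t q := by
          change ∏ i, T i (Function.update a' (idx q) (a (idx q)) i) = (∏ i, T i (a' i)) * t q
          rw [← Finset.mul_prod_erase Finset.univ _ (Finset.mem_univ (idx q)),
            ← Finset.mul_prod_erase Finset.univ (fun i => T i (a' i)) (Finset.mem_univ (idx q))]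
          have h4 : ∏ i ∈ Finset.univ.erase (idx q),
              T i (Function.update a' (idx q) (a (idx q)) i) =
              ∏ i ∈ Finset.univ.erase (idx q), T i (a' i) := by
            refine Finset.prod_congr rfl fun i hi => ?_
            rw [Function.update_of_ne (Finset.ne_of_mem_erase hi)]
          rw [h4, Function.update_self, ← hidx q]
          have h5 := hT (idx q) (a' (idx q))
          simp only [tt]
          field_simp
        rw [h3] at h2
        have h4 : ∏ i, T i (cc 0 i) ≠ 0 := Finset.prod_ne_zero_iff.2 fun i _ => hT _ _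
        have h5 := hg0 (cc 0)
        rw [div_eq_iff h5]
        apply mul_right_cancel₀ h4
        rw [h2]
        ring
      simp only [hf, h1]
      exact hbasis.1.comp Sum.inl Sum.inl_injective
  · have := hle _ hk
    omega

end Pool.Agent.W602.GT
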