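import Pool.Agent.W602.GT.Orb
import Pool.Agent.W602.GT.KNeg

/-!
The vector field of a diagonal one-parameter group.
-/

set_option autoImplicit false

open FF IntermediateField Pool.Agent.W603.LV

namespace Pool.Agent.W602.GT

variable {k K : Type} [Field k] [Field K] [Algebra k K] {n : ℕ}

/-- The vector field of a diagonal one-parameter group which preserves a variety. -/
theorem exists_delta [CharZero k] {y : Fin (n + 1) → K}
    (hgen : coords k y = ⊤) (b : Fin (n + 1) → ℤ) {i i' : Fin (n + 1)} (hi : y i ≠ 0)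
    (hi' : y i' ≠ 0) (hb : b i ≠ b i')
    (hH : ∀ G : MvPolynomial (Fin (n + 1)) k, IsForm G → val y G = 0 →
      ∀ v, val y (wc b v G) = 0) :
    ∃ (δ : Derivation k K K) (σ : K) (g : ℤ) (b' : Fin (n + 1) → ℤ), σ ≠ 0 ∧ δ σ = σ ∧
      (consts δ)⟮σ⟯ = ⊤ ∧ 0 < g ∧ (∀ j, y j ≠ 0 → b j - b i = g * b' j) ∧
      ∀ j, y j ≠ 0 → ∃ z, z ≠ 0 ∧ δ z = 0 ∧ y j / y i = z * σ ^ (b' j) := by
  classical
  let β : Fin (n + 1) → ℤ := fun j => if y j ≠ 0 then b j - b i else 0
  obtain ⟨g, b', c, hgpos, hβ, hc⟩ : ∃ (g : ℤ) (b' c : Fin (n + 1) → ℤ), 0 < g ∧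
      (∀ j, β j = g * b' j) ∧ ∑ j, c j * b' j = 1 := by
    obtain ⟨g, b', c, hg, hβ, hc⟩ := exists_weights β ⟨i', by
      simp only [β, if_pos hi']
      exact sub_ne_zero.2 hb.symm⟩
    rcases lt_or_gt_of_ne hg with h | h
    · refine ⟨-g, fun j => - b' j, fun j => - c j, by omega, fun j => by rw [hβ j]; ring, ?_⟩
      rw [← hc]
      exact Finset.sum_congr rfl fun j _ => by ring
    · exact ⟨g, b', c, h, hβ, hc⟩
  have hg : g ≠ 0 := hgpos.ne'
  have hX : (RatFunc.X : RatFunc K) ≠ 0 := RatFunc.X_ne_zero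
  let y' : Fin (n + 1) → RatFunc K := fun j => RatFunc.X ^ b j * algebraMap K (RatFunc K) (y j)
  have hy' : y' i ≠ 0 := mul_ne_zero (zpow_ne_zero _ hX) (by rw [Ne, map_eq_zero]; exact hi)
  obtain ⟨φ, hφ⟩ := exists_embedding (L := RatFunc K) hi hy' hgen (orbit_iff y b hH)
  let r : Fin (n + 1) → K := fun j => if y j ≠ 0 then y j / y i else 1
  have hr0 : ∀ j, r j ≠ 0 := by
    intro j
    simp only [r]
    split_ifs with h
    · exact div_ne_zero h hi
    · exact one_ne_zero
  have hrφ : ∀ j, φ (r j) = RatFunc.X ^ β j * algebraMap K (RatFunc K) (r j) := by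
    intro j
    by_cases h : y j ≠ 0
    · simp only [r, β, if_pos h]
      rw [hφ]
      simp only [y']
      rw [map_div₀, zpow_sub₀ hX]
      have h1 : algebraMap K (RatFunc K) (y i) ≠ 0 := by rw [Ne, map_eq_zero]; exact hi
      have h2 : (RatFunc.X : RatFunc K) ^ b i ≠ 0 := zpow_ne_zero _ hX
      field_simp
    · simp only [r, β, if_neg h]
      simp
  set σ : K := ∏ j, r j ^ c j with hσdef
  have hσ0 : σ ≠ 0 := Finset.prod_ne_zero_iff.2 fun j _ => zpow_ne_zero _ (hr0 j)
  have hσφ : φ σ = RatFunc.X ^ g * algebraMap K (RatFunc K) σ := by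
    have h1 : g = ∑ j, c j * β j := by
      have h2 : ∑ j, c j * β j = g * ∑ j, c j * b' j := by
        rw [Finset.mul_sum]
        exact Finset.sum_congr rfl fun j _ => by rw [hβ j]; ring
      rw [h2, hc, mul_one]
    have h2 : (RatFunc.X : RatFunc K) ^ (∑ j, c j * β j) = ∏ j, (RatFunc.X ^ β j) ^ c j := by
      have h4 : ∀ s : Finset (Fin (n + 1)), (RatFunc.X : RatFunc K) ^ (∑ j ∈ s, c j * β j) =
          ∏ j ∈ s, ((RatFunc.X : RatFunc K) ^ β j) ^ c j := by
        intro s
        induction s using Finset.induction_on with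
        | empty => simp
        | insert a s ha ih =>
          rw [Finset.sum_insert ha, Finset.prod_insert ha, zpow_add₀ hX, ih,
            mul_comm (c a), zpow_mul]
      exact h4 _
    rw [h1, h2, hσdef, map_prod, map_prod, ← Finset.prod_mul_distrib]
    refine Finset.prod_congr rfl fun j _ => ?_
    rw [map_zpow₀, hrφ, map_zpow₀, mul_zpow]
  let z : Fin (n + 1) → K := fun j => r j * σ ^ (- b' j)
  have hz0 : ∀ j, z j ≠ 0 := fun j => mul_ne_zero (hr0 j) (zpow_ne_zero _ hσ0)
  have hrz : ∀ j, r j = z j * σ ^ (b' j) := by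
    intro j
    simp only [z]
    rw [mul_assoc, ← zpow_add₀ hσ0]
    simp
  have hzφ : ∀ j, φ (z j) = algebraMap K (RatFunc K) (z j) := by
    intro j
    simp only [z]
    rw [map_mul, map_zpow₀, hrφ, hσφ, map_mul, map_zpow₀, mul_zpow, ← zpow_mul, hβ j]
    have h1 : (RatFunc.X : RatFunc K) ^ (g * b' j) * RatFunc.X ^ (g * -b' j) = 1 := by
      rw [← zpow_add₀ hX]
      have : g * b' j + g * -b' j = 0 := by ring
      rw [this, zpow_zero]
    linear_combination (algebraMap K (RatFunc K) (r j) *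
      algebraMap K (RatFunc K) σ ^ (-b' j)) * h1
  set E : IntermediateField k K := IntermediateField.adjoin k (Set.range z) with hE
  have hEφ : ∀ x ∈ E, φ x = algebraMap K (RatFunc K) x := by
    intro x hx
    induction hx using IntermediateField.adjoin_induction with
    | mem x hx =>
      obtain ⟨j, rfl⟩ := hx
      exact hzφ j
    | algebraMap c =>
      rw [φ.commutes]
      exact IsScalarTower.algebraMap_apply k K (RatFunc K) c
    | add x y _ _ hx hy => rw [map_add, map_add, hx, hy]
    | inv x _ hx => rw [map_inv₀, map_inv₀, hx]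
    | mul x y _ _ hx hy => rw [map_mul, map_mul, hx, hy]
  have hσt : Transcendental E σ := by
    intro halg
    let φ' : K →ₐ[E] RatFunc K := { φ with
      commutes' := fun e => by
        change φ (e : K) = _
        rw [hEφ _ e.2]
        rfl }
    have h1 : IsAlgebraic E (φ' σ) := halg.algHom φ'
    have h2 : IsAlgebraic K (φ' σ) := h1.tower_top K
    have h3 : φ' σ = RatFunc.X ^ g * algebraMap K (RatFunc K) σ := hσφ
    rw [h3] at h2
    have h4 : IsAlgebraic K ((RatFunc.X : RatFunc K) ^ g) := by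
      have h5 := h2.mul (isAlgebraic_algebraMap (A := RatFunc K) (σ⁻¹ : K))
      have h6 : (RatFunc.X : RatFunc K) ^ g * algebraMap K (RatFunc K) σ *
          algebraMap K (RatFunc K) σ⁻¹ = RatFunc.X ^ g := by
        rw [mul_assoc, ← map_mul, mul_inv_cancel₀ hσ0, map_one, mul_one]
      rwa [h6] at h5
    have h5 : IsAlgebraic K ((RatFunc.X : RatFunc K) ^ g.natAbs) := by
      rcases Int.natAbs_eq g with h | h
      · rw [h, zpow_natCast] at h4
        exact h4
      · rw [h, zpow_neg, zpow_natCast] at h4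
        have := h4.inv
        rwa [inv_inv] at this
    have h6 : IsAlgebraic K (RatFunc.X : RatFunc K) :=
      h5.of_pow (Int.natAbs_pos.2 hg)
    exact RatFunc.transcendental_X h6
  have hmemtop : ∀ L : IntermediateField k K, (∀ j, r j ∈ L) → L = ⊤ := by
    intro L hL
    rw [eq_top_iff, ← hgen]
    unfold coords
    rw [IntermediateField.adjoin_le_iff]
    rintro _ ⟨l, j, hj, rfl⟩
    by_cases hl : y l = 0
    · rw [hl, zero_div]
      exact zero_mem L
    · have h1 := div_mem (hL l) (hL j)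
      simp only [r, if_pos hj] at h1
      rw [if_pos hl] at h1
      have h2 : y l / y i / (y j / y i) = y l / y j := by field_simp
      rwa [h2] at h1
  have hEtop : E⟮σ⟯ = ⊤ := by
    have h1 := hmemtop (E⟮σ⟯.restrictScalars k) (fun j => by
      rw [hrz]
      have h1 : z j ∈ E⟮σ⟯ := (E⟮σ⟯).algebraMap_mem
        (⟨z j, IntermediateField.subset_adjoin k _ ⟨j, rfl⟩⟩ : E)
      exact mul_mem h1 (zpow_mem (IntermediateField.mem_adjoin_simple_self E σ) _))
    rw [eq_top_iff]
    intro x _
    have h2 : x ∈ (E⟮σ⟯.restrictScalars k) := by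
      rw [h1]; exact IntermediateField.mem_top
    exact h2
  have hbasis : IsTranscendenceBasis E (fun _ : Unit => σ) := by
    have h1 : AlgebraicIndependent E (fun _ : Unit => σ) :=
      (algebraicIndependent_unique_type_iff).2 hσt
    rw [h1.isTranscendenceBasis_iff_isAlgebraic]
    apply alg_adjoin
    have h2 : Set.range (fun _ : Unit => σ) = {σ} := by simp
    rw [h2, hEtop]
    infer_instance
  have hcharE : CharZero E := charZero_of_injective_algebraMap (algebraMap k E).injective
  obtain ⟨δ0, hδ0⟩ := exists_der (fun _ : Unit => σ) hbasis (fun _ => σ)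
  let δ : Derivation k K K := δ0.restrictScalars k
  have hδσ : δ σ = σ := hδ0 ()
  have hδz : ∀ j, δ (z j) = 0 := by
    intro j
    have h1 : z j = algebraMap E K ⟨z j, IntermediateField.subset_adjoin k _ ⟨j, rfl⟩⟩ := rfl
    change δ0 (z j) = 0
    rw [h1]
    exact δ0.map_algebraMap _
  have htop : (consts δ)⟮σ⟯ = ⊤ := by
    have h1 := hmemtop ((consts δ)⟮σ⟯.restrictScalars k) (fun j => by
      rw [hrz]
      have h1 : z j ∈ (consts δ)⟮σ⟯ := ((consts δ)⟮σ⟯).algebraMap_mem
        (⟨z j, hδz j⟩ : consts δ)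
      exact mul_mem h1 (zpow_mem (IntermediateField.mem_adjoin_simple_self (consts δ) σ) _))
    rw [eq_top_iff]
    intro x _
    have h2 : x ∈ ((consts δ)⟮σ⟯.restrictScalars k) := by
      rw [h1]; exact IntermediateField.mem_top
    exact h2
  refine ⟨δ, σ, g, b', hσ0, hδσ, htop, hgpos, fun j hj => ?_, fun j hj => ?_⟩
  · have h1 := hβ j
    simp only [β, if_pos hj] at h1
    exact h1
  · refine ⟨z j, hz0 j, hδz j, ?_⟩
    have h1 := hrz j
    simp only [r, if_pos hj] at h1
    exact h1

end Pool.Agent.W602.GT
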