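import Pool.Agent.W602.GT.KSum

/-!
Transcendence bases adapted to a subset, and bases of differences of exponents.
-/

set_option autoImplicit false

open FF IntermediateField Pool.Agent.W603.LV

namespace Pool.Agent.W602.GT

variable {k K : Type} [Field k] [Field K] [Algebra k K]

/-- derivations vanish on elements which are algebraic over the constants -/
theorem der_of_alg [CharZero k] (D : Derivation k K K) {z : K} (hz : IsAlgebraic (consts D) z) :
    D z = 0 := by
  have hint : IsIntegral (consts D) z := hz.isIntegral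
  have hchar : CharZero (consts D) := charZero_of_injective_algebraMap
    (algebraMap k (consts D)).injective
  have h1 : overConsts D (Polynomial.aeval z (minpoly (consts D) z)) = 0 := by
    rw [minpoly.aeval, map_zero]
  rw [Derivation.map_aeval] at h1
  have h2 : Polynomial.aeval z (Polynomial.derivative (minpoly (consts D) z)) ≠ 0 :=
    (minpoly.irreducible hint).separable.aeval_derivative_ne_zero (minpoly.aeval _ _)
  rw [smul_eq_mul, overConsts_apply] at h1
  exact (mul_eq_zero.mp h1).resolve_left h2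

/-- A transcendence basis which begins with a maximal independent part of `S1`. -/
theorem basis_pick [CharZero k] {w : ℕ} (htr : Algebra.trdeg k K = w) (S1 S2 : Set K)
    (hS2 : Algebra.IsAlgebraic (IntermediateField.adjoin k S2) K) :
    ∃ (h p : ℕ) (t : Fin h → K) (u : Fin p → K), h + p = w ∧ (∀ i, t i ∈ S1) ∧ (∀ i, u i ∈ S2) ∧
      IsTranscendenceBasis k (Sum.elim t u) ∧
      ∀ D : Derivation k K K, (∀ i, D (t i) = 0) → ∀ s ∈ S1, D s = 0 := by
  classical
  obtain ⟨B1, -, ⟨hB1, hB1S⟩, hmax⟩ := exists_maximal_algebraicIndependent (R := k) (A := K) ∅ S1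
    (Set.empty_subset _)
    ((algebraicIndependent_empty_iff k K).2 (algebraMap k K).injective)
  have halg : Algebra.IsAlgebraic (Algebra.adjoin k (B1 ∪ S2)) K := by
    apply alg_adjoin
    have hle : IntermediateField.adjoin k S2 ≤ IntermediateField.adjoin k (B1 ∪ S2) :=
      IntermediateField.adjoin.mono k _ _ Set.subset_union_right
    exact alg_mono hle hS2
  obtain ⟨B, hBB, hB2, hB⟩ := exists_isTranscendenceBasis_between (R := k) (A := K) B1 (B1 ∪ S2)
    Set.subset_union_left hB1
  have hcard : Cardinal.mk B = (w : Cardinal) := by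
    rw [← htr]
    exact hB.cardinalMk_eq_trdeg
  have hfinB : B.Finite := by
    rw [← Set.finite_coe_iff, ← Cardinal.lt_aleph0_iff_finite, hcard]
    exact Cardinal.natCast_lt_aleph0
  have hfin1 : Finite B1 := (hfinB.subset hBB).to_subtype
  have hfin2 : Finite (B \ B1 : Set K) := (hfinB.subset Set.sdiff_subset).to_subtype
  obtain ⟨h, ⟨φ⟩⟩ := Finite.exists_equiv_fin B1
  obtain ⟨p, ⟨ψ⟩⟩ := Finite.exists_equiv_fin (B \ B1 : Set K)
  let E : Fin h ⊕ Fin p ≃ B :=
    (Equiv.sumCongr φ.symm ψ.symm).trans (Equiv.Set.sumDiffSubset hBB)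
  have hE : Sum.elim (fun i => (φ.symm i : K)) (fun i => (ψ.symm i : K)) =
      (Subtype.val : B → K) ∘ E := by
    funext i
    rcases i with i | i
    · simp [E]
    · simp [E]
  refine ⟨h, p, fun i => (φ.symm i : K), fun i => (ψ.symm i : K), ?_, fun i => hB1S (φ.symm i).2,
    fun i => ?_, ?_, ?_⟩
  · have h1 := Cardinal.mk_congr E
    rw [hcard, Cardinal.mk_sum] at h1
    simp only [Cardinal.mk_fin, Cardinal.lift_natCast] at h1
    exact_mod_cast h1
  · have h1 := (ψ.symm i).2
    exact (hB2 h1.1).resolve_left h1.2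
  · rw [hE]
    exact hB.comp_equiv E
  · intro D hD s hs
    by_cases hsB : s ∈ B1
    · have h1 : D ((φ.symm (φ ⟨s, hsB⟩) : B1) : K) = 0 := hD (φ ⟨s, hsB⟩)
      rwa [Equiv.symm_apply_apply] at h1
    · have h1 : ¬ AlgebraicIndepOn k id (insert s B1) := by
        intro h2
        have h3 := hmax ⟨h2, Set.insert_subset hs hB1S⟩ (Set.subset_insert s B1)
        exact hsB (h3 (Set.mem_insert s B1))
      have h2 : IsAlgebraic (Algebra.adjoin k (id '' B1)) s := by
        by_contra h3
        exact h1 (AlgebraicIndepOn.insert (i := s) hB1 h3)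
      apply der_of_alg
      rw [Set.image_id] at h2
      have hle : Algebra.adjoin k B1 ≤ (consts D).toSubalgebra := by
        rw [Algebra.adjoin_le_iff]
        intro z hz
        have h4 : D ((φ.symm (φ ⟨z, hz⟩) : B1) : K) = 0 := hD (φ ⟨z, hz⟩)
        rw [Equiv.symm_apply_apply] at h4
        exact h4
      obtain ⟨q, hq0, hq⟩ := h2
      refine ⟨q.map (Subalgebra.inclusion hle).toRingHom, ?_, ?_⟩
      · exact (Polynomial.map_ne_zero_iff (Subalgebra.inclusion_injective hle)).2 hq0
      · rw [Polynomial.aeval_def, Polynomial.eval₂_map]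
        exact hq

/-- a basis of the span of vectors with coordinate sum zero -/
theorem span_pick {n : ℕ} {I : Type} (v : I → Fin (n + 1) → ℤ) (hv : ∀ i, ∑ l, v i l = 0) :
    ∃ (r : ℕ) (φ : Fin r → I), r ≤ n ∧ ∀ b : Fin (n + 1) → ℤ,
      (∀ i, ∑ l, v (φ i) l * b l = 0) → ∀ i, ∑ l, v i l * b l = 0 := by
  classical
  let S : Set (Fin (n + 1) → ℚ) := Set.range fun i l => (v i l : ℚ)
  obtain ⟨B, hBS, hspan, hlin⟩ := exists_linearIndependent ℚ S
  have hfin : Finite B := hlin.finite
  have : Fintype B := Fintype.ofFinite B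
  obtain ⟨r, ⟨ψ⟩⟩ := Finite.exists_equiv_fin B
  have hB : ∀ x : B, ∃ i, (fun l => (v i l : ℚ)) = x := fun x => hBS x.2
  choose f hf using hB
  let Sf : (Fin (n + 1) → ℚ) →ₗ[ℚ] ℚ := ∑ l, LinearMap.proj l
  have hSf : ∀ x, Sf x = ∑ l, x l := by
    intro x
    simp [Sf]
  refine ⟨r, fun i => f (ψ.symm i), ?_, ?_⟩
  · have h1 : Submodule.span ℚ B ≤ LinearMap.ker Sf := by
      rw [Submodule.span_le]
      intro x hx
      obtain ⟨i, hi⟩ := hBS hx
      change Sf x = 0
      rw [hSf, ← hi]
      have := hv i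
      beta_reduce
      exact_mod_cast this
    have h2 := Submodule.finrank_mono h1
    rw [finrank_span_set_eq_card hlin, Set.toFinset_card, Fintype.card_congr ψ,
      Fintype.card_fin] at h2
    have h3 := LinearMap.finrank_range_add_finrank_ker Sf
    have h4 : LinearMap.range Sf = ⊤ := by
      rw [LinearMap.range_eq_top]
      intro q
      refine ⟨Pi.single 0 q, ?_⟩
      rw [hSf]
      simp
    rw [h4, finrank_top, Module.finrank_self, Module.finrank_fin_fun] at h3
    omega
  · intro b hb i
    let L : (Fin (n + 1) → ℚ) →ₗ[ℚ] ℚ := ∑ l, (b l : ℚ) • LinearMap.proj l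
    have hL : ∀ x, L x = ∑ l, x l * b l := by
      intro x
      simp [L, mul_comm]
    have h1 : Submodule.span ℚ B ≤ LinearMap.ker L := by
      rw [Submodule.span_le]
      intro x hx
      change L x = 0
      have h2 : ∑ l, v (f (ψ.symm (ψ ⟨x, hx⟩))) l * b l = 0 := hb (ψ ⟨x, hx⟩)
      rw [Equiv.symm_apply_apply] at h2
      have h3 := hf ⟨x, hx⟩
      change (fun l => (v (f ⟨x, hx⟩) l : ℚ)) = x at h3
      rw [hL, ← h3]
      beta_reduce
      exact_mod_cast h2
    have h2 : (fun l => (v i l : ℚ)) ∈ Submodule.span ℚ B := by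
      rw [hspan]
      exact Submodule.subset_span ⟨i, rfl⟩
    have h3 := h1 h2
    change L _ = 0 at h3
    rw [hL] at h3
    exact_mod_cast h3

end Pool.Agent.W602.GT
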