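import Pool.Agent.W602.GT.KDefs

/-!
Pseudo-effectivity of the canonical and the log canonical bundle of a function field.
-/

set_option autoImplicit false

open FF

namespace Pool.Agent.W602.GT

variable {k K : Type} [Field k] [Field K] [Algebra k K]

/-- `f` is zero, or its order at `P` is at least `j` times the order of some nonzero element of
`S`: `f` is regular at `P` as a section of `j A`, where `A` is the divisor, on suitable models,
which is generated by the elements of `S`. -/
def TwReg (P : Place k K) (S : Finset K) (j : ℕ) (f : K) : Prop :=
  f = 0 ∨ ∃ s ∈ S, s ≠ 0 ∧ (j : ℤ) * P.ord s ≤ P.ord f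

variable (k K)

/-- `ω` is a section of `N (K_X + D) + j A`: at all prime divisors its values on logarithmic
vector fields, and at the prime divisors which are not in `Bd` also its values on regular vector
fields, are regular as sections of `j A`. -/
def TwSec (w N : ℕ) (Bd : Place k K → Prop) (S : Finset K) (j : ℕ)
    (ω : (Fin w → Derivation k K K) → K) : Prop :=
  IsPluri N ω ∧
  (∀ P : Place k K, Divisorial w P → ∀ D : Fin w → Derivation k K K, (∀ i, DerLog P (D i)) →
    TwReg P S j (ω D)) ∧
  ∀ P : Place k K, Divisorial w P → ¬ Bd P → ∀ D : Fin w → Derivation k K K,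
    (∀ i, DerReg P (D i)) → TwReg P S j (ω D)

/-- `K_X + D` is pseudo-effective: there is a divisor `A`, generated by a finite set `S` of
functions, such that for every `N` some multiple `j (N (K_X + D) + A)` has a nonzero section. -/
def Psef (w : ℕ) (Bd : Place k K → Prop) : Prop :=
  ∃ S : Finset K, ∀ N : ℕ, ∃ j : ℕ, 0 < j ∧ ∃ ω : (Fin w → Derivation k K K) → K,
    TwSec k K w (j * N) Bd S j ω ∧ ∃ D, ω D ≠ 0

/-- The varieties with function field `K` are birational to `B × ℙ¹` for some variety `B`: `K` is
generated by one transcendental element over a subfield. -/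
def Ruled : Prop :=
  ∃ (C : IntermediateField k K) (σ : K), Transcendental C σ ∧
    IntermediateField.adjoin C {σ} = ⊤

end Pool.Agent.W602.GT
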