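import Pool.Agent.W602.GT.KNeg
import Pool.Agent.W602.GT.PsefDefs

/-!
Ruled function fields: the log canonical bundle is not pseudo-effective.
-/

set_option autoImplicit false

open FF IntermediateField Pool.Agent.W603.LV

namespace Pool.Agent.W602.GT

variable {k K : Type} [Field k] [Field K] [Algebra k K]

/-- an element of `C[σ]` times a power of `σ⁻¹` lies in `C[σ⁻¹]` -/
theorem adjoin_flip (C : IntermediateField k K) {σ τ : K} (hστ : σ * τ = 1) {q : K}
    (hq : q ∈ Algebra.adjoin C {σ}) : ∃ d : ℕ, q * τ ^ d ∈ Algebra.adjoin C {τ} := by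
  induction hq using Algebra.adjoin_induction with
  | mem z hz =>
    rw [Set.mem_singleton_iff] at hz
    subst hz
    exact ⟨1, by rw [pow_one, hστ]; exact Subalgebra.one_mem _⟩
  | algebraMap r => exact ⟨0, by rw [pow_zero, mul_one]; exact Subalgebra.algebraMap_mem _ r⟩
  | add f g _ _ hf hg =>
    obtain ⟨d, hd⟩ := hf
    obtain ⟨e, he⟩ := hg
    have hτ := Algebra.self_mem_adjoin_singleton C τ
    refine ⟨d + e, ?_⟩
    have h1 : (f + g) * τ ^ (d + e) = f * τ ^ d * τ ^ e + g * τ ^ e * τ ^ d := by ring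
    rw [h1]
    exact Subalgebra.add_mem _ (Subalgebra.mul_mem _ hd (Subalgebra.pow_mem _ hτ e))
      (Subalgebra.mul_mem _ he (Subalgebra.pow_mem _ hτ d))
  | mul f g _ _ hf hg =>
    obtain ⟨d, hd⟩ := hf
    obtain ⟨e, he⟩ := hg
    refine ⟨d + e, ?_⟩
    have h1 : f * g * τ ^ (d + e) = (f * τ ^ d) * (g * τ ^ e) := by ring
    rw [h1]
    exact Subalgebra.mul_mem _ hd he

/-- a common denominator -/
theorem exists_denom (C : IntermediateField k K) {τ : K} (htop : C⟮τ⟯ = ⊤) (S : Finset K) :
    ∃ q ∈ Algebra.adjoin C {τ}, q ≠ 0 ∧ ∀ s ∈ S, q * s ∈ Algebra.adjoin C {τ} := by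
  classical
  induction S using Finset.induction_on with
  | empty => exact ⟨1, Subalgebra.one_mem _, one_ne_zero, by simp⟩
  | insert a S _ ih =>
    obtain ⟨q, hq, hq0, hqs⟩ := ih
    have ha : a ∈ C⟮τ⟯ := by rw [htop]; exact IntermediateField.mem_top
    obtain ⟨r, t, hrt⟩ := (IntermediateField.mem_adjoin_simple_iff C a).1 ha
    have hr : Polynomial.aeval τ r ∈ Algebra.adjoin C {τ} := Polynomial.aeval_mem_adjoin_singleton C τ
    have ht : Polynomial.aeval τ t ∈ Algebra.adjoin C {τ} := Polynomial.aeval_mem_adjoin_singleton C τ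
    by_cases h0 : Polynomial.aeval τ t = 0
    · refine ⟨q, hq, hq0, fun s hs => ?_⟩
      rcases Finset.mem_insert.1 hs with rfl | hs
      · rw [hrt, h0, div_zero, mul_zero]
        exact Subalgebra.zero_mem _
      · exact hqs s hs
    · refine ⟨q * Polynomial.aeval τ t, Subalgebra.mul_mem _ hq ht, mul_ne_zero hq0 h0,
        fun s hs => ?_⟩
      rcases Finset.mem_insert.1 hs with rfl | hs
      · have h1 : q * Polynomial.aeval τ t * s = q * Polynomial.aeval τ r := by
          rw [hrt]
          field_simp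
        rw [h1]
        exact Subalgebra.mul_mem _ hq hr
      · have h1 : q * Polynomial.aeval τ t * s = q * s * Polynomial.aeval τ t := by ring
        rw [h1]
        exact Subalgebra.mul_mem _ (hqs s hs) ht

/-- clearing denominators of sections of `j A` -/
theorem twReg_mul {P : Place k K} {S : Finset K} {j : ℕ} {f q : K} (h : TwReg P S j f)
    (hq : ∀ s ∈ S, P.Reg (q * s)) (hq0 : q ≠ 0) : P.Reg (f * q ^ j) := by
  rcases h with h | ⟨s, hs, hs0, h⟩
  · rw [h, zero_mul]
    exact P.reg_zero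
  · by_cases hf : f = 0
    · rw [hf, zero_mul]
      exact P.reg_zero
    have h1 := hq s hs
    rw [Place.reg_iff _ (mul_ne_zero hq0 hs0), P.ord_mul hq0 hs0] at h1
    rw [Place.reg_iff _ (mul_ne_zero hf (pow_ne_zero _ hq0)), P.ord_mul hf (pow_ne_zero _ hq0),
      P.ord_pow]
    have h2 : (0 : ℤ) ≤ j := by positivity
    nlinarith

/-- **Ruled fields.** Let `δ` be a derivation with `δ σ = σ` such that `K` is generated by `σ` over
the constants of `δ`, and suppose that the places which are trivial on the constants and at which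
`σ` is regular have a centre. Then `K_X + D` is not pseudo-effective. -/
theorem not_psef [CharZero k] {w : ℕ} (htr : Algebra.trdeg k K = w) {Bd : Place k K → Prop}
    (δ : Derivation k K K) {σ : K}
    (hσ0 : σ ≠ 0) (hσ : δ σ = σ) (htop : (consts δ)⟮σ⟯ = ⊤)
    (hBd : ∀ P : Place k K, (∀ c : K, δ c = 0 → c ≠ 0 → P.ord c = 0) → 0 ≤ P.ord σ → ¬ Bd P) :
    ¬ Psef k K w Bd := by
  classical
  set C := consts δ with hC
  -- `σ` is transcendental over the constants
  have hσt : Transcendental C σ := by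
    intro halg
    have h1 : Algebra.IsAlgebraic C K := by
      have h2 : Algebra.IsAlgebraic C C⟮σ⟯ :=
        IntermediateField.isAlgebraic_adjoin_simple halg.isIntegral
      constructor
      intro z
      have h3 := h2.isAlgebraic (⟨z, by rw [htop]; exact IntermediateField.mem_top⟩ : C⟮σ⟯)
      exact h3.algebraMap (A := K)
    have h2 : Algebra.IsAlgebraic (IntermediateField.adjoin k (C : Set K)) K := by
      rw [IntermediateField.adjoin_self]
      exact h1
    have h3 := der_eq_zero δ _ h2 (fun s hs => hs)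
    rw [h3] at hσ
    exact hσ0 hσ.symm
  -- a transcendence basis
  obtain ⟨B, hB⟩ := exists_isTranscendenceBasis k C
  have hσb : IsTranscendenceBasis C (fun _ : Unit => σ) := by
    have h1 : AlgebraicIndependent C (fun _ : Unit => σ) :=
      (algebraicIndependent_unique_type_iff).2 hσt
    rw [h1.isTranscendenceBasis_iff_isAlgebraic]
    apply alg_adjoin
    have h2 : Set.range (fun _ : Unit => σ) = {σ} := by simp
    rw [h2, htop]
    infer_instance
  have hBσ := hB.sumElim_comp hσb
  have hcard := hBσ.cardinalMk_eq_trdeg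
  rw [htr] at hcard
  have hfin : Finite (Unit ⊕ B) := by
    rw [← Cardinal.lt_aleph0_iff_finite, hcard]
    exact Cardinal.natCast_lt_aleph0
  have hfinB : Finite B := Finite.of_injective (Sum.inr : B → Unit ⊕ B) Sum.inr_injective
  obtain ⟨m, ⟨φ⟩⟩ := Finite.exists_equiv_fin B
  obtain rfl : w = m + 1 := by
    have h1 : Cardinal.mk (Unit ⊕ B) = ((m + 1 : ℕ) : Cardinal) := by
      rw [Cardinal.mk_sum, Cardinal.mk_congr φ]
      simp [add_comm]
    rw [h1] at hcard
    exact_mod_cast hcard.symm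
  let s : Fin m → C := fun l => (φ.symm l : C)
  have hs : IsTranscendenceBasis k s := hB.comp_equiv φ.symm
  let x : Fin (m + 1) → K := Fin.cons σ (fun l => (s l : K))
  have hx : IsTranscendenceBasis k x := by
    let E : Fin (m + 1) ≃ Unit ⊕ B := (finSuccEquiv m).trans ((Equiv.optionEquivSumPUnit _).trans
      ((Equiv.sumComm _ _).trans (Equiv.sumCongr (Equiv.refl _) φ.symm)))
    have h1 := hBσ.comp_equiv E
    convert h1 using 1
    funext i
    refine Fin.cases ?_ (fun l => ?_) i
    · simp [x, E]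
    · simp [x, E, s]
  have hx0 : ∀ l : Fin m, x l.succ = (s l : K) := fun l => rfl
  -- the dual derivations
  have hDer : ∀ l : Fin m, ∃ D : Derivation k K K, D σ = 0 ∧
      ∀ j, D (s j : K) = if j = l then 1 else 0 := by
    intro l
    obtain ⟨D, hD⟩ := exists_der x hx (Fin.cons 0 fun j => if j = l then 1 else 0)
    exact ⟨D, hD 0, fun j => hD j.succ⟩
  choose Δ hΔσ hΔs using hDer
  let D : Fin (m + 1) → Derivation k K K := Fin.cons δ Δ
  have hδs : ∀ j, δ (s j : K) = 0 := fun j => (s j).2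
  have hcomm : ∀ l c, δ c = 0 → δ (Δ l c) = 0 := by
    intro l c hc
    have h1 : ⁅Δ l, δ⁆ = 0 := by
      apply der_ext x hx
      intro i
      rw [Derivation.commutator_apply, Derivation.zero_apply]
      refine Fin.cases ?_ (fun j => ?_) i
      · change Δ l (δ σ) - δ (Δ l σ) = 0
        rw [hσ, hΔσ, map_zero, sub_zero]
      · change Δ l (δ (s j : K)) - δ (Δ l (s j : K)) = 0
        rw [hδs, hΔs, map_zero, zero_sub, neg_eq_zero]
        split_ifs
        · exact δ.map_one_eq_zero
        · exact map_zero _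
    have h2 := congrArg (fun d : Derivation k K K => d c) h1
    simp only [Derivation.commutator_apply, Derivation.zero_apply, hc, map_zero, zero_sub,
      neg_eq_zero] at h2
    exact h2
  have hDC : ∀ i c, c ∈ C → D i c ∈ C := by
    intro i
    refine Fin.cases ?_ (fun l => ?_) i
    · intro c hc
      change δ c ∈ C
      have h1 : δ c = 0 := hc
      rw [h1]
      exact zero_mem C
    · intro c hc
      exact hcomm l c hc
  have hDσ : ∀ i, D i σ = 0 ∨ D i σ = σ := by
    intro i
    refine Fin.cases ?_ (fun l => ?_) i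
    · exact Or.inr hσ
    · exact Or.inl (hΔσ l)
  -- the places of the two affine lines
  have hpl : ∀ τ : K, (τ = σ ∨ τ = σ⁻¹) → ∃ S : Set (Place k K),
      (∀ P ∈ S, (∀ c : K, δ c = 0 → c ≠ 0 → P.ord c = 0) ∧ (∀ f ∈ Algebra.adjoin C {τ}, P.Reg f) ∧
        (∀ f, P.Reg f → ∃ a ∈ Algebra.adjoin C {τ}, ∃ b ∈ Algebra.adjoin C {τ},
          b ≠ 0 ∧ P.ord b = 0 ∧ f * b = a) ∧ (P.ord τ = 0 ∨ (P.ord τ = 1 ∧ ∀ i, DerLog P (D i))) ∧
        (∀ i, DerReg P (D i)) ∧ Divisorial (m + 1) P) ∧
      ∀ f, (∀ P ∈ S, P.Reg f) → f ∈ Algebra.adjoin C {τ} := by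
    intro τ hτ
    have hτt : Transcendental C τ := by
      rcases hτ with rfl | rfl
      · exact hσt
      · intro h
        apply hσt
        have := h.inv
        rwa [inv_inv] at this
    have hττ : C⟮τ⟯ = ⊤ := by
      rcases hτ with rfl | rfl
      · exact htop
      · rw [eq_top_iff, ← htop, IntermediateField.adjoin_simple_le_iff]
        have h1 := inv_mem (IntermediateField.mem_adjoin_simple_self C σ⁻¹)
        rwa [inv_inv] at h1
    have hDτ : ∀ i, D i τ / τ = 0 ∨ D i τ / τ = 1 ∨ D i τ / τ = -1 := by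
      intro i
      rcases hτ with rfl | rfl
      · rcases hDσ i with h | h
        · left; rw [h, zero_div]
        · right; left; rw [h, div_self hσ0]
      · rw [(D i).leibniz_inv]
        rcases hDσ i with h | h
        · left; rw [h, smul_zero, zero_div]
        · right; right
          rw [h, smul_eq_mul]
          field_simp
    have hτ0 : τ ≠ 0 := by
      rcases hτ with rfl | rfl
      · exact hσ0
      · exact inv_ne_zero hσ0
    obtain ⟨S, hS1, hS2⟩ := places C hτt hττ
    refine ⟨S, fun P hP => ?_, hS2⟩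
    obtain ⟨hP1, hP2, hP3, hP4⟩ := hS1 P hP
    have hAD : ∀ i, ∀ f ∈ Algebra.adjoin C {τ}, D i f ∈ Algebra.adjoin C {τ} := by
      intro i f hf
      induction hf using Algebra.adjoin_induction with
      | mem z hz =>
        rw [Set.mem_singleton_iff] at hz
        subst hz
        have hz := Algebra.self_mem_adjoin_singleton (R := C) z
        have h1 : D i z = (D i z / z) * z := by field_simp
        rw [h1]
        rcases hDτ i with h | h | h <;> rw [h]
        · rw [zero_mul]; exact Subalgebra.zero_mem _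
        · rw [one_mul]; exact hz
        · rw [neg_one_mul]; exact Subalgebra.neg_mem _ hz
      | algebraMap r => exact (Algebra.adjoin C {τ}).algebraMap_mem (⟨_, hDC i _ r.2⟩ : C)
      | add f g hf' hg' hf hg => rw [map_add]; exact Subalgebra.add_mem _ hf hg
      | mul f g hf' hg' hf hg =>
        rw [(D i).leibniz]
        exact Subalgebra.add_mem _ (Subalgebra.mul_mem _ hf' hg) (Subalgebra.mul_mem _ hg' hf)
    have hDreg : ∀ i, DerReg P (D i) := fun i => pl_reg (A := (Algebra.adjoin C {τ} : Set K))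
      hP2 hP3 (hAD i)
    have hdiv : Divisorial (m + 1) P := by
      refine ⟨fun l => (s l : K), fun F hF => ?_⟩
      have h1 : MvPolynomial.aeval (fun l : Fin m => (s l : K)) F =
          ((MvPolynomial.aeval s F : C) : K) := by
        have := MvPolynomial.comp_aeval_apply (IntermediateField.val C) (p := F) (f := s)
        exact this.symm
      have h2 : MvPolynomial.aeval s F ≠ 0 := by
        intro h0
        exact hF ((injective_iff_map_eq_zero _).1 hs.1 F h0)
      have h3 : ((MvPolynomial.aeval s F : C) : K) ≠ 0 := by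
        intro h0
        exact h2 (Subtype.ext h0)
      constructor
      · change MvPolynomial.aeval (fun l : Fin m => (s l : K)) F ≠ 0
        rw [h1]; exact h3
      · change P.ord (MvPolynomial.aeval (fun l : Fin m => (s l : K)) F) = 0
        rw [h1]
        exact hP1 _ (MvPolynomial.aeval s F).2 h3
    refine ⟨hP1, hP2, hP3, ?_, hDreg, hdiv⟩
    rcases hP4 with h | h
    · exact Or.inl h
    · refine Or.inr ⟨h, fun i => pl_log (hDreg i) h ?_⟩
      rcases hDτ i with h | h | h <;> rw [h]
      · exact P.reg_zero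
      · exact P.reg_one
      · exact P.reg_neg P.reg_one
  have hττ : C⟮σ⁻¹⟯ = ⊤ := by
    rw [eq_top_iff, ← htop, IntermediateField.adjoin_simple_le_iff]
    have h1 := inv_mem (IntermediateField.mem_adjoin_simple_self C σ⁻¹)
    rwa [inv_inv] at h1
  rintro ⟨S, hS⟩
  obtain ⟨q, hq, hq0, hqs⟩ := exists_denom C htop S
  obtain ⟨q', hq', hq'0, hqs'⟩ := exists_denom C hττ S
  obtain ⟨d, hd⟩ := adjoin_flip C (mul_inv_cancel₀ hσ0) hq
  obtain ⟨d', hd'⟩ := adjoin_flip C (inv_mul_cancel₀ hσ0) hq'
  obtain ⟨j, hj, ω, hω, D', hD'⟩ := hS (d + d' + 1)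
  set N := d + d' + 1 with hN
  -- the frame
  let M : Matrix (Fin (m + 1)) (Fin (m + 1)) K :=
    Matrix.of fun i => Fin.cons (D' i σ / σ) fun l => D' i (s l : K)
  have hM : (fun i => ∑ l, M i l • D l) = D' := by
    funext i
    apply der_ext x hx
    intro q
    have h0 : ∀ (t : Finset (Fin (m + 1))) (c : Fin (m + 1) → K) (z : K),
        (∑ l ∈ t, c l • D l) z = ∑ l ∈ t, c l * D l z := by
      intro t c z
      induction t using Finset.induction_on with
      | empty => simp
      | insert l t hl ih =>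
        rw [Finset.sum_insert hl, Finset.sum_insert hl, Derivation.add_apply, ih]
        rfl
    rw [h0, Fin.sum_univ_succ]
    refine Fin.cases ?_ (fun j => ?_) q
    · change (D' i σ / σ) * δ σ + ∑ l : Fin m, D' i (s l : K) * Δ l σ = D' i σ
      rw [hσ, Finset.sum_eq_zero fun l _ => by rw [hΔσ, mul_zero]]
      field_simp
      ring
    · change (D' i σ / σ) * δ (s j : K) + ∑ l : Fin m, D' i (s l : K) * Δ l (s j : K) = D' i (s j : K)
      rw [hδs, mul_zero, zero_add]
      simp only [hΔs, mul_ite, mul_one, mul_zero]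
      rw [Finset.sum_ite_eq Finset.univ j]
      simp
  have hf0 : ω D ≠ 0 := by
    intro h0
    have h1 := hω.1 M D
    rw [hM, h0, mul_zero] at h1
    exact hD' h1
  -- the affine line with coordinate `σ⁻¹`
  have hF2 : ω D * q' ^ j ∈ Algebra.adjoin C {σ⁻¹} := by
    obtain ⟨T, hT1, hT2⟩ := hpl σ⁻¹ (Or.inr rfl)
    apply hT2
    intro P hP
    obtain ⟨hP1, hP2, -, hP4, hDreg, hdiv⟩ := hT1 P hP
    refine twReg_mul (S := S) ?_ (fun s hs => hP2 _ (hqs' s hs)) hq'0
    rcases hP4 with h | h
    · refine hω.2.2 P hdiv (hBd P hP1 ?_) D hDreg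
      rw [P.ord_inv] at h
      omega
    · exact hω.2.1 P hdiv D h.2
  -- the affine line with coordinate `σ`
  have hF1 : (σ⁻¹ ^ (j * N) * ω D) * q ^ j ∈ Algebra.adjoin C {σ} := by
    obtain ⟨T, hT1, hT2⟩ := hpl σ (Or.inl rfl)
    apply hT2
    intro P hP
    obtain ⟨hP1, hP2, hP3, hP4, hDreg, hdiv⟩ := hT1 P hP
    refine twReg_mul (S := S) ?_ (fun s hs => hP2 _ (hqs s hs)) hq0
    have hnBd : ¬ Bd P := hBd P hP1 (by rcases hP4 with h | h <;> omega)
    have hreg0 : DerReg P (σ⁻¹ • δ) := by
      refine pl_reg (A := (Algebra.adjoin C {σ} : Set K)) hP2 hP3 ?_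
      intro f hf
      change σ⁻¹ * δ f ∈ Algebra.adjoin C {σ}
      have hf' : f ∈ Algebra.adjoin C {σ} := hf
      clear hf
      induction hf' using Algebra.adjoin_induction with
      | mem z hz =>
        rw [Set.mem_singleton_iff] at hz
        subst hz
        rw [hσ, inv_mul_cancel₀ hσ0]
        exact Subalgebra.one_mem _
      | algebraMap r =>
        have h1 : δ (algebraMap C K r) = 0 := r.2
        rw [h1, mul_zero]
        exact Subalgebra.zero_mem _
      | add f g hf' hg' hf hg => rw [map_add, mul_add]; exact Subalgebra.add_mem _ hf hg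
      | mul f g hf' hg' hf hg =>
        have h1 : σ⁻¹ * δ (f * g) = f * (σ⁻¹ * δ g) + g * (σ⁻¹ * δ f) := by
          rw [δ.leibniz]
          simp only [smul_eq_mul]
          ring
        rw [h1]
        exact Subalgebra.add_mem _ (Subalgebra.mul_mem _ hf' hg) (Subalgebra.mul_mem _ hg' hf)
    let A : Matrix (Fin (m + 1)) (Fin (m + 1)) K := Matrix.diagonal (Fin.cons σ⁻¹ fun _ => 1)
    have hA : A.det = σ⁻¹ := by
      rw [Matrix.det_diagonal, Fin.prod_univ_succ]
      simp
    have h1 := hω.1 A D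
    rw [hA] at h1
    rw [← h1]
    apply hω.2.2 P hdiv hnBd
    intro i
    have h3 : (∑ j, A i j • D j) = (Fin.cons σ⁻¹ fun _ => 1 : Fin (m + 1) → K) i • D i := by
      rw [Finset.sum_eq_single i]
      · simp [A]
      · intro j _ hj
        simp [A, Matrix.diagonal_apply_ne _ hj.symm]
      · intro h
        exact absurd (Finset.mem_univ _) h
    rw [h3]
    refine Fin.cases ?_ (fun l => ?_) i
    · exact hreg0
    · simp only [Fin.cons_succ, one_smul]
      exact hDreg _
  -- comparison
  have hσm := Algebra.self_mem_adjoin_singleton C σ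
  have hτm := Algebra.self_mem_adjoin_singleton C σ⁻¹
  set c : K := ω D * q ^ j * q' ^ j * σ⁻¹ ^ (d * j) with hc
  have hc0 : c ≠ 0 := mul_ne_zero (mul_ne_zero (mul_ne_zero hf0 (pow_ne_zero _ hq0))
    (pow_ne_zero _ hq'0)) (pow_ne_zero _ (inv_ne_zero hσ0))
  have hc2 : c ∈ Algebra.adjoin C {σ⁻¹} := by
    have h1 : c = (ω D * q' ^ j) * (q * σ⁻¹ ^ d) ^ j := by
      rw [hc, mul_pow, ← pow_mul]
      ring
    rw [h1]
    exact Subalgebra.mul_mem _ hF2 (Subalgebra.pow_mem _ hd _)
  have hc1 : c * σ⁻¹ ^ j ∈ Algebra.adjoin C {σ} := by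
    have h1 : c * σ⁻¹ ^ j = ((σ⁻¹ ^ (j * N) * ω D) * q ^ j) * (q' * σ ^ d') ^ j := by
      rw [hc, hN, mul_pow, ← pow_mul]
      have h2 : σ⁻¹ ^ (j * (d + d' + 1)) = σ⁻¹ ^ (d * j) * σ⁻¹ ^ (d' * j) * σ⁻¹ ^ j := by
        rw [← pow_add, ← pow_add]
        congr 1
        ring
      have h3 : σ⁻¹ ^ (d' * j) * σ ^ (d' * j) = 1 := by
        rw [← mul_pow, inv_mul_cancel₀ hσ0, one_pow]
      rw [h2]
      linear_combination (-(ω D * q ^ j * q' ^ j * σ⁻¹ ^ (d * j) * σ⁻¹ ^ j)) * h3
    rw [h1]
    exact Subalgebra.mul_mem _ hF1 (Subalgebra.pow_mem _ hd' _)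
  have hc3 : c * σ⁻¹ ^ j ∈ C :=
    adjoin_inter C hσt hc1 (Subalgebra.mul_mem _ hc2 (Subalgebra.pow_mem _ hτm _))
  have hc4 : c ∈ C := by
    refine adjoin_inter C hσt ?_ hc2
    have h1 : c = c * σ⁻¹ ^ j * σ ^ j := by
      rw [mul_assoc, ← mul_pow, inv_mul_cancel₀ hσ0, one_pow, mul_one]
    rw [h1]
    exact Subalgebra.mul_mem _ hc1 (Subalgebra.pow_mem _ hσm _)
  have hc5 : σ⁻¹ ^ j ∈ C := by
    have h1 : σ⁻¹ ^ j = c⁻¹ * (c * σ⁻¹ ^ j) := by
      rw [← mul_assoc, inv_mul_cancel₀ hc0, one_mul]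
    rw [h1]
    exact mul_mem (inv_mem hc4) hc3
  have hc6 : σ ^ j ∈ C := by
    have := inv_mem hc5
    rwa [inv_pow, inv_inv] at this
  have hc7 : δ (σ ^ j) = 0 := hc6
  rw [δ.leibniz_pow, hσ] at hc7
  have hK : CharZero K := charZero_of_injective_algebraMap (algebraMap k K).injective
  have hc8 : (j : K) * (σ ^ (j - 1) * σ) = 0 := by
    rw [← hc7]
    simp [nsmul_eq_mul, smul_eq_mul]
  rcases mul_eq_zero.1 hc8 with h | h
  · have : j = 0 := by exact_mod_cast h
    omega
  · exact mul_ne_zero (pow_ne_zero _ hσ0) hσ0 h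

end Pool.Agent.W602.GT
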