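import Pool.Agent.W602.GT.KPsef
import Pool.Agent.W602.GT.KFin

/-!
Pseudo-effectivity of the log canonical bundle of sparse quasi-projective varieties.
-/

set_option autoImplicit false

open FF IntermediateField Pool.Agent.W603.LV

namespace Pool.Agent.W602.GT

variable {k : Type} [Field k] {n : ℕ} {ι : Type}

theorem ord_pow_nonneg {K : Type} [Field K] [Algebra k K] (P : Place k K) {f : K} (h : P.Reg f)
    {N : ℕ} (h0 : f ^ N ≠ 0) : 0 ≤ P.ord (f ^ N) := by
  rw [P.ord_pow]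
  by_cases hN : N = 0
  · rw [hN]; simp
  · have hf : f ≠ 0 := fun h1 => h0 (by rw [h1, zero_pow hN])
    have h1 := (Place.reg_iff _ hf).1 h
    positivity

/-- If a multiple of `K_X + D` is effective then `K_X + D` is pseudo-effective. -/
theorem psef_of_kodGe {K : Type} [Field K] [Algebra k K] {w : ℕ} {Bd : Place k K → Prop}
    (h : KodGe k K w Bd 0) : Psef k K w Bd := by
  classical
  obtain ⟨N0, hN0, ω, hω, D, hD, -⟩ := h
  refine ⟨{1}, fun N => ⟨N0, hN0, fun D' => ω 0 D' ^ N, ⟨?_, ?_, ?_⟩, D, pow_ne_zero _ hD⟩⟩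
  · intro A D'
    change ω 0 _ ^ N = _
    rw [(hω 0).1 A D', mul_pow, ← pow_mul]
  · intro P hP D' hD'
    by_cases h0 : ω 0 D' ^ N = 0
    · exact Or.inl h0
    · refine Or.inr ⟨1, by simp, one_ne_zero, ?_⟩
      rw [P.ord_one, mul_zero]
      have h1 := (hω 0).2.1 P hP D' hD'
      exact ord_pow_nonneg P h1 h0
  · intro P hP hBd D' hD'
    by_cases h0 : ω 0 D' ^ N = 0
    · exact Or.inl h0
    · refine Or.inr ⟨1, by simp, one_ne_zero, ?_⟩
      rw [P.ord_one, mul_zero]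
      have h1 := (hω 0).2.2 P hP hBd D' hD'
      exact ord_pow_nonneg P h1 h0

/-- **Contractions.** -/
theorem contracts_not_psef [CharZero k] [IsAlgClosed k] {U : Set (Fin (n + 1))} {K : Type}
    [Field K] [Algebra k K] {w : ℕ} {y : Fin (n + 1) → K} (hyU : ∀ j ∈ U, y j ≠ 0)
    (hgen : coords k y = ⊤) (htr : Algebra.trdeg k K = w) {b : Fin (n + 1) → ℕ}
    (h : Contracts U k y b) : ¬ Psef k K w (OffU U y) := by
  obtain ⟨i, hi, hbi⟩ := h.fixed
  obtain ⟨i', hi', hbi'⟩ := h.moved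
  obtain ⟨δ, σ, g, b', hσ0, hσ, htop, hg, hb', hz⟩ := exists_delta hgen (fun j => (b j : ℤ)) hi hi'
    (by
      simp only [hbi]
      intro h0
      exact hbi' (by exact_mod_cast h0.symm))
    (fun G hG h0 v => hom_of_contracts hyU h G hG h0 v)
  have hb0 : ∀ j, y j ≠ 0 → 0 ≤ b' j := by
    intro j hj
    have h1 := hb' j hj
    simp only [hbi, Nat.cast_zero, sub_zero] at h1
    by_contra hcon
    push Not at hcon
    have h2 : g * b' j < 0 := mul_neg_of_pos_of_neg hg hcon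
    have h3 : (0 : ℤ) ≤ b j := Int.natCast_nonneg _
    omega
  have hbU : ∀ j ∈ U, b' j = 0 := by
    intro j hj
    have h1 := hb' j (hyU j hj)
    simp only [hbi, h.zero j hj, Nat.cast_zero, sub_zero] at h1
    exact (mul_eq_zero.1 h1.symm).resolve_left hg.ne'
  refine not_psef htr (Bd := OffU U y) δ hσ0 hσ htop ?_
  rintro P hP hPσ ⟨j, hj, l, hl, hlt⟩
  rw [ord_ratio hσ0 hi hz hP hl, ord_ratio hσ0 hi hz hP (hyU j hj), hbU j hj, zero_mul,
    add_zero] at hlt
  have h1 := mul_nonneg (hb0 l hl) hPσ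
  linarith

/-- **Nonvanishing for sparse quasi-projective varieties.** -/
theorem psef_iff [CharZero k] [IsAlgClosed k] {U : Set (Fin (n + 1))}
    {F : ι → MvPolynomial (Fin (n + 1)) k} {s N : ℕ} (hF : ∀ e, IsPowSparse U s N (F e))
    (hN : n * ((s + 1) * ((s - 1) * (s - 2) / 2)) ≤ N) {K : Type} [Field K] [Algebra k K] {w : ℕ}
    {y : Fin (n + 1) → K} (hy : SubVarU U F K w y) (hcomp : IsComponentU U F y) :
    Psef k K w (OffU U y) ↔ KodGe k K w (OffU U y) 0 := by
  refine ⟨fun h => ?_, psef_of_kodGe⟩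
  by_contra h0
  obtain ⟨b, hb⟩ := (neg_iff hF hN hy hcomp).1 h0
  exact contracts_not_psef hy.unit hy.gen hy.dim hb h

end Pool.Agent.W602.GT
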