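import Pool.Agent.W602.GT.KCore
import Pool.Agent.W602.GT.KOrb

/-!
The vanishing sums of monomials of a sparse system at a generic point.
-/

set_option autoImplicit false

open FF IntermediateField Pool.Agent.W603.LV

namespace Pool.Agent.W602.GT

variable {k K : Type} [Field k] [Field K] [Algebra k K] {n : ℕ}

/-- the value of a term -/
noncomputable def mon (y : Fin (n + 1) → K) (G : MvPolynomial (Fin (n + 1)) k)
    (α : Fin (n + 1) →₀ ℕ) : K := algebraMap k K (G.coeff α) * ∏ j, y j ^ α j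

/-- the terms with nonzero value -/
def JJ (y : Fin (n + 1) → K) (G : MvPolynomial (Fin (n + 1)) k) : Type :=
  {α : G.support // mon y G α ≠ 0}

noncomputable instance (y : Fin (n + 1) → K) (G : MvPolynomial (Fin (n + 1)) k) :
    Fintype (JJ y G) := by
  classical
  unfold JJ
  infer_instance

/-- the nonzero values of the terms -/
noncomputable def gg (y : Fin (n + 1) → K) (G : MvPolynomial (Fin (n + 1)) k) (j : JJ y G) : K :=
  mon y G j.1

/-- the exponents of a term -/
def ex {y : Fin (n + 1) → K} {G : MvPolynomial (Fin (n + 1)) k} (j : JJ y G) :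
    Fin (n + 1) →₀ ℕ := j.1

theorem ex_mem {y : Fin (n + 1) → K} {G : MvPolynomial (Fin (n + 1)) k} (j : JJ y G) :
    ex j ∈ G.support := j.1.2

theorem gg_ne {y : Fin (n + 1) → K} {G : MvPolynomial (Fin (n + 1)) k} (j : JJ y G) :
    gg y G j ≠ 0 := j.2

theorem gg_eq {y : Fin (n + 1) → K} {G : MvPolynomial (Fin (n + 1)) k} (j : JJ y G) :
    gg y G j = algebraMap k K (G.coeff (ex j)) * ∏ l, y l ^ (ex j) l := rfl

theorem gg_weighted (y : Fin (n + 1) → K) (G : MvPolynomial (Fin (n + 1)) k)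
    (h : (Fin (n + 1) →₀ ℕ) → K) :
    ∑ α ∈ G.support, h α * mon y G α = ∑ j : JJ y G, h (ex j) * gg y G j := by
  classical
  rw [← Finset.sum_coe_sort G.support (fun α => h α * mon y G α)]
  have h1 : ∑ α ∈ Finset.univ.filter (fun α : G.support => mon y G α ≠ 0), h α * mon y G α =
      ∑ j : JJ y G, h (ex j) * gg y G j :=
    Finset.sum_subtype (p := fun α : G.support => mon y G α ≠ 0)
      (F := (inferInstance : Fintype (JJ y G))) _ (by simp) (fun α => h α * mon y G α)
  rw [← h1, Finset.sum_filter_of_ne]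
  intro α _ hα h0
  exact hα (by rw [h0, mul_zero])

theorem gg_sum {y : Fin (n + 1) → K} {G : MvPolynomial (Fin (n + 1)) k} (h : val y G = 0) :
    ∑ j, gg y G j = 0 := by
  have h1 := gg_weighted y G (fun _ => 1)
  simp only [one_mul] at h1
  rw [← h1]
  rw [val_eq_sum] at h
  exact h

theorem gg_card (y : Fin (n + 1) → K) (G : MvPolynomial (Fin (n + 1)) k) :
    Fintype.card (JJ y G) ≤ G.support.card := by
  classical
  have h1 : Fintype.card (JJ y G) ≤ Fintype.card G.support :=
    Fintype.card_le_of_injective (fun j : JJ y G => j.1) Subtype.val_injective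
  rwa [Fintype.card_coe] at h1

/-- the difference of the exponents of two terms -/
def df {y : Fin (n + 1) → K} {G : MvPolynomial (Fin (n + 1)) k} (i j : JJ y G) :
    Fin (n + 1) → ℤ := fun l => ((ex i l : ℕ) : ℤ) - ((ex j l : ℕ) : ℤ)

theorem df_sum {y : Fin (n + 1) → K} {G : MvPolynomial (Fin (n + 1)) k} {d : ℕ}
    (hG : G.IsHomogeneous d) (i j : JJ y G) : ∑ l, df i j l = 0 := by
  unfold df
  rw [Finset.sum_sub_distrib]
  have h3 : (∑ l, ((ex i l : ℕ) : ℤ)) = d := by exact_mod_cast sum_exp hG (ex_mem i)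
  have h4 : (∑ l, ((ex j l : ℕ) : ℤ)) = d := by exact_mod_cast sum_exp hG (ex_mem j)
  rw [h3, h4, sub_self]

theorem df_ord (P : Place k K) {y : Fin (n + 1) → K} {G : MvPolynomial (Fin (n + 1)) k}
    (i j : JJ y G) : P.ord (gg y G i) - P.ord (gg y G j) = ∑ l, df i j l * P.ord (y l) := by
  unfold gg mon df
  rw [ord_mon P i.2, ord_mon P j.2, ← Finset.sum_sub_distrib]
  exact Finset.sum_congr rfl fun l _ => by rw [sub_mul]; rfl

theorem df_supp {y : Fin (n + 1) → K} {G : MvPolynomial (Fin (n + 1)) k} (i j : JJ y G)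
    {l : Fin (n + 1)} (hl : y l = 0) : df i j l = 0 := by
  have h : ∀ i : JJ y G, ex i l = 0 := by
    intro i
    by_contra h0
    apply gg_ne i
    rw [gg_eq, Finset.prod_eq_zero (Finset.mem_univ l), mul_zero]
    rw [hl, zero_pow h0]
  unfold df
  rw [h i, h j, sub_self]

theorem df_der (D : Derivation k K K) {y : Fin (n + 1) → K} {G : MvPolynomial (Fin (n + 1)) k}
    (i j : JJ y G) : D (gg y G i) * gg y G j - gg y G i * D (gg y G j) =
      gg y G i * gg y G j * ∑ l, (df i j l : K) * (D (y l) / y l) := by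
  have h3 : ∀ i : JJ y G, D (gg y G i) = gg y G i * ∑ l, ((ex i l : ℕ) : K) * (D (y l) / y l) :=
    fun i => der_mon D i.2
  rw [h3 i, h3 j]
  have h4 : ∑ l, (df i j l : K) * (D (y l) / y l) =
      ∑ l, ((ex i l : ℕ) : K) * (D (y l) / y l) - ∑ l, ((ex j l : ℕ) : K) * (D (y l) / y l) := by
    rw [← Finset.sum_sub_distrib]
    refine Finset.sum_congr rfl fun l _ => ?_
    unfold df
    push_cast
    ring
  rw [h4]
  ring

/-- **Classes.** Weights which are constant on circuits. -/
theorem class_zero {J : Type} [Fintype J] (g : J → K) (hsum : ∑ j, g j = 0) (h : J → K)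
    (hh : ∀ (C : CD k g) (a b : Fin (C.m + 1)), h (C.e a) = h (C.e b)) :
    ∑ j, h j * g j = 0 := by
  classical
  let R0 : J → J → Prop := fun i j => ∃ (C : CD k g) (a b : Fin (C.m + 1)), C.e a = i ∧ C.e b = j
  refine weighted_sum (Relation.EqvGen R0) (Relation.EqvGen.is_equivalence R0) g h ?_ ?_
  · intro i j hij
    induction hij with
    | rel i j h =>
      obtain ⟨C, a, b, rfl, rfl⟩ := h
      exact hh C a b
    | refl i => rfl
    | symm i j _ ih => exact ih.symm
    | trans i j l _ _ ih1 ih2 => exact ih1.trans ih2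
  · intro j0 A hA
    have key := class_sum (k := k) g (Relation.EqvGen R0) (Relation.EqvGen.is_equivalence R0)
      (by
        intro m em hem c hc hrel hlin i j
        exact Relation.EqvGen.rel _ _ ⟨⟨m, em, hem, c, hc, hrel, hlin⟩, i, j, rfl, rfl⟩)
      (Finset.univ.filter fun j => (fun _ : J => (1 : k)) j ≠ 0).card (fun _ => 1) le_rfl
      (by simpa using hsum) j0
    simp only [one_smul] at key
    rw [← key]
    exact Finset.sum_congr (by ext j; simp [hA]) (fun _ _ => rfl)

/-- weights orthogonal to the circuits -/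
theorem wc_zero {y : Fin (n + 1) → K} {G : MvPolynomial (Fin (n + 1)) k} (hG : val y G = 0)
    {b : Fin (n + 1) → ℤ} (hb : ∀ (C : CD k (gg y G)) (a a' : Fin (C.m + 1)),
      ∑ l, df (C.e a) (C.e a') l * b l = 0) (v : ℤ) : val y (wc b v G) = 0 := by
  classical
  rw [val_wc, Finset.sum_filter]
  have h1 := gg_weighted y G (fun α => if ∑ j, (α j : ℤ) * b j = v then 1 else 0)
  simp only [ite_mul, one_mul, zero_mul] at h1
  change ∑ α ∈ G.support, (if ∑ j, (α j : ℤ) * b j = v then mon y G α else 0) = 0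
  rw [h1]
  have h2 := class_zero (gg y G) (gg_sum hG)
    (fun j => if ∑ l, ((ex j l : ℕ) : ℤ) * b l = v then (1 : K) else 0) (by
      intro C a a'
      have h3 := hb C a a'
      unfold df at h3
      simp only [sub_mul, Finset.sum_sub_distrib] at h3
      simp only [sub_eq_zero.1 h3])
  simpa only [ite_mul, one_mul, zero_mul] using h2

/-- the orders of the terms jump -/
theorem gg_jump (P : Place k K) {U : Set (Fin (n + 1))} {y : Fin (n + 1) → K}
    (hyU : ∀ j ∈ U, y j ≠ 0) (hP : ¬ OffU U y P) {G : MvPolynomial (Fin (n + 1)) k} {s N M : ℕ}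
    (hG : IsPowSparse U s N G) (hM : M ≤ N) (i j : JJ y G) :
    P.ord (gg y G i) = P.ord (gg y G j) ∨ (M : ℤ) ≤ |P.ord (gg y G i) - P.ord (gg y G j)| := by
  classical
  obtain ⟨μ, hμ⟩ : ∃ μ : ℤ, ∀ j ∈ U, P.ord (y j) = μ := by
    by_cases hU : ∃ j0, j0 ∈ U
    · obtain ⟨j0, hj0⟩ := hU
      refine ⟨P.ord (y j0), fun j hj => ?_⟩
      unfold OffU at hP
      push Not at hP
      exact le_antisymm (hP j hj j0 (hyU j0 hj0)) (hP j0 hj0 j (hyU j hj))
    · exact ⟨0, fun j hj => absurd ⟨j, hj⟩ hU⟩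
  obtain ⟨⟨d, hd⟩, -, N', hN', hdvd⟩ := hG
  have h1 : P.ord (gg y G i) - P.ord (gg y G j) = ∑ l, df i j l * (P.ord (y l) - μ) := by
    rw [df_ord]
    simp only [mul_sub, Finset.sum_sub_distrib]
    rw [← Finset.sum_mul, df_sum hd, zero_mul, sub_zero]
  have h2 : (N' : ℤ) ∣ P.ord (gg y G i) - P.ord (gg y G j) := by
    rw [h1]
    refine Finset.dvd_sum fun l _ => ?_
    by_cases hl : l ∈ U
    · rw [hμ l hl, sub_self, mul_zero]
      exact dvd_zero _
    · refine Dvd.dvd.mul_right (dvd_sub ?_ ?_) _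
      · exact_mod_cast hdvd _ (ex_mem i) l hl
      · exact_mod_cast hdvd _ (ex_mem j) l hl
  by_cases h : P.ord (gg y G i) = P.ord (gg y G j)
  · exact Or.inl h
  · right
    have h4 : (M : ℤ) ≤ N' := by exact_mod_cast hM.trans hN'
    refine h4.trans ?_
    exact Int.le_of_dvd (abs_pos.2 (sub_ne_zero.2 h)) ((dvd_abs _ _).2 h2)

end Pool.Agent.W602.GT
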