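import Pool.Agent.W602.GT.Lam
import Pool.Agent.W602.GT.Defs

/-!
Local estimates for regular and logarithmic derivations.
-/

set_option autoImplicit false

open FF Pool.Agent.W603.LV

namespace Pool.Agent.W602.GT

variable {k K : Type} [Field k] [Field K] [Algebra k K]

theorem reg_iff_ge (P : Place k K) (f : K) : P.Reg f ↔ Ge P 0 f := Iff.rfl

theorem ge_ord (P : Place k K) (f : K) : Ge P (P.ord f) f := Or.inr le_rfl

theorem ge_div {P : Place k K} {n : ℤ} {f g : K} (hg : g ≠ 0) (hf : Ge P n f) :
    Ge P (n - P.ord g) (f / g) := by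
  apply Ge.of_mul' (h := g) (m := P.ord g) hg rfl
  rw [mul_div_cancel₀ _ hg]
  simpa using hf

/-- a nonzero element is a unit times a power of the uniformizer -/
theorem unit_mul (P : Place k K) {π : K} (hπ : P.ord π = 1) {x : K} (hx : x ≠ 0) :
    ∃ u : K, u ≠ 0 ∧ P.ord u = 0 ∧ x = u * π ^ (P.ord x) := by
  have hπ0 : π ≠ 0 := by
    rintro rfl
    rw [P.ord_zero] at hπ; omega
  have h1 : π ^ (P.ord x) ≠ 0 := zpow_ne_zero _ hπ0
  refine ⟨x / π ^ (P.ord x), div_ne_zero hx h1, ?_, ?_⟩
  · rw [P.ord_div hx h1, P.ord_zpow, hπ]; ring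
  · field_simp

theorem der_zpow (D : Derivation k K K) {π : K} (hπ0 : π ≠ 0) (n : ℤ) :
    D (π ^ n) = n * π ^ n * (D π / π) := by
  cases n with
  | ofNat n =>
    simp only [Int.ofNat_eq_natCast, zpow_natCast, Int.cast_natCast]
    rw [D.leibniz_pow]
    cases n with
    | zero => simp
    | succ n =>
      simp only [nsmul_eq_mul, smul_eq_mul, Nat.add_sub_cancel]
      field_simp
      ring
  | negSucc n =>
    rw [zpow_negSucc, D.leibniz_inv, D.leibniz_pow]
    simp only [nsmul_eq_mul, smul_eq_mul, Nat.add_sub_cancel, Int.cast_negSucc]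
    field_simp
    ring

/-- logarithmic derivatives -/
theorem logder_eq (P : Place k K) (D : Derivation k K K) {π : K} (hπ : P.ord π = 1) {x : K}
    (hx : x ≠ 0) : ∃ u : K, u ≠ 0 ∧ P.ord u = 0 ∧ x = u * π ^ (P.ord x) ∧
      D x / x = D u / u + P.ord x * (D π / π) := by
  have hπ0 : π ≠ 0 := by
    rintro rfl
    rw [P.ord_zero] at hπ; omega
  obtain ⟨u, hu, hu0, hxu⟩ := unit_mul P hπ hx
  refine ⟨u, hu, hu0, hxu, ?_⟩
  have h1 : π ^ (P.ord x) ≠ 0 := zpow_ne_zero _ hπ0
  generalize P.ord x = n at hxu h1
  subst hxu
  rw [D.leibniz, der_zpow D hπ0]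
  simp only [smul_eq_mul]
  field_simp
  ring

theorem ge_logder_log {P : Place k K} {D : Derivation k K K} (hD : DerLog P D) (x : K) :
    Ge P 0 (D x / x) := hD x

theorem ge_logder_reg {P : Place k K} {D : Derivation k K K} (hD : DerReg P D) {x : K}
    (hx : x ≠ 0) (hx0 : P.ord x = 0) : Ge P 0 (D x / x) := by
  have := ge_div hx (hD x (Or.inr hx0.ge))
  rw [hx0] at this
  simpa using this

/-- the determinant of logarithmic derivatives has at most a simple pole -/
theorem det_log [CharZero k] {P : Place k K} {w : ℕ} (D : Fin w → Derivation k K K)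
    (hD : ∀ i, DerReg P (D i)) (x : Fin w → K) (hx : ∀ j, x j ≠ 0) :
    Ge P (-1) (Matrix.of fun i j => D i (x j) / x j).det := by
  classical
  have hπ := ord_unif P
  have hπ0 : unif P ≠ 0 := by
    intro h
    rw [h, P.ord_zero] at hπ; omega
  set π := unif P with hπd
  have hu : ∀ j, ∃ u : K, u ≠ 0 ∧ P.ord u = 0 ∧ x j = u * π ^ (P.ord (x j)) :=
    fun j => unit_mul P hπ (hx j)
  choose u hu0 hu1 hu2 using hu
  set B : Fin w → Fin w → K := fun i j => D i (u j) / u j with hB
  set ρ : Fin w → K := fun i => D i π / π with hρ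
  set n : Fin w → ℤ := fun j => P.ord (x j) with hn
  have hM : ∀ i j, D i (x j) / x j = B i j + n j * ρ i := by
    intro i j
    have h1 : π ^ (n j) ≠ 0 := zpow_ne_zero _ hπ0
    have h2 := hu2 j
    have h3 := hu0 j
    change x j = u j * π ^ (n j) at h2
    rw [h2, (D i).leibniz, der_zpow (D i) hπ0]
    simp only [smul_eq_mul, hB, hρ]
    field_simp
    ring
  have hBge : ∀ i j, Ge P 0 (B i j) := fun i j => ge_logder_reg (hD i) (hu0 j) (hu1 j)
  have hρge : ∀ i, Ge P (-1) (ρ i) := by
    intro i
    have := ge_div hπ0 (hD i π (Or.inr (by omega)))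
    rw [hπ] at this
    simpa using this
  by_cases hall : ∀ j, n j = 0
  · refine Ge.mono (N := 0) (by omega) ?_
    refine ge_det P _ 0 (fun _ _ => 0) (fun i j => ?_) (fun σ => by simp)
    change Ge P 0 (D i (x j) / x j)
    rw [hM, hall j]
    simpa using hBge i j
  · push Not at hall
    obtain ⟨j0, hj0⟩ := hall
    have hj0K : (n j0 : K) ≠ 0 := by
      have hk : CharZero K := charZero_of_injective_algebraMap (algebraMap k K).injective
      exact_mod_cast hj0
    rw [← Matrix.det_transpose]
    set c : Fin w → K := fun j => if j = j0 then 0 else (n j : K) / (n j0 : K) with hc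
    set N : Matrix (Fin w) (Fin w) K := Matrix.of fun j i =>
      if j = j0 then B i j0 + n j0 * ρ i else B i j - (n j : K) / (n j0 : K) * B i j0 with hN
    have hdet : (Matrix.of fun i j => D i (x j) / x j).transpose.det = N.det := by
      refine Matrix.det_eq_of_forall_row_eq_smul_add_const c j0 ?_ ?_
      · simp [hc]
      · intro j i
        simp only [Matrix.transpose_apply, Matrix.of_apply, hM, hc, hN]
        by_cases hj : j = j0
        · subst hj; simp
        · simp only [hj, if_false, if_true]
          field_simp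
          ring
    rw [hdet]
    refine ge_det P N (-1) (fun j _ => if j = j0 then -1 else 0) (fun j i => ?_) (fun σ => ?_)
    · simp only [hN, Matrix.of_apply]
      by_cases hj : j = j0
      · simp only [hj, if_true]
        refine Ge.add ((hBge i j0).mono (by omega)) ?_
        have := (Ge.intCast (P := P) (n j0)).mul (hρge i)
        simpa using this
      · simp only [hj, if_false]
        refine (hBge i j).sub ?_
        have h1 : Ge P 0 ((n j : K) / (n j0 : K)) := by
          have h2 := Ge.const (P := P) ((n j : k) / (n j0 : k))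
          rwa [map_div₀, map_intCast, map_intCast] at h2
        simpa using h1.mul (hBge i j0)
    · have h1 : ∑ i, (if σ i = j0 then (-1 : ℤ) else 0) = -1 := by
        rw [Finset.sum_eq_single (σ.symm j0)]
        · simp
        · intro i _ hi
          rw [if_neg]
          intro h
          exact hi (by rw [← h]; simp)
        · intro h
          exact absurd (Finset.mem_univ _) h
      exact h1.ge

section comb

variable {w : ℕ} (t : Fin w → K) (lam : Fin w → k) (D : Fin w → Derivation k K K)

/-- the matrix of logarithmic derivatives -/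
noncomputable def lmat : Matrix (Fin w) (Fin w) K := Matrix.of fun i j => D i (t j) / t j

/-- the contraction of the derivations `D i` with the logarithmic forms of the `t j` -/
noncomputable def con : Derivation k K K :=
  ∑ i, (∑ j, algebraMap k K (lam j) * (lmat t D).adjugate j i) • D i

theorem con_apply (f : K) :
    con t lam D f = ∑ j, algebraMap k K (lam j) *
      ((lmat t D).updateCol j (fun i => D i f)).det := by
  unfold con
  have h1 : (∑ i, (∑ j, algebraMap k K (lam j) * (lmat t D).adjugate j i) • D i) f
      = ∑ i, (∑ j, algebraMap k K (lam j) * (lmat t D).adjugate j i) * D i f := by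
    have h0 : ∀ (s : Finset (Fin w)) (c : Fin w → K), (∑ i ∈ s, c i • D i) f
        = ∑ i ∈ s, c i * D i f := by
      intro s c
      classical
      induction s using Finset.induction_on with
      | empty => simp
      | insert i s hi ih =>
        rw [Finset.sum_insert hi, Finset.sum_insert hi, Derivation.add_apply, ih]
        rfl
    exact h0 _ _
  rw [h1]
  have h2 : ∀ j, ((lmat t D).updateCol j (fun i => D i f)).det
      = ∑ i, (lmat t D).adjugate j i * D i f := by
    intro j
    rw [← Matrix.cramer_apply, Matrix.cramer_eq_adjugate_mulVec]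
    rfl
  simp only [h2, Finset.sum_mul, Finset.mul_sum]
  rw [Finset.sum_comm]
  exact Finset.sum_congr rfl fun j _ => Finset.sum_congr rfl fun i _ => by ring

theorem con_t (ht : ∀ j, t j ≠ 0) (l : Fin w) :
    con t lam D (t l) = algebraMap k K (lam l) * (lmat t D).det * t l := by
  rw [con_apply]
  have h1 : ∀ j, ((lmat t D).updateCol j (fun i => D i (t l))).det
      = if j = l then t l * (lmat t D).det else 0 := by
    intro j
    have h2 : (fun i => D i (t l)) = t l • (fun i => lmat t D i l) := by
      funext i
      simp only [lmat, Matrix.of_apply, Pi.smul_apply, smul_eq_mul]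
      have := ht l
      field_simp
    rw [h2, Matrix.det_updateCol_smul]
    by_cases hj : j = l
    · subst hj
      rw [if_pos rfl]
      congr 2
      ext i i'
      by_cases h : i' = j
      · subst h; simp
      · simp [h]
    · rw [if_neg hj]
      rw [Matrix.det_zero_of_column_eq (i := j) (j := l) hj, mul_zero]
      intro i
      simp [Ne.symm hj]
  simp only [h1, mul_ite, mul_zero]
  rw [Finset.sum_ite_eq' Finset.univ l]
  simp only [Finset.mem_univ, if_true]
  ring

variable {P : Place k K}

theorem con_reg (hD : ∀ i, DerReg P (D i)) (ht : ∀ j, t j ≠ 0) (ht0 : ∀ j, P.ord (t j) = 0) :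
    DerReg P (con t lam D) := by
  intro f hf
  rw [con_apply, reg_iff_ge]
  refine Ge.sum _ _ fun j _ => ?_
  have h1 : Ge P 0 ((lmat t D).updateCol j (fun i => D i f)).det := by
    refine ge_det P _ 0 (fun _ _ => 0) (fun i l => ?_) (fun σ => by simp)
    rw [Matrix.updateCol_apply]
    split_ifs
    · exact hD i f hf
    · exact ge_logder_reg (hD i) (ht l) (ht0 l)
  simpa using (Ge.const (P := P) (lam j)).mul h1

theorem con_div (x : K) : con t lam D x / x = ∑ j, algebraMap k K (lam j) *
      ((lmat t D).updateCol j (fun i => D i x / x)).det := by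
  rw [con_apply, Finset.sum_div]
  refine Finset.sum_congr rfl fun j _ => ?_
  have h2 : (fun i => D i x / x) = x⁻¹ • (fun i => D i x) := by
    funext i
    simp only [Pi.smul_apply, smul_eq_mul]
    rw [div_eq_mul_inv, mul_comm]
  rw [h2, Matrix.det_updateCol_smul, div_eq_mul_inv]
  ring

theorem con_log (hD : ∀ i, DerLog P (D i)) (x : K) :
    Ge P 0 (con t lam D x / x) := by
  rw [con_div]
  refine Ge.sum _ _ fun j _ => ?_
  have h1 : Ge P 0 ((lmat t D).updateCol j (fun i => D i x / x)).det := by
    refine ge_det P _ 0 (fun _ _ => 0) (fun i l => ?_) (fun σ => by simp)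
    rw [Matrix.updateCol_apply]
    split_ifs
    · exact ge_logder_log (hD i) x
    · exact ge_logder_log (hD i) (t l)
  simpa using (Ge.const (P := P) (lam j)).mul h1

theorem con_pole [CharZero k] (hD : ∀ i, DerReg P (D i)) (ht : ∀ j, t j ≠ 0) {x : K} (hx : x ≠ 0) :
    Ge P (-1) (con t lam D x / x) := by
  rw [con_div]
  refine Ge.sum _ _ fun j _ => ?_
  have h1 : Ge P (-1) ((lmat t D).updateCol j (fun i => D i x / x)).det := by
    have h2 : (lmat t D).updateCol j (fun i => D i x / x)
        = Matrix.of fun i l => D i (Function.update t j x l) / Function.update t j x l := by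
      ext i l
      rw [Matrix.updateCol_apply, Matrix.of_apply]
      by_cases hl : l = j
      · subst hl; simp
      · simp [hl, lmat]
    rw [h2]
    refine det_log D hD _ fun l => ?_
    by_cases hl : l = j
    · subst hl; simpa using hx
    · simpa [hl] using ht l
  simpa using (Ge.const (P := P) (lam j)).mul h1

end comb

end Pool.Agent.W602.GT
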