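import Pool.Agent.W602.GT.SpDefs

/-!
Subvarieties of quasi-projective varieties, the complement of coordinate hyperplanes in a projective
variety.
-/

set_option autoImplicit false

open FF

namespace Pool.Agent.W602.GT

variable {k : Type} [Field k] {n : ℕ} {ι : Type}

/-- `K` is the function field, and `y` the generic point in homogeneous coordinates, of a closed
subvariety of dimension `w` of the quasi-projective variety
`X = {F = 0, x_j ≠ 0 for all j in U}`. -/
structure SubVarU (U : Set (Fin (n + 1))) (F : ι → MvPolynomial (Fin (n + 1)) k) (K : Type)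
    [Field K] [Algebra k K] (w : ℕ) (y : Fin (n + 1) → K) : Prop where
  ne : y ≠ 0
  unit : ∀ j ∈ U, y j ≠ 0
  mem : ∀ i, val y (F i) = 0
  gen : coords k y = ⊤
  dim : Algebra.trdeg k K = w

/-- The place `P` has its centre (in the closure of the subvariety with generic point `y`) on one
of the hyperplanes `x_j = 0`, `j` in `U`. -/
def OffU (U : Set (Fin (n + 1))) {K : Type} [Field K] [Algebra k K] (y : Fin (n + 1) → K)
    (P : Place k K) : Prop :=
  ∃ j ∈ U, ∃ i, y i ≠ 0 ∧ P.ord (y i) < P.ord (y j)

/-- The cone over the quasi-projective variety `X`. -/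
def ConeU (U : Set (Fin (n + 1))) (F : ι → MvPolynomial (Fin (n + 1)) k) : Set (Fin (n + 1) → k) :=
  {x | x ≠ 0 ∧ (∀ j ∈ U, x j ≠ 0) ∧ ∀ i, val x (F i) = 0}

/-- `Sp_alg(X)`: the Zariski closure in `X` of the union of the closed subvarieties of positive
dimension which are not of log general type (as a cone). -/
def SpAlgU (U : Set (Fin (n + 1))) (F : ι → MvPolynomial (Fin (n + 1)) k) :
    Set (Fin (n + 1) → k) :=
  {x | x ∈ ConeU U F ∧ ∀ G : MvPolynomial (Fin (n + 1)) k, IsForm G →
    (∀ (K : Type) [Field K] [Algebra k K] (w : ℕ) (y : Fin (n + 1) → K), 1 ≤ w →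
      SubVarU U F K w y → ¬ LogGeneralType k K w (OffU U y) → val y G = 0) → val x G = 0}

/-- The form `G` has at most `s` monomials, and the exponents in it of the variables `x_j`, `j` not
in `U`, are divisible by some `N' ≥ N`. -/
def IsPowSparse (U : Set (Fin (n + 1))) (s N : ℕ) (G : MvPolynomial (Fin (n + 1)) k) : Prop :=
  IsForm G ∧ G.support.card ≤ s ∧ ∃ N' : ℕ, N ≤ N' ∧ ∀ α ∈ G.support, ∀ j, j ∉ U → N' ∣ α j

/-- The part of weight `v` of `G`, where `x_j` has weight `b j`. -/
noncomputable def wc (b : Fin (n + 1) → ℤ) (v : ℤ) (G : MvPolynomial (Fin (n + 1)) k) :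
    MvPolynomial (Fin (n + 1)) k :=
  ∑ α ∈ G.support with ∑ j, (α j : ℤ) * b j = v, MvPolynomial.monomial α (G.coeff α)

end Pool.Agent.W602.GT
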