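import Pool.Agent.W602.GT.War
import Pool.Agent.W602.GT.PsDefs

/-!
Subvarieties of varieties given by few monomials with large exponents.
-/

set_option autoImplicit false

open FF Pool.Agent.W603.LV MvPolynomial

namespace Pool.Agent.W602.GT

/-- rational weights -/
theorem int_weights {K : Type} [Field K] [CharZero K] {m : ℕ} (lam : Fin m → K) {i i' : Fin m}
    (h : lam i ≠ lam i') : ∃ b : Fin m → ℤ, b i ≠ b i' ∧
      ∀ r : Fin m → ℤ, ∑ j, (r j : K) * lam j = 0 → ∑ j, r j * b j = 0 := by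
  obtain ⟨φ, hφ⟩ : ∃ φ : Module.Dual ℚ K, φ (lam i - lam i') ≠ 0 := by
    by_contra hcon
    push Not at hcon
    exact h (sub_eq_zero.1 ((Module.forall_dual_apply_eq_zero_iff ℚ _).1 hcon))
  obtain ⟨M, hM⟩ := IsLocalization.exist_integer_multiples_of_finite (nonZeroDivisors ℤ)
    (fun j => φ (lam j))
  choose b hb using hM
  have hM0 : ((M : ℤ) : ℚ) ≠ 0 := by
    have := nonZeroDivisors.coe_ne_zero M
    exact_mod_cast this
  have hb' : ∀ j, (b j : ℚ) = ((M : ℤ) : ℚ) * φ (lam j) := by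
    intro j
    have h1 := hb j
    rw [Algebra.smul_def] at h1
    exact h1
  refine ⟨b, fun h1 => hφ ?_, fun r hr => ?_⟩
  · have h2 : (b i : ℚ) = (b i' : ℚ) := by rw [h1]
    rw [hb', hb'] at h2
    rw [map_sub, mul_left_cancel₀ hM0 h2, sub_self]
  · have h1 := congrArg φ hr
    rw [map_sum, map_zero] at h1
    have h2 : ∀ j, φ ((r j : K) * lam j) = (r j : ℚ) * φ (lam j) := by
      intro j
      have h3 : (r j : K) * lam j = (r j : ℚ) • lam j := by
        rw [Algebra.smul_def]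
        simp
      rw [h3, map_smul, smul_eq_mul]
    simp only [h2] at h1
    have h3 : ((∑ j, r j * b j : ℤ) : ℚ) = ((M : ℤ) : ℚ) * ∑ j, (r j : ℚ) * φ (lam j) := by
      push_cast
      rw [Finset.mul_sum]
      exact Finset.sum_congr rfl fun j _ => by rw [hb' j]; ring
    rw [h1, mul_zero] at h3
    exact_mod_cast h3

variable {k K : Type} [Field k] [Field K] [Algebra k K] {n : ℕ}

theorem val_eq_sum (y : Fin (n + 1) → K) (G : MvPolynomial (Fin (n + 1)) k) :
    val y G = ∑ α ∈ G.support, algebraMap k K (G.coeff α) * ∏ j, y j ^ α j := by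
  unfold val
  rw [MvPolynomial.aeval_def, MvPolynomial.eval₂_eq']

theorem val_wc (y : Fin (n + 1) → K) (b : Fin (n + 1) → ℤ) (v : ℤ)
    (G : MvPolynomial (Fin (n + 1)) k) : val y (wc b v G) =
      ∑ α ∈ G.support with ∑ j, (α j : ℤ) * b j = v, algebraMap k K (G.coeff α) * ∏ j, y j ^ α j := by
  unfold val wc
  rw [map_sum]
  refine Finset.sum_congr rfl fun α _ => ?_
  rw [MvPolynomial.aeval_monomial, Finsupp.prod_fintype _ _ (fun j => pow_zero _)]

/-- the order of a monomial -/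
theorem ord_mon (P : Place k K) {y : Fin (n + 1) → K} {α : Fin (n + 1) →₀ ℕ} {c : k}
    (h : algebraMap k K c * ∏ j, y j ^ α j ≠ 0) :
    P.ord (algebraMap k K c * ∏ j, y j ^ α j) = ∑ j, (α j : ℤ) * P.ord (y j) := by
  have hc : c ≠ 0 := by
    rintro rfl
    exact h (by rw [map_zero, zero_mul])
  have h1 := right_ne_zero_of_mul h
  rw [P.ord_mul (left_ne_zero_of_mul h) h1, P.ord_const hc, zero_add,
    ord_prod' P _ _ fun j hj => Finset.prod_ne_zero_iff.1 h1 j hj]
  exact Finset.sum_congr rfl fun j _ => P.ord_pow _ _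

theorem der_mon (D : Derivation k K K) {y : Fin (n + 1) → K} {α : Fin (n + 1) →₀ ℕ} {c : k}
    (h : algebraMap k K c * ∏ j, y j ^ α j ≠ 0) :
    D (algebraMap k K c * ∏ j, y j ^ α j) = (algebraMap k K c * ∏ j, y j ^ α j) *
      ∑ j, (α j : K) * (D (y j) / y j) := by
  have hpow : ∀ (x : K) (m : ℕ), x ^ m ≠ 0 → D (x ^ m) = x ^ m * (m * (D x / x)) := by
    intro x m hx
    cases m with
    | zero => simp
    | succ m =>
      have hx0 : x ≠ 0 := fun h0 => hx (by rw [h0, zero_pow (by omega)])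
      rw [D.leibniz_pow]
      simp only [nsmul_eq_mul, smul_eq_mul, Nat.add_sub_cancel]
      field_simp
      push_cast
      ring
  have hs : ∀ s : Finset (Fin (n + 1)), (∀ j ∈ s, y j ^ α j ≠ 0) →
      D (∏ j ∈ s, y j ^ α j) = (∏ j ∈ s, y j ^ α j) * ∑ j ∈ s, (α j : K) * (D (y j) / y j) := by
    classical
    intro s
    induction s using Finset.induction_on with
    | empty => intro _; simp
    | insert j s hj ih =>
      intro h1
      rw [Finset.prod_insert hj, Finset.sum_insert hj, D.leibniz,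
        ih fun i hi => h1 i (Finset.mem_insert_of_mem hi),
        hpow _ _ (h1 j (Finset.mem_insert_self j s))]
      simp only [smul_eq_mul]
      ring
  rw [D.leibniz, D.map_algebraMap, smul_zero, add_zero,
    hs Finset.univ fun j hj => Finset.prod_ne_zero_iff.1 (right_ne_zero_of_mul h) j hj]
  simp only [smul_eq_mul]
  ring

theorem sum_exp {G : MvPolynomial (Fin (n + 1)) k} {d : ℕ} (hG : G.IsHomogeneous d)
    {α : Fin (n + 1) →₀ ℕ} (hα : α ∈ G.support) : ∑ j, α j = d := by
  have h2 := hG (MvPolynomial.mem_support_iff.1 hα)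
  rw [← h2]
  simp [Finsupp.weight_apply, Finsupp.sum_fintype]

/-- **Sparse systems.** A subvariety of the open part `x_j ≠ 0` (`j` in `U`) of a variety given by
forms with few monomials and large exponents outside `U` is of log general type, or the variety is
preserved at its generic point by a diagonal one-parameter group. -/
theorem sparse [IsAlgClosed k] [CharZero k] {ι : Type} {U : Set (Fin (n + 1))}
    {F : ι → MvPolynomial (Fin (n + 1)) k} {s N : ℕ} (hF : ∀ e, IsPowSparse U s N (F e))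
    (hN : n * ((s + 1) * tn (s - 1)) ≤ N)
    {w : ℕ} (hw : 0 < w) (htr : Algebra.trdeg k K = w) {y : Fin (n + 1) → K} (hy : y ≠ 0)
    (hgen : Algebra.IsAlgebraic (coords k y) K) (hyF : ∀ e, val y (F e) = 0)
    (hyU : ∀ j ∈ U, y j ≠ 0) (hgt : ¬ LogGeneralType k K w (OffU U y)) :
    ∃ (b : Fin (n + 1) → ℤ) (i i' : Fin (n + 1)), y i ≠ 0 ∧ y i' ≠ 0 ∧ b i ≠ b i' ∧
      ∀ e v, val y (wc b v (F e)) = 0 := by
  classical
  have hwn := dim_le hy hgen htr
  have hK : CharZero K := charZero_of_injective_algebraMap (algebraMap k K).injective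
  let T : ∀ e, (Fin (n + 1) →₀ ℕ) → K := fun e α => algebraMap k K ((F e).coeff α) * ∏ j, y j ^ α j
  let J : ι → Type := fun e => {α : (F e).support // T e α ≠ 0}
  let g : ∀ e, J e → K := fun e α => T e α.1
  have hg : ∀ e j, g e j ≠ 0 := fun e j => j.2
  have hsub : ∀ (e : ι) (h : (Fin (n + 1) →₀ ℕ) → K), ∑ α ∈ (F e).support, h α * T e α =
      ∑ α : J e, h α.1 * g e α := by
    intro e h
    rw [← Finset.sum_coe_sort (F e).support (fun α => h α * T e α)]
    rw [← Finset.sum_subtype (Finset.univ.filter fun α : (F e).support => T e α ≠ 0) (by simp)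
      (fun α : (F e).support => h α * T e α), Finset.sum_filter_of_ne]
    intro α _ hα h0
    exact hα (by rw [h0, mul_zero])
  have hsum : ∀ e, ∑ j, g e j = 0 := by
    intro e
    have h1 := hsub e (fun _ => 1)
    simp only [one_mul] at h1
    rw [← h1, ← val_eq_sum]
    exact hyF e
  have hcard : ∀ e, Fintype.card (J e) ≤ s := fun e =>
    (Fintype.card_subtype_le _).trans (by rw [Fintype.card_coe]; exact (hF e).2.1)
  have hjump : ∀ P : Place k K, ¬ OffU U y P → ∀ e (α β : J e),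
      P.ord (g e α) = P.ord (g e β) ∨
      ((w * ((s + 1) * tn (s - 1)) : ℕ) : ℤ) ≤ |P.ord (g e α) - P.ord (g e β)| := by
    intro P hP e α β
    obtain ⟨μ, hμ⟩ : ∃ μ : ℤ, ∀ j ∈ U, P.ord (y j) = μ := by
      by_cases hU : ∃ j0, j0 ∈ U
      · obtain ⟨j0, hj0⟩ := hU
        refine ⟨P.ord (y j0), fun j hj => ?_⟩
        unfold OffU at hP
        push Not at hP
        exact le_antisymm (hP j hj j0 (hyU j0 hj0)) (hP j0 hj0 j (hyU j hj))
      · exact ⟨0, fun j hj => absurd ⟨j, hj⟩ hU⟩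
    obtain ⟨⟨d, hd⟩, -, N', hN', hdvd⟩ := hF e
    have hα := sum_exp hd α.1.2
    have hβ := sum_exp hd β.1.2
    have h1 : P.ord (g e α) - P.ord (g e β) =
        ∑ j, (((α.1 : Fin (n + 1) →₀ ℕ) j : ℤ) - ((β.1 : Fin (n + 1) →₀ ℕ) j : ℤ)) *
          (P.ord (y j) - μ) := by
      change P.ord (T e α.1) - P.ord (T e β.1) = _
      rw [ord_mon P α.2, ord_mon P β.2, ← Finset.sum_sub_distrib]
      have h2 : ∑ j, (((α.1 : Fin (n + 1) →₀ ℕ) j : ℤ) - ((β.1 : Fin (n + 1) →₀ ℕ) j : ℤ)) = 0 := by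
        rw [Finset.sum_sub_distrib]
        have h3 : (∑ j, ((α.1 : Fin (n + 1) →₀ ℕ) j : ℤ)) = d := by exact_mod_cast hα
        have h4 : (∑ j, ((β.1 : Fin (n + 1) →₀ ℕ) j : ℤ)) = d := by exact_mod_cast hβ
        rw [h3, h4, sub_self]
      have h5 : ∑ j, (((α.1 : Fin (n + 1) →₀ ℕ) j : ℤ) - ((β.1 : Fin (n + 1) →₀ ℕ) j : ℤ)) * μ = 0 := by
        rw [← Finset.sum_mul, h2, zero_mul]
      rw [← sub_zero (∑ j, (((α.1 : Fin (n + 1) →₀ ℕ) j : ℤ) * P.ord (y j) - _)), ← h5,
        ← Finset.sum_sub_distrib]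
      exact Finset.sum_congr rfl fun j _ => by ring
    have h2 : (N' : ℤ) ∣ P.ord (g e α) - P.ord (g e β) := by
      rw [h1]
      refine Finset.dvd_sum fun j _ => ?_
      by_cases hj : j ∈ U
      · rw [hμ j hj, sub_self, mul_zero]
        exact dvd_zero _
      · refine Dvd.dvd.mul_right (dvd_sub ?_ ?_) _
        · exact_mod_cast hdvd _ α.1.2 j hj
        · exact_mod_cast hdvd _ β.1.2 j hj
    by_cases h : P.ord (g e α) = P.ord (g e β)
    · exact Or.inl h
    · right
      have h3 : w * ((s + 1) * tn (s - 1)) ≤ N' :=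
        ((Nat.mul_le_mul_right _ hwn).trans hN).trans hN'
      have h4 : ((w * ((s + 1) * tn (s - 1)) : ℕ) : ℤ) ≤ N' := by exact_mod_cast h3
      refine h4.trans ?_
      exact Int.le_of_dvd (abs_pos.2 (sub_ne_zero.2 h)) ((dvd_abs _ _).2 h2)
  rcases system hw htr g hg hsum hcard (OffU U y) hjump with h | ⟨D, hD, hR⟩
  · exact absurd h hgt
  obtain ⟨i, i', hii⟩ := moves hgen hD
  have hyi : y i ≠ 0 := by
    intro h0
    apply hii
    rw [h0, map_zero]
    ring
  have hyi' : y i' ≠ 0 := by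
    intro h0
    apply hii
    rw [h0, map_zero]
    ring
  have hlam : D (y i) / y i ≠ D (y i') / y i' := by
    intro h0
    apply hii
    field_simp at h0
    linear_combination -h0
  obtain ⟨b, hb, hb2⟩ := int_weights (fun j => D (y j) / y j) hlam
  refine ⟨b, i, i', hyi, hyi', hb, fun e v => ?_⟩
  obtain ⟨R, hRe, hRD, hRs⟩ := hR e
  rw [val_wc, Finset.sum_filter]
  have h1 := hsub e (fun α => if ∑ j, (α j : ℤ) * b j = v then 1 else 0)
  simp only [ite_mul, one_mul, zero_mul] at h1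
  rw [h1]
  have h2 := weighted_sum R hRe (g e)
    (fun α => if ∑ j, ((α.1 : Fin (n + 1) →₀ ℕ) j : ℤ) * b j = v then 1 else 0) ?_ hRs
  · simpa only [ite_mul, one_mul, zero_mul] using h2
  · intro α β hαβ
    have h3 := hRD α β hαβ
    change D (T e α.1) * T e β.1 = T e α.1 * D (T e β.1) at h3
    rw [der_mon D α.2, der_mon D β.2] at h3
    have h4 : ∑ j, ((α.1 : Fin (n + 1) →₀ ℕ) j : K) * (D (y j) / y j) =
        ∑ j, ((β.1 : Fin (n + 1) →₀ ℕ) j : K) * (D (y j) / y j) := by
      apply mul_left_cancel₀ (mul_ne_zero α.2 β.2)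
      linear_combination h3
    have h5 := hb2 (fun j => ((α.1 : Fin (n + 1) →₀ ℕ) j : ℤ) - ((β.1 : Fin (n + 1) →₀ ℕ) j : ℤ)) (by
      push_cast
      simp only [sub_mul, Finset.sum_sub_distrib]
      rw [h4, sub_self])
    simp only [sub_mul, Finset.sum_sub_distrib] at h5
    rw [sub_eq_zero.1 h5]

end Pool.Agent.W602.GT
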