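import Pool.Agent.W602.GT.NG
import Pool.Agent.W602.GT.Ps
import Pool.Agent.W602.GT.Gm

/-!
Varieties with a diagonal one-parameter group are not of log general type.
-/

set_option autoImplicit false

open FF IntermediateField Pool.Agent.W603.LV

namespace Pool.Agent.W602.GT

/-- dividing weights by their greatest common divisor -/
theorem exists_weights {m : ℕ} (β : Fin m → ℤ) (h : ∃ j, β j ≠ 0) :
    ∃ (g : ℤ) (b' c : Fin m → ℤ), g ≠ 0 ∧ (∀ j, β j = g * b' j) ∧ ∑ j, c j * b' j = 1 := by
  obtain ⟨g, hg⟩ := (IsPrincipalIdealRing.principal (Ideal.span (Set.range β))).principal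
  have h1 : ∀ j, g ∣ β j := by
    intro j
    have h2 : β j ∈ Ideal.span (Set.range β) := Ideal.subset_span ⟨j, rfl⟩
    rw [hg] at h2
    exact Ideal.mem_span_singleton.1 h2
  choose b' hb' using h1
  have hg0 : g ≠ 0 := by
    rintro rfl
    obtain ⟨j, hj⟩ := h
    exact hj (by rw [hb' j, zero_mul])
  have h2 : g ∈ Ideal.span (Set.range β) := by
    rw [hg]
    exact Ideal.mem_span_singleton_self g
  obtain ⟨c, hc⟩ := (Submodule.mem_span_range_iff_exists_fun ℤ).1 h2
  refine ⟨g, b', c, hg0, hb', ?_⟩
  have h3 : g * ∑ j, c j * b' j = g * 1 := by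
    rw [mul_one]
    refine Eq.trans ?_ hc
    rw [Finset.mul_sum]
    refine Finset.sum_congr rfl fun j _ => ?_
    rw [hb' j, smul_eq_mul]
    ring
  exact mul_left_cancel₀ hg0 h3

variable {k K : Type} [Field k] [Field K] [Algebra k K] {n : ℕ}

/-- the action of a diagonal one-parameter group on the values -/
theorem val_orbit {L : Type} [Field L] [Algebra k L] (y : Fin (n + 1) → L) (b : Fin (n + 1) → ℤ)
    {t : L} (ht : t ≠ 0) (G : MvPolynomial (Fin (n + 1)) k)
    (h : ∀ v, val y (wc b v G) = 0) : val (fun j => t ^ b j * y j) G = 0 := by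
  classical
  rw [val_eq_sum]
  have h1 : ∀ α ∈ G.support, algebraMap k L (G.coeff α) * ∏ j, (t ^ b j * y j) ^ α j =
      t ^ (∑ j, (α j : ℤ) * b j) * (algebraMap k L (G.coeff α) * ∏ j, y j ^ α j) := by
    intro α _
    have h2 : t ^ (∑ j, (α j : ℤ) * b j) = ∏ j, (t ^ b j) ^ α j := by
      have h3 : ∀ s : Finset (Fin (n + 1)), t ^ (∑ j ∈ s, (α j : ℤ) * b j) =
          ∏ j ∈ s, (t ^ b j) ^ α j := by
        intro s
        induction s using Finset.induction_on with
        | empty => simp
        | insert a s ha ih =>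
          rw [Finset.sum_insert ha, Finset.prod_insert ha, zpow_add₀ ht, ih, mul_comm (α a : ℤ),
            zpow_mul, zpow_natCast]
      exact h3 _
    rw [h2]
    simp only [mul_pow, Finset.prod_mul_distrib]
    ring
  rw [Finset.sum_congr rfl h1, ← Finset.sum_fiberwise_of_maps_to
    (g := fun α : Fin (n + 1) →₀ ℕ => ∑ j, (α j : ℤ) * b j)
    (t := G.support.image fun α => ∑ j, (α j : ℤ) * b j)
    (fun α hα => Finset.mem_image_of_mem _ hα)]
  refine Finset.sum_eq_zero fun v _ => ?_
  have h2 := h v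
  rw [val_wc] at h2
  rw [← mul_zero (t ^ v), ← h2, Finset.mul_sum]
  refine Finset.sum_congr rfl fun α hα => ?_
  rw [(Finset.mem_filter.1 hα).2]

/-- inhomogeneous relations from homogeneous ones -/
theorem dehom {L L' : Type} [Field L] [Algebra k L] [Field L'] [Algebra k L']
    {y : Fin (n + 1) → L} {y' : Fin (n + 1) → L'} {i0 : Fin (n + 1)} (h0 : y i0 ≠ 0)
    (h0' : y' i0 ≠ 0)
    (h : ∀ G : MvPolynomial (Fin (n + 1)) k, IsForm G → val y G = 0 → val y' G = 0)
    (p : MvPolynomial (Fin (n + 1)) k) (hp : MvPolynomial.aeval (fun j => y j / y i0) p = 0) :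
    MvPolynomial.aeval (fun j => y' j / y' i0) p = 0 := by
  classical
  set D := p.totalDegree with hD
  let P : MvPolynomial (Fin (n + 1)) k := ∑ a ∈ p.support,
    MvPolynomial.monomial (a + Finsupp.single i0 (D - ∑ j, a j)) (p.coeff a)
  have hle : ∀ a ∈ p.support, ∑ j, a j ≤ D := by
    intro a ha
    have h1 := MvPolynomial.le_totalDegree ha
    rw [Finsupp.sum_fintype _ _ (fun _ => rfl)] at h1
    exact h1
  have hform : IsForm P := by
    refine ⟨D, MvPolynomial.IsHomogeneous.sum _ _ _ fun a ha => ?_⟩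
    apply MvPolynomial.isHomogeneous_monomial
    rw [Finsupp.degree_eq_sum]
    simp only [Finsupp.add_apply, Finset.sum_add_distrib]
    rw [← Finsupp.degree_eq_sum (Finsupp.single i0 _), Finsupp.degree_single]
    have := hle a ha
    omega
  have hval : ∀ {M : Type} [Field M] [Algebra k M] (z : Fin (n + 1) → M), z i0 ≠ 0 →
      val z P = z i0 ^ D * MvPolynomial.aeval (fun j => z j / z i0) p := by
    intro M _ _ z hz
    rw [MvPolynomial.aeval_def, MvPolynomial.eval₂_eq', Finset.mul_sum]
    unfold val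
    rw [map_sum]
    refine Finset.sum_congr rfl fun a ha => ?_
    rw [MvPolynomial.aeval_monomial, Finsupp.prod_fintype _ _ (fun j => pow_zero _)]
    have h1 : ∏ j, z j ^ (a + Finsupp.single i0 (D - ∑ j, a j)) j =
        (∏ j, z j ^ a j) * z i0 ^ (D - ∑ j, a j) := by
      simp only [Finsupp.add_apply, pow_add, Finset.prod_mul_distrib]
      congr 1
      rw [Finset.prod_eq_single i0]
      · simp
      · intro j _ hj
        rw [Finsupp.single_eq_of_ne hj, pow_zero]
      · intro hj
        exact absurd (Finset.mem_univ _) hj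
    have h2 : ∏ j, (z j / z i0) ^ a j = (∏ j, z j ^ a j) / z i0 ^ (∑ j, a j) := by
      simp only [div_pow, Finset.prod_div_distrib]
      rw [Finset.prod_pow_eq_pow_sum]
    have h3 : z i0 ^ D = z i0 ^ (∑ j, a j) * z i0 ^ (D - ∑ j, a j) := by
      rw [← pow_add, Nat.add_sub_cancel' (hle a ha)]
    rw [h1, h2, h3]
    have h4 : z i0 ^ (∑ j, a j) ≠ 0 := pow_ne_zero _ hz
    field_simp
  have h1 : val y P = 0 := by rw [hval y h0, hp, mul_zero]
  have h2 := h P hform h1
  rw [hval y' h0'] at h2
  exact (mul_eq_zero.1 h2).resolve_left (pow_ne_zero _ h0')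

/-- Homogeneous relations between the coordinates determine the field: a point `y'` at which all
forms vanish which vanish at `y`, and conversely, gives an embedding of the function field. -/
theorem exists_embedding {L : Type} [Field L] [Algebra k L] {y : Fin (n + 1) → K}
    {y' : Fin (n + 1) → L} {i0 : Fin (n + 1)} (h0 : y i0 ≠ 0) (h0' : y' i0 ≠ 0)
    (hgen : coords k y = ⊤)
    (h : ∀ G : MvPolynomial (Fin (n + 1)) k, IsForm G → (val y G = 0 ↔ val y' G = 0)) :
    ∃ φ : K →ₐ[k] L, ∀ j, φ (y j / y i0) = y' j / y' i0 := by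
  let ρ : Fin (n + 1) → K := fun j => y j / y i0
  let ρ' : Fin (n + 1) → L := fun j => y' j / y' i0
  have hker : ∀ p : MvPolynomial (Fin (n + 1)) k, MvPolynomial.aeval ρ p = 0 ↔
      MvPolynomial.aeval ρ' p = 0 := fun p =>
    ⟨dehom h0 h0' (fun G hG => (h G hG).1) p, dehom h0' h0 (fun G hG => (h G hG).2) p⟩
  let A := Algebra.adjoin k (Set.range ρ)
  have hAr : ∀ a : A, ∃ p : MvPolynomial (Fin (n + 1)) k, MvPolynomial.aeval ρ p = (a : K) := by
    rintro ⟨a, ha⟩
    change a ∈ Algebra.adjoin k (Set.range ρ) at ha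
    rw [Algebra.adjoin_range_eq_range_aeval] at ha
    exact ha
  choose p hp using hAr
  let g : A →ₐ[k] L := AlgHom.mk' 
    { toFun := fun a => MvPolynomial.aeval ρ' (p a)
      map_one' := by
        have h1 : MvPolynomial.aeval ρ' (p 1 - 1) = 0 := by
          rw [← hker, map_sub, hp, map_one]
          simp
        rw [map_sub, map_one, sub_eq_zero] at h1
        exact h1
      map_mul' := by
        intro a b
        have h1 : MvPolynomial.aeval ρ' (p (a * b) - p a * p b) = 0 := by
          rw [← hker, map_sub, map_mul, hp, hp, hp]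
          simp
        rw [map_sub, map_mul, sub_eq_zero] at h1
        exact h1
      map_zero' := by
        have h1 : MvPolynomial.aeval ρ' (p 0) = 0 := by
          rw [← hker, hp]
          simp
        exact h1
      map_add' := by
        intro a b
        have h1 : MvPolynomial.aeval ρ' (p (a + b) - (p a + p b)) = 0 := by
          rw [← hker, map_sub, map_add, hp, hp, hp]
          simp
        rw [map_sub, map_add, sub_eq_zero] at h1
        exact h1 } (by
      intro c a
      change MvPolynomial.aeval ρ' (p (c • a)) = c • MvPolynomial.aeval ρ' (p a)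
      have h1 : MvPolynomial.aeval ρ' (p (c • a) - c • p a) = 0 := by
        rw [← hker, map_sub, map_smul, hp, hp]
        simp
      rw [map_sub, map_smul, sub_eq_zero] at h1
      exact h1)
  have hg : ∀ a, g a = MvPolynomial.aeval ρ' (p a) := fun a => rfl
  have hinj : Function.Injective g := by
    rw [injective_iff_map_eq_zero]
    intro a ha
    rw [hg, ← hker, hp] at ha
    exact Subtype.ext ha
  have hfr : IsFractionRing A K := by
    have h1 : (Set.range ρ : Set K) ⊆ {z | ∃ i j, y j ≠ 0 ∧ z = y i / y j} := by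
      rintro _ ⟨j, rfl⟩
      exact ⟨j, i0, h0, rfl⟩
    have h2 : IntermediateField.adjoin k (Set.range ρ) = ⊤ := by
      rw [eq_top_iff, ← hgen]
      unfold coords
      rw [IntermediateField.adjoin_le_iff]
      rintro _ ⟨i, j, hj, rfl⟩
      have h3 : y i / y j = ρ i / ρ j := by
        simp only [ρ]
        field_simp
      rw [h3]
      exact div_mem (IntermediateField.subset_adjoin k _ ⟨i, rfl⟩)
        (IntermediateField.subset_adjoin k _ ⟨j, rfl⟩)
    apply IsFractionRing.of_field
    intro z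
    have hz : z ∈ IntermediateField.adjoin k (Set.range ρ) := by
      rw [h2]; exact IntermediateField.mem_top
    rw [IntermediateField.mem_adjoin_iff_div] at hz
    obtain ⟨r, hr, s, hs, hz⟩ := hz
    exact ⟨⟨r, hr⟩, ⟨s, hs⟩, hz⟩
  refine ⟨IsFractionRing.liftAlgHom (g := g) hinj, fun j => ?_⟩
  have h1 : y j / y i0 = algebraMap A K ⟨ρ j, Algebra.subset_adjoin ⟨j, rfl⟩⟩ := rfl
  rw [h1]
  rw [IsFractionRing.liftAlgHom_apply, IsFractionRing.lift_algebraMap]
  change g _ = _
  rw [hg]
  have h2 : MvPolynomial.aeval ρ' (p ⟨ρ j, Algebra.subset_adjoin ⟨j, rfl⟩⟩ - MvPolynomial.X j) = 0 := by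
    rw [← hker, map_sub, hp, MvPolynomial.aeval_X, sub_self]
  rw [map_sub, MvPolynomial.aeval_X, sub_eq_zero] at h2
  exact h2

/-- the generic point of an orbit -/
theorem orbit_iff (y : Fin (n + 1) → K) (b : Fin (n + 1) → ℤ)
    (hH : ∀ G : MvPolynomial (Fin (n + 1)) k, IsForm G → val y G = 0 → ∀ v, val y (wc b v G) = 0)
    (G : MvPolynomial (Fin (n + 1)) k) (hG : IsForm G) : val y G = 0 ↔
      val (fun j => (RatFunc.X : RatFunc K) ^ b j * algebraMap K (RatFunc K) (y j)) G = 0 := by
  classical
  have hX : (RatFunc.X : RatFunc K) ≠ 0 := RatFunc.X_ne_zero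
  let f : K →ₐ[k] RatFunc K := IsScalarTower.toAlgHom k K (RatFunc K)
  constructor
  · intro h
    apply val_orbit (L := RatFunc K) (fun j => algebraMap K (RatFunc K) (y j)) b hX
    intro v
    have h1 := val_map f (wc b v G) y
    rw [hH G hG h v, map_zero] at h1
    exact h1.symm
  · intro h
    let T : (Fin (n + 1) →₀ ℕ) → K := fun α => algebraMap k K (G.coeff α) * ∏ j, y j ^ α j
    let wg : (Fin (n + 1) →₀ ℕ) → ℤ := fun α => ∑ j, (α j : ℤ) * b j
    obtain ⟨M, hM⟩ : ∃ M : ℕ, ∀ α ∈ G.support, 0 ≤ wg α + M := by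
      refine ⟨∑ α ∈ G.support, (wg α).natAbs, fun α hα => ?_⟩
      have h1 := Finset.single_le_sum (f := fun α => (wg α).natAbs)
        (fun _ _ => Nat.zero_le _) hα
      have h2 : (((wg α).natAbs : ℕ) : ℤ) ≤ ((∑ α ∈ G.support, (wg α).natAbs : ℕ) : ℤ) := by
        exact_mod_cast h1
      have h3 := Int.le_natAbs (a := -(wg α))
      rw [Int.natAbs_neg] at h3
      linarith
    let R : Polynomial K := ∑ α ∈ G.support,
      Polynomial.C (T α) * Polynomial.X ^ (wg α + M).toNat
    have h1 : algebraMap (Polynomial K) (RatFunc K) R = RatFunc.X ^ M * val (fun j =>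
        (RatFunc.X : RatFunc K) ^ b j * algebraMap K (RatFunc K) (y j)) G := by
      rw [val_eq_sum, Finset.mul_sum, map_sum]
      refine Finset.sum_congr rfl fun α hα => ?_
      rw [map_mul, map_pow, RatFunc.algebraMap_X, RatFunc.algebraMap_C]
      have h2 : (RatFunc.X : RatFunc K) ^ (wg α + M).toNat = RatFunc.X ^ (wg α + M) := by
        conv_rhs => rw [← Int.toNat_of_nonneg (hM α hα)]
        rw [zpow_natCast]
      have h3 : (RatFunc.X : RatFunc K) ^ (wg α) =
          ∏ j, ((RatFunc.X : RatFunc K) ^ b j) ^ α j := by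
        have h4 : ∀ s : Finset (Fin (n + 1)), (RatFunc.X : RatFunc K) ^ (∑ j ∈ s, (α j : ℤ) * b j) =
            ∏ j ∈ s, ((RatFunc.X : RatFunc K) ^ b j) ^ α j := by
          intro s
          induction s using Finset.induction_on with
          | empty => simp
          | insert a s ha ih =>
            rw [Finset.sum_insert ha, Finset.prod_insert ha, zpow_add₀ hX, ih,
              mul_comm (α a : ℤ), zpow_mul, zpow_natCast]
        exact h4 _
      have h5 : (RatFunc.C (T α) : RatFunc K) = algebraMap k (RatFunc K) (G.coeff α) *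
          ∏ j, algebraMap K (RatFunc K) (y j) ^ α j := by
        have h6 : (RatFunc.C (T α) : RatFunc K) = algebraMap K (RatFunc K) (T α) := rfl
        rw [h6]
        simp only [T]
        rw [map_mul, map_prod, ← IsScalarTower.algebraMap_apply]
        simp only [map_pow]
      rw [h2, zpow_add₀ hX, h3, h5, zpow_natCast]
      simp only [mul_pow, Finset.prod_mul_distrib]
      ring
    rw [h, mul_zero] at h1
    have h2 : R = 0 := (RatFunc.algebraMap_injective K) (by rw [h1, map_zero])
    have h3 := congrArg (Polynomial.eval 1) h2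
    rw [Polynomial.eval_finsetSum, Polynomial.eval_zero] at h3
    rw [val_eq_sum, ← h3]
    refine Finset.sum_congr rfl fun α _ => ?_
    rw [Polynomial.eval_mul, Polynomial.eval_C, Polynomial.eval_pow, Polynomial.eval_X, one_pow,
      mul_one]

/-- **Orbits.** If the ideal of the generic point is homogeneous with respect to nonconstant
weights, then the variety is not of log general type. -/
theorem orb_not_gt [CharZero k] {U : Set (Fin (n + 1))} {w : ℕ} {y : Fin (n + 1) → K}
    (hgen : coords k y = ⊤) (b : Fin (n + 1) → ℤ) {i i' : Fin (n + 1)} (hi : y i ≠ 0)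
    (hi' : y i' ≠ 0) (hb : b i ≠ b i') (hyU : ∀ j ∈ U, y j ≠ 0)
    (hH : ∀ G : MvPolynomial (Fin (n + 1)) k, IsForm G → val y G = 0 →
      ∀ v, val y (wc b v G) = 0) : ¬ LogGeneralType k K w (OffU U y) := by
  classical
  let β : Fin (n + 1) → ℤ := fun j => if y j ≠ 0 then b j - b i else 0
  obtain ⟨g, b', c, hg, hβ, hc⟩ := exists_weights β ⟨i', by
    simp only [β, if_pos hi']
    exact sub_ne_zero.2 hb.symm⟩
  have hX : (RatFunc.X : RatFunc K) ≠ 0 := RatFunc.X_ne_zero
  let y' : Fin (n + 1) → RatFunc K := fun j => RatFunc.X ^ b j * algebraMap K (RatFunc K) (y j)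
  have hy' : y' i ≠ 0 := mul_ne_zero (zpow_ne_zero _ hX) (by rw [Ne, map_eq_zero]; exact hi)
  obtain ⟨φ, hφ⟩ := exists_embedding (L := RatFunc K) hi hy' hgen (orbit_iff y b hH)
  let r : Fin (n + 1) → K := fun j => if y j ≠ 0 then y j / y i else 1
  have hr0 : ∀ j, r j ≠ 0 := by
    intro j
    simp only [r]
    split_ifs with h
    · exact div_ne_zero h hi
    · exact one_ne_zero
  have hrφ : ∀ j, φ (r j) = RatFunc.X ^ β j * algebraMap K (RatFunc K) (r j) := by
    intro j
    by_cases h : y j ≠ 0
    · simp only [r, β, if_pos h]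
      rw [hφ]
      simp only [y']
      rw [map_div₀, zpow_sub₀ hX]
      have h1 : algebraMap K (RatFunc K) (y i) ≠ 0 := by rw [Ne, map_eq_zero]; exact hi
      have h2 : (RatFunc.X : RatFunc K) ^ b i ≠ 0 := zpow_ne_zero _ hX
      field_simp
    · simp only [r, β, if_neg h]
      simp
  set σ : K := ∏ j, r j ^ c j with hσdef
  have hσ0 : σ ≠ 0 := Finset.prod_ne_zero_iff.2 fun j _ => zpow_ne_zero _ (hr0 j)
  have hσφ : φ σ = RatFunc.X ^ g * algebraMap K (RatFunc K) σ := by
    have h1 : g = ∑ j, c j * β j := by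
      have h2 : ∑ j, c j * β j = g * ∑ j, c j * b' j := by
        rw [Finset.mul_sum]
        exact Finset.sum_congr rfl fun j _ => by rw [hβ j]; ring
      rw [h2, hc, mul_one]
    have h2 : (RatFunc.X : RatFunc K) ^ (∑ j, c j * β j) = ∏ j, (RatFunc.X ^ β j) ^ c j := by
      have h4 : ∀ s : Finset (Fin (n + 1)), (RatFunc.X : RatFunc K) ^ (∑ j ∈ s, c j * β j) =
          ∏ j ∈ s, ((RatFunc.X : RatFunc K) ^ β j) ^ c j := by
        intro s
        induction s using Finset.induction_on with
        | empty => simp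
        | insert a s ha ih =>
          rw [Finset.sum_insert ha, Finset.prod_insert ha, zpow_add₀ hX, ih,
            mul_comm (c a), zpow_mul]
      exact h4 _
    rw [h1, h2, hσdef, map_prod, map_prod, ← Finset.prod_mul_distrib]
    refine Finset.prod_congr rfl fun j _ => ?_
    rw [map_zpow₀, hrφ, map_zpow₀, mul_zpow]
  let z : Fin (n + 1) → K := fun j => r j * σ ^ (- b' j)
  have hz0 : ∀ j, z j ≠ 0 := fun j => mul_ne_zero (hr0 j) (zpow_ne_zero _ hσ0)
  have hrz : ∀ j, r j = z j * σ ^ (b' j) := by
    intro j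
    simp only [z]
    rw [mul_assoc, ← zpow_add₀ hσ0]
    simp
  have hzφ : ∀ j, φ (z j) = algebraMap K (RatFunc K) (z j) := by
    intro j
    simp only [z]
    rw [map_mul, map_zpow₀, hrφ, hσφ, map_mul, map_zpow₀, mul_zpow, ← zpow_mul, hβ j]
    have h1 : (RatFunc.X : RatFunc K) ^ (g * b' j) * RatFunc.X ^ (g * -b' j) = 1 := by
      rw [← zpow_add₀ hX]
      have : g * b' j + g * -b' j = 0 := by ring
      rw [this, zpow_zero]
    linear_combination (algebraMap K (RatFunc K) (r j) *
      algebraMap K (RatFunc K) σ ^ (-b' j)) * h1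
  set E : IntermediateField k K := IntermediateField.adjoin k (Set.range z) with hE
  have hEφ : ∀ x ∈ E, φ x = algebraMap K (RatFunc K) x := by
    intro x hx
    induction hx using IntermediateField.adjoin_induction with
    | mem x hx =>
      obtain ⟨j, rfl⟩ := hx
      exact hzφ j
    | algebraMap c =>
      rw [φ.commutes]
      exact IsScalarTower.algebraMap_apply k K (RatFunc K) c
    | add x y _ _ hx hy => rw [map_add, map_add, hx, hy]
    | inv x _ hx => rw [map_inv₀, map_inv₀, hx]
    | mul x y _ _ hx hy => rw [map_mul, map_mul, hx, hy]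
  have hσt : Transcendental E σ := by
    intro halg
    let φ' : K →ₐ[E] RatFunc K := { φ with
      commutes' := fun e => by
        change φ (e : K) = _
        rw [hEφ _ e.2]
        rfl }
    have h1 : IsAlgebraic E (φ' σ) := halg.algHom φ'
    have h2 : IsAlgebraic K (φ' σ) := h1.tower_top K
    have h3 : φ' σ = RatFunc.X ^ g * algebraMap K (RatFunc K) σ := hσφ
    rw [h3] at h2
    have h4 : IsAlgebraic K ((RatFunc.X : RatFunc K) ^ g) := by
      have h5 := h2.mul (isAlgebraic_algebraMap (A := RatFunc K) (σ⁻¹ : K))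
      have h6 : (RatFunc.X : RatFunc K) ^ g * algebraMap K (RatFunc K) σ *
          algebraMap K (RatFunc K) σ⁻¹ = RatFunc.X ^ g := by
        rw [mul_assoc, ← map_mul, mul_inv_cancel₀ hσ0, map_one, mul_one]
      rwa [h6] at h5
    have h5 : IsAlgebraic K ((RatFunc.X : RatFunc K) ^ g.natAbs) := by
      rcases Int.natAbs_eq g with h | h
      · rw [h, zpow_natCast] at h4
        exact h4
      · rw [h, zpow_neg, zpow_natCast] at h4
        have := h4.inv
        rwa [inv_inv] at this
    have h6 : IsAlgebraic K (RatFunc.X : RatFunc K) :=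
      h5.of_pow (Int.natAbs_pos.2 hg)
    exact RatFunc.transcendental_X h6
  have hmemtop : ∀ L : IntermediateField k K, (∀ j, r j ∈ L) → L = ⊤ := by
    intro L hL
    rw [eq_top_iff, ← hgen]
    unfold coords
    rw [IntermediateField.adjoin_le_iff]
    rintro _ ⟨l, j, hj, rfl⟩
    by_cases hl : y l = 0
    · rw [hl, zero_div]
      exact zero_mem L
    · have h1 := div_mem (hL l) (hL j)
      simp only [r, if_pos hj] at h1
      rw [if_pos hl] at h1
      have h2 : y l / y i / (y j / y i) = y l / y j := by field_simp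
      rwa [h2] at h1
  have hEtop : E⟮σ⟯ = ⊤ := by
    have h1 := hmemtop (E⟮σ⟯.restrictScalars k) (fun j => by
      rw [hrz]
      have h1 : z j ∈ E⟮σ⟯ := (E⟮σ⟯).algebraMap_mem
        (⟨z j, IntermediateField.subset_adjoin k _ ⟨j, rfl⟩⟩ : E)
      exact mul_mem h1 (zpow_mem (IntermediateField.mem_adjoin_simple_self E σ) _))
    rw [eq_top_iff]
    intro x _
    have h2 : x ∈ (E⟮σ⟯.restrictScalars k) := by
      rw [h1]; exact IntermediateField.mem_top
    exact h2
  have hbasis : IsTranscendenceBasis E (fun _ : Unit => σ) := by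
    have h1 : AlgebraicIndependent E (fun _ : Unit => σ) :=
      (algebraicIndependent_unique_type_iff).2 hσt
    rw [h1.isTranscendenceBasis_iff_isAlgebraic]
    apply alg_adjoin
    have h2 : Set.range (fun _ : Unit => σ) = {σ} := by simp
    rw [h2, hEtop]
    infer_instance
  have hcharE : CharZero E := charZero_of_injective_algebraMap (algebraMap k E).injective
  obtain ⟨δ0, hδ0⟩ := exists_der (fun _ : Unit => σ) hbasis (fun _ => σ)
  let δ : Derivation k K K := δ0.restrictScalars k
  have hδσ : δ σ = σ := hδ0 ()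
  have hδz : ∀ j, δ (z j) = 0 := by
    intro j
    have h1 : z j = algebraMap E K ⟨z j, IntermediateField.subset_adjoin k _ ⟨j, rfl⟩⟩ := rfl
    change δ0 (z j) = 0
    rw [h1]
    exact δ0.map_algebraMap _
  have htop : (consts δ)⟮σ⟯ = ⊤ := by
    have h1 := hmemtop ((consts δ)⟮σ⟯.restrictScalars k) (fun j => by
      rw [hrz]
      have h1 : z j ∈ (consts δ)⟮σ⟯ := ((consts δ)⟮σ⟯).algebraMap_mem
        (⟨z j, hδz j⟩ : consts δ)
      exact mul_mem h1 (zpow_mem (IntermediateField.mem_adjoin_simple_self (consts δ) σ) _))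
    rw [eq_top_iff]
    intro x _
    have h2 : x ∈ ((consts δ)⟮σ⟯.restrictScalars k) := by
      rw [h1]; exact IntermediateField.mem_top
    exact h2
  refine not_log_gt δ hσ0 hδσ htop ?_
  rintro P hP hPσ ⟨j, hj, l, hl, hlt⟩
  have hr : ∀ j, y j ≠ 0 → P.ord (y j) = P.ord (y i) := by
    intro j hj
    have h1 : P.ord (r j) = 0 := by
      rw [hrz, P.ord_mul (hz0 j) (zpow_ne_zero _ hσ0), P.ord_zpow, hPσ, mul_zero, add_zero]
      exact hP _ (hδz j) (hz0 j)
    simp only [r, if_pos hj] at h1
    rw [P.ord_div hj hi] at h1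
    linarith
  rw [hr l hl, hr j (hyU j hj)] at hlt
  exact lt_irrefl _ hlt

end Pool.Agent.W602.GT
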