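import Pool.Agent.W602.GT.SpDefs

/-!
Images of the multiplicative group.
-/

set_option autoImplicit false

namespace Pool.Agent.W602.GT

variable {k : Type} [Field k] {n : ℕ} {ι : Type}

/-- The polynomials `P` define a nonconstant morphism from the multiplicative group (the
semi-abelian variety `k \ {0}`) to `X = {F = 0}`. -/
structure GmCurve (F : ι → MvPolynomial (Fin (n + 1)) k) (P : Fin (n + 1) → Polynomial k) :
    Prop where
  ne : ∀ t : k, t ≠ 0 → (fun i => (P i).eval t) ≠ 0
  mem : ∀ t : k, t ≠ 0 → ∀ i, val (fun i => (P i).eval t) (F i) = 0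
  nonconst : ∃ t t' : k, t ≠ 0 ∧ t' ≠ 0 ∧
    LinearIndependent k ![fun i => (P i).eval t, fun i => (P i).eval t']

/-- The Zariski closure of the union of the images of the nonconstant morphisms from the
multiplicative group to `X` (as a cone). -/
def SpGm (F : ι → MvPolynomial (Fin (n + 1)) k) : Set (Fin (n + 1) → k) :=
  {x | x ∈ Cone F ∧ ∀ G : MvPolynomial (Fin (n + 1)) k, IsForm G →
    (∀ P, GmCurve F P → ∀ t : k, t ≠ 0 → val (fun i => (P i).eval t) G = 0) → val x G = 0}

end Pool.Agent.W602.GT
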