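import Pool.Agent.W602.GT.Gm
import Pool.Agent.W602.GT.SpGmDefs

/-!
The special sets of the varieties given by sums of few high powers of linear forms.
-/

set_option autoImplicit false

open FF Pool.Agent.W603.LV IntermediateField

namespace Pool.Agent.W602.GT

variable {k : Type} [Field k] {n : ℕ} {ι : Type}

theorem isForm_of_powSum {s N : ℕ} {G : MvPolynomial (Fin (n + 1)) k} (h : IsPowSum s N G) :
    IsForm G := by
  obtain ⟨r, d, l, -, -, rfl⟩ := h
  refine ⟨d, MvPolynomial.IsHomogeneous.sum _ _ _ fun j _ => ?_⟩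
  have h1 : (∑ i, MvPolynomial.C (l j i) * MvPolynomial.X i :
      MvPolynomial (Fin (n + 1)) k).IsHomogeneous 1 := by
    refine MvPolynomial.IsHomogeneous.sum _ _ _ fun i _ => ?_
    have h2 := (MvPolynomial.isHomogeneous_C (Fin (n + 1)) (l j i)).mul
      (MvPolynomial.isHomogeneous_X k i)
    simpa using h2
  have h3 := h1.pow d
  simpa using h3

theorem val_zero_of {G : MvPolynomial (Fin (n + 1)) k} (hG : IsForm G)
    {x : Fin (n + 1) → k} (hx : val x G = 0) : val (0 : Fin (n + 1) → k) G = 0 := by
  obtain ⟨d, hd⟩ := hG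
  have h1 := val_smul hd (0 : k) x
  have h2 : (fun i => (0 : k) * x i) = 0 := by funext i; simp
  rw [h2, hx, mul_zero] at h1
  exact h1

/-- the image of the curve `t ↦ a + t b` -/
theorem line_key [Infinite k] {F : ι → MvPolynomial (Fin (n + 1)) k}
    {G : MvPolynomial (Fin (n + 1)) k}
    (hGm : ∀ P, GmCurve F P → ∀ t : k, t ≠ 0 → val (fun i => (P i).eval t) G = 0)
    {a b : Fin (n + 1) → k} (hab : Line F a b) : val (a + b) G = 0 := by
  classical
  let P : Fin (n + 1) → Polynomial k := fun i =>
    Polynomial.C (a i) + Polynomial.X * Polynomial.C (b i)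
  have hP : ∀ t : k, (fun i => (P i).eval t) = (1 : k) • a + t • b := by
    intro t
    funext i
    simp only [P, Polynomial.eval_add, Polynomial.eval_mul, Polynomial.eval_C, Polynomial.eval_X,
      Pi.add_apply, Pi.smul_apply, smul_eq_mul, one_mul]
  have hli := LinearIndependent.pair_iff.1 hab.1
  obtain ⟨t, ht⟩ := Infinite.exists_notMem_finset ({0, 1} : Finset k)
  have ht0 : t ≠ 0 := fun h => ht (by simp [h])
  have ht1 : t ≠ 1 := fun h => ht (by simp [h])
  have hcur : GmCurve F P := by
    refine ⟨fun t _ h0 => ?_, fun t _ i => ?_, 1, t, one_ne_zero, ht0, ?_⟩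
    · rw [hP] at h0
      exact one_ne_zero (hli 1 t h0).1
    · rw [hP]
      exact hab.2 1 t i
    · rw [hP, hP, LinearIndependent.pair_iff]
      intro c c' hcc
      have h3 : (c + c') • a + (c + c' * t) • b = 0 := by
        rw [← hcc]
        funext i
        simp
        ring
      obtain ⟨e1, e2⟩ := hli _ _ h3
      have e3 : c' * (t - 1) = 0 := by linear_combination e2 - e1
      have e4 : c' = 0 := (mul_eq_zero.1 e3).resolve_right (sub_ne_zero.2 ht1)
      rw [e4, add_zero] at e1
      exact ⟨e1, e4⟩
  have h1 := hGm P hcur 1 one_ne_zero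
  rw [hP] at h1
  simpa using h1

theorem line_move {F : ι → MvPolynomial (Fin (n + 1)) k} {a b : Fin (n + 1) → k}
    (hab : Line F a b) (p q r s : k) (h : p * s - q * r ≠ 0) :
    Line F (p • a + q • b) (r • a + s • b) := by
  have hli := LinearIndependent.pair_iff.1 hab.1
  refine ⟨?_, fun c c' i => ?_⟩
  · rw [LinearIndependent.pair_iff]
    intro c c' hcc
    have h3 : (c * p + c' * r) • a + (c * q + c' * s) • b = 0 := by
      rw [← hcc]
      funext i
      simp
      ring
    obtain ⟨e1, e2⟩ := hli _ _ h3
    constructor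
    · have : c * (p * s - q * r) = 0 := by linear_combination s * e1 - r * e2
      exact (mul_eq_zero.1 this).resolve_right h
    · have : c' * (p * s - q * r) = 0 := by linear_combination p * e2 - q * e1
      exact (mul_eq_zero.1 this).resolve_right h
  · have h3 : c • (p • a + q • b) + c' • (r • a + s • b) =
        (c * p + c' * r) • a + (c * q + c' * s) • b := by
      funext i
      simp
      ring
    rw [h3]
    exact hab.2 _ _ i

/-- lines are covered by images of the multiplicative group -/
theorem line_sub_gm [Infinite k] (F : ι → MvPolynomial (Fin (n + 1)) k) :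
    SpLine F ⊆ SpGm F := by
  rintro x ⟨hx, h⟩
  refine ⟨hx, fun G hG hGm => h G hG ?_⟩
  intro a b hab c c'
  by_cases hc : c = 0
  · by_cases hc' : c' = 0
    · rw [hc, hc']
      have h1 := val_zero_of hG (line_key hGm hab)
      simpa using h1
    · have h1 := line_key hGm (line_move hab (-1) 0 1 c' (by simpa using hc'))
      have e : (-1 : k) • a + (0 : k) • b + ((1 : k) • a + c' • b) = c • a + c' • b := by
        rw [hc]
        funext i
        simp
      rwa [e] at h1
  · have h1 := line_key hGm (line_move hab 0 (-1) c (c' + 1) (by simpa using hc))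
    have e : (0 : k) • a + (-1 : k) • b + (c • a + (c' + 1) • b) = c • a + c' • b := by
      funext i
      simp
      ring
    rwa [e] at h1

/-- polynomials which vanish at all `t ≠ 0` -/
theorem poly_zero [Infinite k] {Q : Polynomial k} (h : ∀ t : k, t ≠ 0 → Q.eval t = 0) : Q = 0 := by
  classical
  apply Polynomial.eq_zero_of_infinite_isRoot
  refine Set.Infinite.mono (s := {t : k | t ≠ 0}) (fun t ht => h t ht) ?_
  have h1 : ({t : k | t ≠ 0}) = ({0} : Set k)ᶜ := by ext; simp
  rw [h1]
  exact (Set.finite_singleton 0).infinite_compl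

theorem val_poly (P : Fin (n + 1) → Polynomial k) (G : MvPolynomial (Fin (n + 1)) k) :
    ∃ Q : Polynomial k, (∀ t : k, Q.eval t = val (fun i => (P i).eval t) G) ∧
      algebraMap (Polynomial k) (RatFunc k) Q =
        val (fun i => algebraMap (Polynomial k) (RatFunc k) (P i)) G := by
  refine ⟨MvPolynomial.aeval P G, fun t => ?_, ?_⟩
  · unfold val
    have h1 : (Polynomial.aeval t : Polynomial k →ₐ[k] k).comp (MvPolynomial.aeval P) =
        MvPolynomial.aeval (fun i => (P i).eval t) := by
      apply MvPolynomial.algHom_ext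
      intro i
      simp
    rw [← h1]
    simp
  · unfold val
    have h1 : ((Algebra.ofId (Polynomial k) (RatFunc k)).restrictScalars k).comp
        (MvPolynomial.aeval P) = MvPolynomial.aeval
          (fun i => algebraMap (Polynomial k) (RatFunc k) (P i)) := by
      apply MvPolynomial.algHom_ext
      intro i
      simp [Algebra.ofId_apply]
    rw [← h1]
    rfl

variable [CharZero k] [IsAlgClosed k]

/-- images of the multiplicative group are not of general type -/
theorem gm_sub_alg {F : ι → MvPolynomial (Fin (n + 1)) k} (hF : ∀ e, IsForm (F e)) :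
    SpGm F ⊆ SpAlg F := by
  have hinf : Infinite k := inferInstance
  rintro x ⟨hx, h⟩
  refine ⟨hx, fun G hG hA => h G hG ?_⟩
  intro P hP t ht
  obtain ⟨Q, hQ1, hQ2⟩ := val_poly P G
  let y : Fin (n + 1) → RatFunc k := fun i => algebraMap (Polynomial k) (RatFunc k) (P i)
  have hinj : Function.Injective (algebraMap (Polynomial k) (RatFunc k)) :=
    RatFunc.algebraMap_injective k
  obtain ⟨j0, hj0⟩ : ∃ j0, P j0 ≠ 0 := by
    by_contra hcon
    push Not at hcon
    apply hP.ne 1 one_ne_zero
    funext i
    rw [hcon i]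
    simp
  have hj0' : y j0 ≠ 0 := by
    intro h0
    exact hj0 (hinj (by rw [map_zero]; exact h0))
  have hmem : ∀ e, val y (F e) = 0 := by
    intro e
    obtain ⟨R, hR1, hR2⟩ := val_poly P (F e)
    have h0 : R = 0 := poly_zero fun t ht => by rw [hR1]; exact hP.mem t ht e
    rw [← hR2, h0, map_zero]
  have hnc : coords k y ≠ ⊥ := by
    intro hbot
    obtain ⟨t1, t2, ht1, ht2, hli⟩ := hP.nonconst
    -- all ratios are constant
    have hc : ∀ i, ∃ c : k, P i = Polynomial.C c * P j0 := by
      intro i
      have h1 : y i / y j0 ∈ coords k y :=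
        IntermediateField.subset_adjoin k _ ⟨i, j0, hj0', rfl⟩
      rw [hbot, IntermediateField.mem_bot] at h1
      obtain ⟨c, hc⟩ := h1
      refine ⟨c, hinj ?_⟩
      rw [map_mul]
      have h2 : algebraMap (Polynomial k) (RatFunc k) (Polynomial.C c) =
          algebraMap k (RatFunc k) c := by
        rw [IsScalarTower.algebraMap_apply k (Polynomial k) (RatFunc k)]
        rfl
      rw [h2, hc]
      change y i = y i / y j0 * y j0
      field_simp
    choose c hc using hc
    rw [LinearIndependent.pair_iff] at hli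
    have h3 := hli ((P j0).eval t2) (-(P j0).eval t1) (by
      funext i
      simp only [Pi.add_apply, Pi.smul_apply, smul_eq_mul, Pi.zero_apply]
      rw [hc i]
      simp
      ring)
    apply hP.ne t2 ht2
    funext i
    rw [hc i]
    simp [h3.1]
  obtain ⟨y', hs, hgt, htr⟩ := rational_sub hF y hj0' hmem hnc
  have h1 := htr G hG (hA _ 1 y' le_rfl hs hgt)
  rw [← hQ2] at h1
  have h2 : Q = 0 := hinj (by rw [h1, map_zero])
  rw [← hQ1, h2]
  simp

/-- **The special sets.** -/
theorem special {F : ι → MvPolynomial (Fin (n + 1)) k} {s N : ℕ}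
    (hF : ∀ e, IsPowSum s N (F e)) (hN1 : 1 ≤ N) (hN : n * ((s + 1) * tn (s - 1)) ≤ N) :
    SpAlg F = SpLine F ∧ SpGm F = SpLine F := by
  have h1 : SpLine F ⊆ SpGm F := line_sub_gm F
  have h2 : SpGm F ⊆ SpAlg F := gm_sub_alg fun e => isForm_of_powSum (hF e)
  have h3 : SpAlg F ⊆ SpLine F := by
    rintro x ⟨hx, h⟩
    refine ⟨hx, fun G hG hL => h G hG ?_⟩
    intro K _ _ w y hw hy hgt
    have hgen : Algebra.IsAlgebraic (coords k y) K := by
      rw [hy.gen]
      infer_instance
    obtain ⟨v, hv, hl⟩ := waring hF hN1 hN hw hy.dim hy.ne hgen hy.mem hgt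
    exact mem_closure y v hv hl hL
  exact ⟨Set.Subset.antisymm h3 (h1.trans h2), Set.Subset.antisymm (h2.trans h3) h1⟩

end Pool.Agent.W602.GT
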