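import Pool.Agent.W602.GT.Orb
import Pool.Agent.W602.GT.SpThm

/-!
Orbits of diagonal one-parameter groups and the special set of a sparse variety.
-/

set_option autoImplicit false

open FF IntermediateField Pool.Agent.W603.LV

namespace Pool.Agent.W602.GT

section poly

variable {k K : Type} [Field k] [Field K] [Algebra k K] {n : ℕ}

theorem wc_form {G : MvPolynomial (Fin (n + 1)) k} (hG : IsForm G) (b : Fin (n + 1) → ℤ) (v : ℤ) :
    IsForm (wc b v G) := by
  classical
  obtain ⟨d, hd⟩ := hG
  refine ⟨d, MvPolynomial.IsHomogeneous.sum _ _ _ fun α hα => ?_⟩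
  apply MvPolynomial.isHomogeneous_monomial
  rw [Finsupp.degree_eq_sum]
  exact sum_exp hd (Finset.mem_filter.1 hα).1

/-- the value at a point of the orbit as a polynomial in the parameter -/
theorem orbit_poly (x : Fin (n + 1) → K) (b : Fin (n + 1) → ℤ) (G : MvPolynomial (Fin (n + 1)) k) :
    ∃ (M : ℕ) (R : Polynomial K),
      (∀ t : K, t ≠ 0 → R.eval t = t ^ M * val (fun j => t ^ b j * x j) G) ∧
      (algebraMap (Polynomial K) (RatFunc K) R = RatFunc.X ^ M * val (fun j =>
        (RatFunc.X : RatFunc K) ^ b j * algebraMap K (RatFunc K) (x j)) G) ∧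
      (R = 0 → ∀ v, val x (wc b v G) = 0) := by
  classical
  have hX : (RatFunc.X : RatFunc K) ≠ 0 := RatFunc.X_ne_zero
  let T : (Fin (n + 1) →₀ ℕ) → K := fun α => algebraMap k K (G.coeff α) * ∏ j, x j ^ α j
  let wg : (Fin (n + 1) →₀ ℕ) → ℤ := fun α => ∑ j, (α j : ℤ) * b j
  obtain ⟨M, hM⟩ : ∃ M : ℕ, ∀ α ∈ G.support, 0 ≤ wg α + M := by
    refine ⟨∑ α ∈ G.support, (wg α).natAbs, fun α hα => ?_⟩
    have h1 := Finset.single_le_sum (f := fun α => (wg α).natAbs)
      (fun _ _ => Nat.zero_le _) hα
    have h2 : (((wg α).natAbs : ℕ) : ℤ) ≤ ((∑ α ∈ G.support, (wg α).natAbs : ℕ) : ℤ) := by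
      exact_mod_cast h1
    have h3 := Int.le_natAbs (a := -(wg α))
    rw [Int.natAbs_neg] at h3
    linarith
  have hpow : ∀ {L : Type} [Field L] (t : L) (_ : t ≠ 0) (α : Fin (n + 1) →₀ ℕ),
      t ^ (wg α) = ∏ j, (t ^ b j) ^ α j := by
    intro L _ t ht α
    have h4 : ∀ s : Finset (Fin (n + 1)), t ^ (∑ j ∈ s, (α j : ℤ) * b j) =
        ∏ j ∈ s, (t ^ b j) ^ α j := by
      intro s
      induction s using Finset.induction_on with
      | empty => simp
      | insert a s ha ih =>
        rw [Finset.sum_insert ha, Finset.prod_insert ha, zpow_add₀ ht, ih,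
          mul_comm (α a : ℤ), zpow_mul, zpow_natCast]
    exact h4 _
  have hnat : ∀ {L : Type} [Field L] (t : L) (α : Fin (n + 1) →₀ ℕ), α ∈ G.support →
      t ^ (wg α + M).toNat = t ^ (wg α + M) := by
    intro L _ t α hα
    conv_rhs => rw [← Int.toNat_of_nonneg (hM α hα)]
    rw [zpow_natCast]
  refine ⟨M, ∑ α ∈ G.support, Polynomial.C (T α) * Polynomial.X ^ (wg α + M).toNat, ?_, ?_, ?_⟩
  · intro t ht
    rw [Polynomial.eval_finsetSum, val_eq_sum, Finset.mul_sum]
    refine Finset.sum_congr rfl fun α hα => ?_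
    rw [Polynomial.eval_mul, Polynomial.eval_C, Polynomial.eval_pow, Polynomial.eval_X,
      hnat t α hα, zpow_add₀ ht, hpow t ht, zpow_natCast]
    simp only [mul_pow, Finset.prod_mul_distrib, T]
    ring
  · rw [val_eq_sum, Finset.mul_sum, map_sum]
    refine Finset.sum_congr rfl fun α hα => ?_
    rw [map_mul, map_pow, RatFunc.algebraMap_X, RatFunc.algebraMap_C]
    have h5 : (RatFunc.C (T α) : RatFunc K) = algebraMap k (RatFunc K) (G.coeff α) *
        ∏ j, algebraMap K (RatFunc K) (x j) ^ α j := by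
      have h6 : (RatFunc.C (T α) : RatFunc K) = algebraMap K (RatFunc K) (T α) := rfl
      rw [h6]
      simp only [T]
      rw [map_mul, map_prod, ← IsScalarTower.algebraMap_apply]
      simp only [map_pow]
    rw [hnat _ α hα, zpow_add₀ hX, hpow _ hX, h5, zpow_natCast]
    simp only [mul_pow, Finset.prod_mul_distrib]
    ring
  · intro hR v
    rw [val_wc]
    by_cases hv : 0 ≤ v + M
    · have h1 := congrArg (fun p => Polynomial.coeff p (v + M).toNat) hR
      simp only [Polynomial.finsetSum_coeff, Polynomial.coeff_C_mul_X_pow,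
        Polynomial.coeff_zero] at h1
      rw [Finset.sum_filter]
      refine Eq.trans ?_ h1
      refine Finset.sum_congr rfl fun α hα => ?_
      have h2 := hM α hα
      by_cases h3 : wg α = v
      · rw [if_pos h3, if_pos (by rw [h3])]
      · rw [if_neg h3, if_neg]
        intro h4
        apply h3
        have h5 : (v + M : ℤ) = wg α + M := by
          rw [← Int.toNat_of_nonneg hv, ← Int.toNat_of_nonneg h2, h4]
        linarith
    · apply Finset.sum_eq_zero
      intro α hα
      exfalso
      rw [Finset.mem_filter] at hα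
      have h2 := hM α hα.1
      have h3 : wg α = v := hα.2
      rw [h3] at h2
      exact hv h2

end poly

variable {k : Type} [Field k] {n : ℕ}

/-- forms which vanish on an orbit -/
theorem wc_of_orbit [Infinite k] {x : Fin (n + 1) → k} {b : Fin (n + 1) → ℤ}
    {G : MvPolynomial (Fin (n + 1)) k} (h : ∀ t : k, t ≠ 0 → val (fun j => t ^ b j * x j) G = 0)
    (v : ℤ) : val x (wc b v G) = 0 := by
  obtain ⟨M, R, h1, -, h3⟩ := orbit_poly (k := k) x b G
  exact h3 (poly_zero fun t ht => by rw [h1 t ht, h t ht, mul_zero]) v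

/-- a one-dimensional orbit of a diagonal one-parameter group contained in the variety -/
def DiagCurve {ι : Type} (U : Set (Fin (n + 1))) (F : ι → MvPolynomial (Fin (n + 1)) k)
    (x : Fin (n + 1) → k) (b : Fin (n + 1) → ℤ) : Prop :=
  (∀ t : k, t ≠ 0 → (fun j => t ^ b j * x j) ∈ ConeU U F) ∧
    ∃ i i', x i ≠ 0 ∧ x i' ≠ 0 ∧ b i ≠ b i'

theorem diag_of_wc {ι : Type} {U : Set (Fin (n + 1))} {F : ι → MvPolynomial (Fin (n + 1)) k}
    {x : Fin (n + 1) → k} {b : Fin (n + 1) → ℤ} (hU : ∀ j ∈ U, x j ≠ 0)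
    (h : ∀ e v, val x (wc b v (F e)) = 0) (hb : ∃ i i', x i ≠ 0 ∧ x i' ≠ 0 ∧ b i ≠ b i') :
    DiagCurve U F x b := by
  refine ⟨fun t ht => ⟨?_, ?_, ?_⟩, hb⟩
  · obtain ⟨i, -, hi, -⟩ := hb
    intro h0
    have h1 := congrFun h0 i
    exact mul_ne_zero (zpow_ne_zero _ ht) hi h1
  · exact fun j hj => mul_ne_zero (zpow_ne_zero _ ht) (hU j hj)
  · exact fun e => val_orbit (L := k) x b ht (F e) (h e)

variable [CharZero k] [IsAlgClosed k]

/-- the canonical generic point of the closure of the orbit -/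
theorem orbit_subvar {ι : Type} {U : Set (Fin (n + 1))} {F : ι → MvPolynomial (Fin (n + 1)) k}
    (hF : ∀ e, IsForm (F e)) {x : Fin (n + 1) → k} {b : Fin (n + 1) → ℤ}
    (h : DiagCurve U F x b) :
    ∃ (K : Type) (_ : Field K) (_ : Algebra k K) (y : Fin (n + 1) → K),
      SubVarU U F K 1 y ∧ ¬ LogGeneralType k K 1 (OffU U y) ∧
      ∀ G : MvPolynomial (Fin (n + 1)) k, IsForm G → val y G = 0 → val x G = 0 := by
  classical
  have hinf : Infinite k := inferInstance
  obtain ⟨hX, i, i', hi, hi', hb⟩ := h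
  have hXne : (RatFunc.X : RatFunc k) ≠ 0 := RatFunc.X_ne_zero
  let y0 : Fin (n + 1) → RatFunc k := fun j => RatFunc.X ^ b j * algebraMap k (RatFunc k) (x j)
  have hy0 : ∀ j, x j ≠ 0 → y0 j ≠ 0 := fun j hj =>
    mul_ne_zero (zpow_ne_zero _ hXne) (by rw [Ne, map_eq_zero]; exact hj)
  have hiff : ∀ G : MvPolynomial (Fin (n + 1)) k, val y0 G = 0 ↔ ∀ v, val x (wc b v G) = 0 := by
    intro G
    constructor
    · intro h0
      obtain ⟨M, R, -, h2, h3⟩ := orbit_poly (k := k) x b G
      refine h3 ?_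
      apply RatFunc.algebraMap_injective k
      rw [h2, map_zero]
      change _ * val y0 G = 0
      rw [h0, mul_zero]
    · intro h0
      apply val_orbit (L := RatFunc k) (fun j => algebraMap k (RatFunc k) (x j)) b hXne
      intro v
      have h1 := val_map (Algebra.ofId k (RatFunc k)) (wc b v G) x
      rw [h0 v, map_zero] at h1
      exact h1.symm
  have hmem : ∀ e, val y0 (F e) = 0 := fun e =>
    (hiff _).2 (wc_of_orbit fun t ht => (hX t ht).2.2 e)
  have hnc : coords k y0 ≠ ⊥ := by
    intro hbot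
    have h1 : y0 i / y0 i' ∈ coords k y0 :=
      IntermediateField.subset_adjoin k _ ⟨i, i', hy0 i' hi', rfl⟩
    rw [hbot, IntermediateField.mem_bot] at h1
    obtain ⟨c, hc⟩ := h1
    have h2 : (RatFunc.X : RatFunc k) ^ (b i - b i') = algebraMap k (RatFunc k) (c * x i' / x i) := by
      rw [map_div₀, map_mul, hc, zpow_sub₀ hXne]
      have h3 : algebraMap k (RatFunc k) (x i) ≠ 0 := by rw [Ne, map_eq_zero]; exact hi
      have h4 : algebraMap k (RatFunc k) (x i') ≠ 0 := by rw [Ne, map_eq_zero]; exact hi'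
      have h5 : (RatFunc.X : RatFunc k) ^ b i' ≠ 0 := zpow_ne_zero _ hXne
      simp only [y0]
      field_simp
    have h3 : IsAlgebraic k ((RatFunc.X : RatFunc k) ^ (b i - b i')) := by
      rw [h2]; exact isAlgebraic_algebraMap _
    have hg : b i - b i' ≠ 0 := sub_ne_zero.2 hb
    have h5 : IsAlgebraic k ((RatFunc.X : RatFunc k) ^ (b i - b i').natAbs) := by
      rcases Int.natAbs_eq (b i - b i') with h | h
      · rw [h, zpow_natCast] at h3
        exact h3
      · rw [h, zpow_neg, zpow_natCast] at h3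
        have := h3.inv
        rwa [inv_inv] at this
    exact RatFunc.transcendental_X (h5.of_pow (Int.natAbs_pos.2 hg))
  have hyi0 : y0 i ≠ 0 := hy0 i hi
  -- the representative over the field generated by the coordinates
  let y : Fin (n + 1) → coords k y0 := fun j =>
    ⟨y0 j / y0 i, IntermediateField.subset_adjoin k _ ⟨j, i, hyi0, rfl⟩⟩
  have hval : ∀ G : MvPolynomial (Fin (n + 1)) k, ∀ d, G.IsHomogeneous d →
      (y0 i) ^ d * ((val y G : coords k y0) : RatFunc k) = val y0 G := by
    intro G d hG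
    have h1 := val_map (IntermediateField.val (coords k y0)) G y
    have h3 : ((val y G : coords k y0) : RatFunc k) = val (fun j => y0 j / y0 i) G := h1
    rw [h3, ← val_smul hG]
    congr 1
    funext j
    field_simp
  have htr : ∀ G : MvPolynomial (Fin (n + 1)) k, IsForm G → (val y G = 0 ↔ val y0 G = 0) := by
    rintro G ⟨d, hd⟩
    rw [← hval G d hd]
    constructor
    · intro h0
      rw [h0]; simp
    · intro h0
      exact Subtype.ext ((mul_eq_zero.1 h0).resolve_left (pow_ne_zero _ hyi0))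
  obtain ⟨y1, hy1, -, -⟩ := rational_sub hF y0 hyi0 hmem hnc
  have hcoord : coords k y = ⊤ := by
    apply IntermediateField.lift_injective (coords k y0)
    rw [IntermediateField.lift_top]
    unfold coords
    rw [IntermediateField.lift_adjoin]
    congr 1
    ext z
    constructor
    · rintro ⟨_, ⟨l, j, hj, rfl⟩, rfl⟩
      have hj' : y0 j ≠ 0 := by
        intro h0
        apply hj
        apply Subtype.ext
        change y0 j / y0 i = 0
        rw [h0, zero_div]
      refine ⟨l, j, hj', ?_⟩
      change (y0 l / y0 i) / (y0 j / y0 i) = y0 l / y0 j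
      field_simp
    · rintro ⟨l, j, hj, rfl⟩
      refine ⟨y l / y j, ⟨l, j, ?_, rfl⟩, ?_⟩
      · intro h0
        have h1 := congrArg Subtype.val h0
        change y0 j / y0 i = 0 at h1
        exact (div_ne_zero hj hyi0) h1
      · change (y0 l / y0 i) / (y0 j / y0 i) = y0 l / y0 j
        field_simp
  have hyne : ∀ j, x j ≠ 0 → y j ≠ 0 := by
    intro j hj h0
    have h1 := congrArg Subtype.val h0
    change y0 j / y0 i = 0 at h1
    exact (div_ne_zero (hy0 j hj) hyi0) h1
  have hxU : ∀ j ∈ U, x j ≠ 0 := by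
    intro j hj
    have h1 := (hX 1 one_ne_zero).2.1 j hj
    simpa using h1
  refine ⟨coords k y0, inferInstance, inferInstance, y, ⟨?_, ?_, ?_, hcoord, hy1.dim⟩, ?_, ?_⟩
  · exact fun h0 => hyne i hi (congrFun h0 i)
  · exact fun j hj => hyne j (hxU j hj)
  · exact fun e => (htr _ (hF e)).2 (hmem e)
  · refine orb_not_gt hcoord b (hyne i hi) (hyne i' hi') hb (fun j hj => hyne j (hxU j hj)) ?_
    intro G hG h0 v
    rw [htr _ (wc_form hG b v), hiff]
    rw [htr _ hG, hiff] at h0
    intro v'
    rw [val_wc]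
    -- the parts of the parts
    by_cases hvv : v' = v
    · subst hvv
      have h1 := h0 v'
      rw [val_wc] at h1
      have hc : ∀ α, (wc b v' G).coeff α =
          if α ∈ G.support ∧ ∑ j, (α j : ℤ) * b j = v' then G.coeff α else 0 := by
        intro α
        unfold wc
        rw [MvPolynomial.coeff_sum]
        simp only [MvPolynomial.coeff_monomial]
        rw [Finset.sum_ite_eq' _ α]
        simp only [Finset.mem_filter]
      refine Eq.trans ?_ h1
      refine Finset.sum_congr ?_ fun α hα => ?_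
      · ext α
        simp only [Finset.mem_filter, MvPolynomial.mem_support_iff, hc]
        constructor
        · rintro ⟨h2, h3⟩
          refine ⟨fun h4 => h2 ?_, h3⟩
          rw [h4]
          simp
        · rintro ⟨h2, h3⟩
          refine ⟨?_, h3⟩
          rw [if_pos ⟨h2, h3⟩]
          exact h2
      · rw [Finset.mem_filter] at hα
        rw [hc, if_pos ⟨hα.1, hα.2⟩]
    · apply Finset.sum_eq_zero
      intro α hα
      exfalso
      rw [Finset.mem_filter, MvPolynomial.mem_support_iff] at hα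
      apply hα.1
      unfold wc
      rw [MvPolynomial.coeff_sum]
      apply Finset.sum_eq_zero
      intro β hβ
      rw [MvPolynomial.coeff_monomial, if_neg]
      rintro rfl
      exact hvv (hα.2.symm.trans (Finset.mem_filter.1 hβ).2)
  · intro G hG h0
    rw [htr _ hG, hiff] at h0
    have h1 := val_orbit (L := k) x b one_ne_zero G h0
    simpa using h1

/-- **Subvarieties which are not of log general type are covered by orbits.** -/
theorem closure_orbits {ι : Type} {U : Set (Fin (n + 1))} {F : ι → MvPolynomial (Fin (n + 1)) k}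
    {s N : ℕ} (hF : ∀ e, IsPowSparse U s N (F e)) (hN : n * ((s + 1) * tn (s - 1)) ≤ N)
    {K : Type} [Field K] [Algebra k K] {w : ℕ} (hw : 0 < w) {y : Fin (n + 1) → K}
    (hy : SubVarU U F K w y) (hgt : ¬ LogGeneralType k K w (OffU U y))
    {G : MvPolynomial (Fin (n + 1)) k} (hG : val y G ≠ 0) :
    ∃ x b, DiagCurve U F x b ∧ val x G ≠ 0 := by
  classical
  have hgen : Algebra.IsAlgebraic (coords k y) K := by
    rw [hy.gen]
    infer_instance
  obtain ⟨b, i, i', hi, hi', hb, hwc⟩ := sparse hF hN hw hy.dim hy.ne hgen hy.mem hy.unit hgt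
  let H : MvPolynomial (Fin (n + 1)) k := G * (MvPolynomial.X i * MvPolynomial.X i') *
    ∏ j ∈ Finset.univ.filter (fun j => j ∈ U), MvPolynomial.X j
  have hH : MvPolynomial.aeval y H ≠ 0 := by
    simp only [H, map_mul, map_prod, MvPolynomial.aeval_X]
    refine mul_ne_zero (mul_ne_zero hG (mul_ne_zero hi hi')) ?_
    exact Finset.prod_ne_zero_iff.2 fun j hj => hy.unit j (Finset.mem_filter.1 hj).2
  obtain ⟨x, hx, hx0⟩ := specialise y H hH
  simp only [H, map_mul, map_prod, MvPolynomial.aeval_X] at hx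
  have h1 := left_ne_zero_of_mul hx
  have h2 := right_ne_zero_of_mul hx
  have h3 := right_ne_zero_of_mul h1
  refine ⟨x, b, diag_of_wc (fun j hj => ?_) (fun e v => hx0 _ (hwc e v))
    ⟨i, i', left_ne_zero_of_mul h3, right_ne_zero_of_mul h3, hb⟩, left_ne_zero_of_mul h1⟩
  exact Finset.prod_ne_zero_iff.1 h2 j (Finset.mem_filter.2 ⟨Finset.mem_univ _, hj⟩)

end Pool.Agent.W602.GT
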