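import Pool.Agent.W602.GT.War
import Pool.Agent.W619.PQ.Curve

/-!
Rational curves are not of general type.
-/

set_option autoImplicit false

open FF Pool.Agent.W603.LV IntermediateField

namespace Pool.Agent.W602.GT

variable {k K : Type} [Field k] [Field K] [Algebra k K] [CharZero k] [IsAlgClosed k]

theorem divisorial_one (P : Place k K) : Divisorial 1 P := by
  have he : IsEmpty (Fin (1 - 1)) := (inferInstance : IsEmpty (Fin 0))
  refine ⟨fun i => i.elim0, fun F hF => ?_⟩
  have h1 : F = MvPolynomial.C (MvPolynomial.coeff 0 F) := MvPolynomial.eq_C_of_isEmpty F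
  have h2 : MvPolynomial.coeff 0 F ≠ 0 := by
    intro h
    rw [h, map_zero] at h1
    exact hF h1
  rw [h1, MvPolynomial.aeval_C]
  refine ⟨?_, P.ord_const h2⟩
  rw [Ne, map_eq_zero]
  exact h2

/-- a rational curve is not of general type -/
theorem not_gt [IsFF k K] {x : K} (hx : k⟮x⟯ = ⊤) (w : ℕ) : ¬ GeneralType k K w := by
  classical
  rintro ⟨htr, N, hN, ω, hω, hreg, D, hD, -⟩
  obtain rfl : w = 1 := by
    have h1 := IsFF.trdeg (k := k) (K := K)
    rw [h1] at htr
    exact_mod_cast htr.symm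
  set D0 := der k K with hD0
  have hD0ne : D0 ≠ 0 := der_ne
  set f := ω 0 (fun _ => D0) with hf
  obtain ⟨h, hh⟩ := der_smul (D := D0) hD0ne (D' := D 0)
  have hf0 : f ≠ 0 := by
    intro h0
    apply hD
    have h1 := hω 0 (Matrix.of fun _ _ => h) (fun _ => D0)
    have h2 : (fun i : Fin 1 => ∑ j : Fin 1, (Matrix.of fun _ _ => h : Matrix (Fin 1) (Fin 1) K) i j •
        D0) = D := by
      funext i
      rw [Subsingleton.elim i 0, hh]
      simp
    rw [h2] at h1
    rw [h1, ← hf, h0, mul_zero]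
  have hloc : ∀ P : Place k K, N * vo P D0 ≤ P.ord f := by
    intro P
    have hπ := ord_unif P
    have hne := der_pi_ne_zero hD0ne P hπ
    have h1 : DerReg P ((D0 (unif P))⁻¹ • D0) := fun g hg =>
      der_reg P hπ _ (by simp [hne]) hg
    have h2 := hreg P (divisorial_one P) 0 (fun _ => (D0 (unif P))⁻¹ • D0) (fun _ => h1)
    have h3 := hω 0 (Matrix.of fun _ _ => (D0 (unif P))⁻¹) (fun _ => D0)
    have h4 : (fun i : Fin 1 => ∑ j : Fin 1,
        (Matrix.of fun _ _ => (D0 (unif P))⁻¹ : Matrix (Fin 1) (Fin 1) K) i j • D0)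
        = fun _ => (D0 (unif P))⁻¹ • D0 := by
      funext i
      simp
    rw [h4, Matrix.det_fin_one] at h3
    rw [h3, Matrix.of_apply, ← hf] at h2
    have h5 : Ge P 0 ((D0 (unif P))⁻¹ ^ N * f) := h2
    have h6 := Ge.of_mul (pow_ne_zero N (inv_ne_zero hne)) h5
    have h7 := h6.resolve_left hf0
    rw [P.ord_pow, P.ord_inv] at h7
    unfold vo
    linarith
  set T : Finset (Place k K) := (finite_support (k := k) f).toFinset ∪
    (vo_finite hD0ne).toFinset with hT
  have hs1 : ∑ P ∈ T, P.ord f = 0 := sum_ord_finset f T fun P hP =>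
    Finset.mem_union_left _ ((finite_support (k := k) f).mem_toFinset.2 hP)
  have hs2 : ∑ P ∈ T, vo P D0 = 2 := by
    rw [canDeg_finset hD0ne T fun P hP =>
      Finset.mem_union_right _ ((vo_finite hD0ne).mem_toFinset.2 hP),
      Pool.Agent.W619.PQ.canDeg_rational hx]
    rfl
  have h1 := Finset.sum_le_sum fun P (_ : P ∈ T) => hloc P
  rw [← Finset.mul_sum, hs1, hs2] at h1
  have h2 : (0 : ℤ) < N := by exact_mod_cast hN
  linarith

end Pool.Agent.W602.GT
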