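import Pool.Agent.W602.GT.MordDefs

/-!
Uniruled function fields.
-/

set_option autoImplicit false

namespace Pool.Agent.W602.GT

/-- The varieties `X` with function field `K` are uniruled: for some variety `Y` (with function
field `M`) there is a dominant rational map from the product of `Y` and the projective line to `X`
which is not constant on the fibres over `Y`. -/
def Uniruled (k K : Type) [Field k] [Field K] [Algebra k K] : Prop :=
  ∃ (M : Type) (_ : Field M) (_ : Algebra k M), Algebra.EssFiniteType k M ∧
    ∃ φ : K →ₐ[k] RatFunc M, ∃ z, φ z ∉ Set.range (algebraMap M (RatFunc M))

end Pool.Agent.W602.GT
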