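import Pool.Agent.W602.GT.Sys
import Pool.Agent.W602.GT.SpDefs

/-!
Subvarieties of varieties given by sums of few high powers of linear forms.
-/

set_option autoImplicit false

open FF Pool.Agent.W603.LV MvPolynomial

namespace Pool.Agent.W602.GT

variable {k K : Type} [Field k] [Field K] [Algebra k K]

/-- specialisation of points -/
theorem specialise [IsAlgClosed k] {σ : Type} [Finite σ] (z : σ → K) (H : MvPolynomial σ k)
    (hH : aeval z H ≠ 0) :
    ∃ z0 : σ → k, aeval z0 H ≠ 0 ∧ ∀ p : MvPolynomial σ k, aeval z p = 0 → aeval z0 p = 0 := by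
  set P : Ideal (MvPolynomial σ k) := RingHom.ker (aeval z : MvPolynomial σ k →ₐ[k] K) with hP
  have hprime : P.IsPrime := RingHom.ker_isPrime _
  have h1 := MvPolynomial.IsPrime.vanishingIdeal_zeroLocus (K := k) P
  by_contra hcon
  push Not at hcon
  have h2 : H ∈ vanishingIdeal k (zeroLocus k P) := by
    intro z0 hz0
    by_contra h3
    obtain ⟨p, hp1, hp2⟩ := hcon z0 h3
    exact hp2 (hz0 p hp1)
  rw [h1] at h2
  exact hH h2

variable {n : ℕ}

theorem coords_eq (y : Fin (n + 1) → K) {j0 : Fin (n + 1)} (h : y j0 ≠ 0) :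
    coords k y ≤ IntermediateField.adjoin k
      (Set.range fun l : Fin n => y (j0.succAbove l) / y j0) := by
  unfold coords
  rw [IntermediateField.adjoin_le_iff]
  have hmem : ∀ i, y i / y j0 ∈ IntermediateField.adjoin k
      (Set.range fun l : Fin n => y (j0.succAbove l) / y j0) := by
    intro i
    by_cases hi : i = j0
    · rw [hi, div_self h]
      exact one_mem _
    · obtain ⟨l, rfl⟩ := Fin.exists_succAbove_eq hi
      exact IntermediateField.subset_adjoin k _ ⟨l, rfl⟩
  rintro _ ⟨i, j, hj, rfl⟩
  have h1 : y i / y j = (y i / y j0) / (y j / y j0) := by field_simp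
  rw [h1]
  exact div_mem (hmem i) (hmem j)

theorem alg_mono {L L' : IntermediateField k K} (h : L ≤ L') (hL : Algebra.IsAlgebraic L K) :
    Algebra.IsAlgebraic L' K := by
  let _ : Algebra L L' := (IntermediateField.inclusion h).toRingHom.toAlgebra
  have : IsScalarTower L L' K := IsScalarTower.of_algebraMap_eq fun x => rfl
  exact Algebra.IsAlgebraic.extendScalars (R := L) (IntermediateField.inclusion h).toRingHom.injective

/-- the dimension is at most `n` -/
theorem dim_le {y : Fin (n + 1) → K} (hy : y ≠ 0) (hgen : Algebra.IsAlgebraic (coords k y) K)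
    {w : ℕ} (htr : Algebra.trdeg k K = w) : w ≤ n := by
  obtain ⟨j0, hj0⟩ := Function.ne_iff.1 hy
  have hj0' : y j0 ≠ 0 := hj0
  have h1 := alg_adjoin (alg_mono (coords_eq (k := k) y hj0') hgen)
  have h2 := Algebra.IsAlgebraic.trdeg_le_cardinalMk k
    (Set.range fun l : Fin n => y (j0.succAbove l) / y j0)
  rw [htr] at h2
  have h3 := h2.trans (Cardinal.mk_range_le (f := fun l : Fin n => y (j0.succAbove l) / y j0))
  rw [Cardinal.mk_fin] at h3
  exact_mod_cast h3

/-- a nonzero vector field moves the point -/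
theorem moves [CharZero k] {y : Fin (n + 1) → K} (hgen : Algebra.IsAlgebraic (coords k y) K)
    {D : Derivation k K K} (hD : D ≠ 0) : ∃ i j, y i * D (y j) - y j * D (y i) ≠ 0 := by
  by_contra hcon
  push Not at hcon
  apply hD
  refine der_eq_zero D _ hgen ?_
  rintro _ ⟨i, j, hj, rfl⟩
  have h1 := hcon i j
  rw [div_eq_mul_inv, D.leibniz, D.leibniz_inv]
  simp only [smul_eq_mul]
  field_simp
  linear_combination -h1

/-- the substitution of `c y + c' v` -/
noncomputable def comb (c c' : k) : MvPolynomial (Fin (n + 1)) k →ₐ[k]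
    MvPolynomial (Fin (n + 1) ⊕ Fin (n + 1)) k :=
  aeval fun i => C c * X (Sum.inl i) + C c' * X (Sum.inr i)

theorem eval_comb {L : Type} [Field L] [Algebra k L] (c c' : k) (y v : Fin (n + 1) → L)
    (G : MvPolynomial (Fin (n + 1)) k) :
    aeval (Sum.elim y v) (comb c c' G) = val (fun i => algebraMap k L c * y i +
      algebraMap k L c' * v i) G := by
  unfold comb val
  rw [← AlgHom.comp_apply]
  congr 1
  apply MvPolynomial.algHom_ext
  intro i
  simp

/-- A point with coordinates in `K` on a line contained in `X`, defined over `K`, lies in the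
closure of the union of the lines contained in `X`. -/
theorem mem_closure [IsAlgClosed k] {ι : Type} {F : ι → MvPolynomial (Fin (n + 1)) k}
    (y v : Fin (n + 1) → K) (hyv : ∃ i j, y i * v j - y j * v i ≠ 0)
    (hline : ∀ (c c' : K) (i : ι), val (fun l => c * y l + c' * v l) (F i) = 0)
    {G : MvPolynomial (Fin (n + 1)) k}
    (hG : ∀ a b, Line F a b → ∀ c c' : k, val (c • a + c' • b) G = 0) : val y G = 0 := by
  by_contra hne
  obtain ⟨i, j, hij⟩ := hyv
  set H : MvPolynomial (Fin (n + 1) ⊕ Fin (n + 1)) k := comb 1 0 G *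
    (X (Sum.inl i) * X (Sum.inr j) - X (Sum.inl j) * X (Sum.inr i)) with hH
  have h1 : aeval (Sum.elim y v) H ≠ 0 := by
    rw [hH, map_mul, eval_comb]
    refine mul_ne_zero ?_ ?_
    · simpa using hne
    · simpa using hij
  obtain ⟨z, hz, hz0⟩ := specialise (Sum.elim y v) H h1
  obtain ⟨a, b, rfl⟩ : ∃ a b : Fin (n + 1) → k, z = Sum.elim a b :=
    ⟨fun i => z (Sum.inl i), fun i => z (Sum.inr i), by
      funext s
      cases s <;> rfl⟩
  rw [hH, map_mul, eval_comb] at hz
  have hz1 := left_ne_zero_of_mul hz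
  have hz2 := right_ne_zero_of_mul hz
  simp only [map_sub, map_mul, aeval_X, Sum.elim_inl, Sum.elim_inr] at hz2
  have hL : Line F a b := by
    refine ⟨?_, ?_⟩
    · rw [LinearIndependent.pair_iff]
      intro s t hst
      have e1 := congrFun hst i
      have e2 := congrFun hst j
      simp only [Pi.add_apply, Pi.smul_apply, smul_eq_mul, Pi.zero_apply] at e1 e2
      constructor
      · have : s * (a i * b j - a j * b i) = 0 := by linear_combination b j * e1 - b i * e2
        exact (mul_eq_zero.1 this).resolve_right hz2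
      · have : t * (a i * b j - a j * b i) = 0 := by linear_combination a i * e2 - a j * e1
        exact (mul_eq_zero.1 this).resolve_right hz2
    · intro c c' e
      have h2 : aeval (Sum.elim y v) (comb c c' (F e)) = 0 := by
        rw [eval_comb]
        exact hline _ _ e
      have h3 := hz0 _ h2
      rw [eval_comb] at h3
      exact h3
  have h4 := hG a b hL 1 0
  apply hz1
  have e : (fun i => (algebraMap k k) 1 * a i + (algebraMap k k) 0 * b i)
      = (1 : k) • a + (0 : k) • b := by
    funext i
    simp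
  rw [e]
  exact h4

/-- **Waring varieties.** A subvariety of a variety given by sums of few high powers of linear
forms is of general type, or every form which vanishes on the lines of the variety vanishes
on it. -/
theorem waring [IsAlgClosed k] [CharZero k] {ι : Type} {F : ι → MvPolynomial (Fin (n + 1)) k}
    {s N : ℕ} (hF : ∀ e, IsPowSum s N (F e)) (hN1 : 1 ≤ N) (hN : n * ((s + 1) * tn (s - 1)) ≤ N)
    {w : ℕ} (hw : 0 < w) (htr : Algebra.trdeg k K = w) {y : Fin (n + 1) → K} (hy : y ≠ 0)
    (hgen : Algebra.IsAlgebraic (coords k y) K) (hyF : ∀ e, val y (F e) = 0)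
    (hgt : ¬ GeneralType k K w) :
    ∃ v : Fin (n + 1) → K, (∃ i j, y i * v j - y j * v i ≠ 0) ∧
      ∀ (c c' : K) (e : ι), val (fun l => c * y l + c' * v l) (F e) = 0 := by
  classical
  have hwn := dim_le hy hgen htr
  choose r d l hr hd hFe using hF
  have hK : CharZero K := charZero_of_injective_algebraMap (algebraMap k K).injective
  let L : ∀ e, Fin (r e) → (Fin (n + 1) → K) → K := fun e j x =>
    ∑ i, algebraMap k K (l e j i) * x i
  have hval : ∀ (x : Fin (n + 1) → K) e, val x (F e) = ∑ j, L e j x ^ d e := by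
    intro x e
    unfold val
    rw [hFe e, map_sum]
    refine Finset.sum_congr rfl fun j _ => ?_
    rw [map_pow, map_sum]
    simp only [map_mul, aeval_C, aeval_X]
    rfl
  have hd0 : ∀ e, 0 < d e := fun e => lt_of_lt_of_le hN1 (hd e)
  let J : ι → Type := fun e => {j : Fin (r e) // L e j y ≠ 0}
  let g : ∀ e, J e → K := fun e j => L e j.1 y ^ d e
  have hg : ∀ e j, g e j ≠ 0 := fun e j => pow_ne_zero _ j.2
  have hsub : ∀ (e : ι) (f : Fin (r e) → K), (∀ j, L e j y = 0 → f j = 0) →
      ∑ j, f j = ∑ j : J e, f j.1 := by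
    intro e f hf
    rw [← Finset.sum_subtype (Finset.univ.filter fun j => L e j y ≠ 0) (by simp) f]
    rw [Finset.sum_filter_of_ne]
    intro j _ hj h0
    exact hj (hf j h0)
  have hsum : ∀ e, ∑ j, g e j = 0 := by
    intro e
    rw [← hsub e (fun j => L e j y ^ d e) (fun j hj => by rw [hj, zero_pow (hd0 e).ne']), ← hval]
    exact hyF e
  have hcard : ∀ e, Fintype.card (J e) ≤ s := fun e =>
    (Fintype.card_subtype_le _).trans (by rw [Fintype.card_fin]; exact hr e)
  have hjump : ∀ P : Place k K, ¬ False → ∀ e (i j : J e), P.ord (g e i) = P.ord (g e j) ∨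
      ((w * ((s + 1) * tn (s - 1)) : ℕ) : ℤ) ≤ |P.ord (g e i) - P.ord (g e j)| := by
    intro P _ e i j
    change P.ord (L e i.1 y ^ d e) = P.ord (L e j.1 y ^ d e) ∨
      _ ≤ |P.ord (L e i.1 y ^ d e) - P.ord (L e j.1 y ^ d e)|
    rw [P.ord_pow, P.ord_pow]
    by_cases h : P.ord (L e i.1 y) = P.ord (L e j.1 y)
    · left; rw [h]
    · right
      rw [← mul_sub, abs_mul, Nat.abs_cast]
      have h1 : (1 : ℤ) ≤ |P.ord (L e i.1 y) - P.ord (L e j.1 y)| :=
        Int.one_le_abs (sub_ne_zero.2 h)
      have h2 : w * ((s + 1) * tn (s - 1)) ≤ d e :=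
        ((Nat.mul_le_mul_right _ hwn).trans hN).trans (hd e)
      have h3 : ((w * ((s + 1) * tn (s - 1)) : ℕ) : ℤ) ≤ d e := by exact_mod_cast h2
      have h4 : (0 : ℤ) ≤ d e := by positivity
      nlinarith
  rcases system hw htr g hg hsum hcard (fun _ => False) hjump with h | ⟨D, hD, hR⟩
  · exact absurd (general_of_log h) hgt
  · refine ⟨fun i => D (y i), moves hgen hD, fun c c' e => ?_⟩
    obtain ⟨R, hRe, hRD, hRs⟩ := hR e
    have hLD : ∀ j, L e j (fun i => D (y i)) = D (L e j y) := by
      intro j
      simp only [L]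
      rw [map_sum]
      refine Finset.sum_congr rfl fun i _ => ?_
      rw [D.leibniz, D.map_algebraMap, smul_zero, add_zero, smul_eq_mul]
    have hLlin : ∀ j, L e j (fun l => c * y l + c' * D (y l)) = c * L e j y + c' * D (L e j y) := by
      intro j
      rw [← hLD]
      simp only [L, Finset.mul_sum, ← Finset.sum_add_distrib]
      exact Finset.sum_congr rfl fun i _ => by ring
    rw [hval]
    simp only [hLlin]
    rw [hsub e (fun j => (c * L e j y + c' * D (L e j y)) ^ d e) (fun j hj => by
      rw [hj, map_zero, mul_zero, mul_zero, add_zero, zero_pow (hd0 e).ne'])]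
    have h1 := weighted_sum R hRe (g e) (fun j => (c + c' * (D (L e j.1 y) / L e j.1 y)) ^ d e)
      (fun i j hij => by
        have h2 := hRD i j hij
        have hi := i.2
        have hj := j.2
        have hde : (d e : K) ≠ 0 := by exact_mod_cast (hd0 e).ne'
        change D (L e i.1 y ^ d e) * L e j.1 y ^ d e = L e i.1 y ^ d e * D (L e j.1 y ^ d e) at h2
        have hpow : ∀ x : K, x ≠ 0 → D (x ^ d e) = d e * x ^ d e * (D x / x) := by
          intro x hx
          rw [D.leibniz_pow]
          obtain ⟨q, hq⟩ : ∃ q, d e = q + 1 := ⟨d e - 1, by have := hd0 e; omega⟩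
          rw [hq]
          simp only [nsmul_eq_mul, smul_eq_mul, Nat.add_sub_cancel]
          field_simp
          ring
        rw [hpow _ hi, hpow _ hj] at h2
        have h3 : D (L e i.1 y) / L e i.1 y = D (L e j.1 y) / L e j.1 y := by
          have h4 : (d e : K) * L e i.1 y ^ d e * L e j.1 y ^ d e ≠ 0 :=
            mul_ne_zero (mul_ne_zero hde (pow_ne_zero _ hi)) (pow_ne_zero _ hj)
          apply mul_left_cancel₀ h4
          linear_combination h2
        rw [h3]) hRs
    refine Eq.trans (Finset.sum_congr rfl fun j _ => ?_) h1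
    have hj := j.2
    change _ = _ * L e j.1 y ^ d e
    rw [← mul_pow]
    congr 1
    field_simp

end Pool.Agent.W602.GT
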